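import Pool.Agent.TH309.LF.Horn

/-!
# Local indicability and its Horn axioms; compactness for presentations
-/

set_option autoImplicit false

namespace Pool.Agent.TH309.LF

universe u v

theorem LocallyIndicable.horn {G : Type*} [Group G] (hG : LocallyIndicable G) : Horn G := by
  intro r k hk w hw s hs
  by_contra hne
  push Not at hne
  obtain ⟨j₀, hj₀⟩ := hne
  set H : Subgroup G := Subgroup.closure (Set.range s) with hH
  have hmem : ∀ j, s j ∈ H := fun j => Subgroup.subset_closure ⟨j, rfl⟩
  let s' : Fin r → H := fun j => ⟨s j, hmem j⟩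
  have hs' : ∀ j, s' j ^ k = FreeGroup.lift s' (w j) := by
    intro j
    apply H.subtype_injective
    rw [map_lift, map_pow]
    exact hs j
  have hgen : Subgroup.closure (Set.range s') = ⊤ := by
    rw [eq_top_iff]
    have := Subgroup.closure_closure_coe_preimage (k := Set.range s)
    rw [← hH] at this
    have h2 : (Subtype.val : H → G) ⁻¹' (Set.range s) = Set.range s' := by
      ext x
      constructor
      · rintro ⟨j, hj⟩
        exact ⟨j, Subtype.ext hj⟩
      · rintro ⟨j, rfl⟩
        exact ⟨j, rfl⟩
    rw [← h2]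
    exact this.ge
  have hfg : H.FG := ⟨(Set.finite_range s).toFinset, by simp [hH]⟩
  have hbot : H ≠ ⊥ := by
    intro h
    apply hj₀
    have := hmem j₀
    rw [h] at this
    exact this
  obtain ⟨f, hf⟩ := hG H hfg hbot
  have h1 : ∀ j, f (s' j) = 1 := by
    have := horn_int r k hk w hw (fun j => f (s' j)) (fun j => by
      rw [← map_lift, ← hs' j, map_pow])
    exact this
  have h2 : f = 1 := by
    refine MonoidHom.eq_of_eqOn_dense hgen ?_
    rintro _ ⟨j, rfl⟩
    simpa using h1 j
  obtain ⟨x, hx⟩ := hf (Multiplicative.ofAdd 1)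
  rw [h2] at hx
  simp at hx
  exact absurd hx (by decide)

theorem Horn.locallyIndicable {G : Type*} [Group G] (hG : Horn G) : LocallyIndicable G := by
  intro H hfg hbot
  by_contra hno
  push Not at hno
  have : Group.FG H := (Group.fg_iff_subgroup_fg H).2 hfg
  have : Group.FG (Abelianization H) :=
    Group.fg_of_surjective (f := Abelianization.of) (QuotientGroup.mk'_surjective _)
  obtain ⟨ι, J, _, _, p, hp, e, ⟨eq⟩⟩ :=
    CommGroup.equiv_free_prod_prod_multiplicative_zmod (Abelianization H)
  by_cases hJ : IsEmpty J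
  · -- the abelianization is finite
    have : ∀ i, NeZero (p i ^ e i) := fun i => ⟨pow_ne_zero _ (hp i).ne_zero⟩
    have : ∀ i, Finite (Multiplicative (ZMod (p i ^ e i))) := fun i =>
      inferInstanceAs (Finite (ZMod (p i ^ e i)))
    have : Finite (Abelianization H) := Finite.of_equiv _ eq.symm.toEquiv
    obtain ⟨S, hS⟩ := hfg
    let r := S.card
    let s : Fin r → G := fun j => (S.equivFin.symm j : G)
    have hsS : Set.range s = (S : Set G) := by
      ext x
      constructor
      · rintro ⟨j, rfl⟩
        exact (S.equivFin.symm j).2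
      · intro hx
        exact ⟨S.equivFin ⟨x, hx⟩, by simp [s]⟩
    have hmem : ∀ j, s j ∈ H := fun j => by
      rw [← hS, ← hsS]
      exact Subgroup.subset_closure ⟨j, rfl⟩
    let s' : Fin r → H := fun j => ⟨s j, hmem j⟩
    have hgen : Subgroup.closure (Set.range s') = ⊤ := by
      rw [eq_top_iff]
      have h1 : Subgroup.closure (Set.range s) = H := by rw [hsS, hS]
      have := Subgroup.closure_closure_coe_preimage (k := Set.range s)
      rw [h1] at this
      have h2 : (Subtype.val : H → G) ⁻¹' (Set.range s) = Set.range s' := by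
        ext x
        constructor
        · rintro ⟨j, hj⟩
          exact ⟨j, Subtype.ext hj⟩
        · rintro ⟨j, rfl⟩
          exact ⟨j, rfl⟩
      rw [← h2]
      exact this.ge
    have hsurj : Function.Surjective (FreeGroup.lift s') := by
      rw [← MonoidHom.range_eq_top, ← hgen]
      apply le_antisymm
      · rw [hgen]; exact le_top
      · rw [Subgroup.closure_le]
        rintro _ ⟨j, rfl⟩
        exact ⟨FreeGroup.of j, by simp⟩
    have hcomm : (commutator (FreeGroup (Fin r))).map (FreeGroup.lift s') = commutator H := by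
      rw [commutator_def, commutator_def, Subgroup.map_commutator,
        ← MonoidHom.range_eq_map, MonoidHom.range_eq_top.2 hsurj]
    set k := Nat.card (Abelianization H) with hk
    have hk0 : 0 < k := Nat.card_pos
    have hpow : ∀ x : H, x ^ k ∈ commutator H := by
      intro x
      rw [← Abelianization.ker_of, MonoidHom.mem_ker, map_pow]
      exact pow_card_eq_one'
    have hw : ∀ j, ∃ w : FreeGroup (Fin r), w ∈ commutator (FreeGroup (Fin r)) ∧
        FreeGroup.lift s' w = s' j ^ k := by
      intro j
      have := hpow (s' j)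
      rw [← hcomm] at this
      obtain ⟨w, hw, h⟩ := this
      exact ⟨w, hw, h⟩
    choose w hw1 hw2 using hw
    have h1 := hG r k hk0 w hw1 s (fun j => by
      have h2 := congrArg H.subtype (hw2 j)
      rw [map_lift, map_pow] at h2
      exact h2.symm)
    apply hbot
    rw [← hS, ← hsS, Subgroup.closure_eq_bot_iff]
    rintro _ ⟨j, rfl⟩
    exact h1 j
  · rw [not_isEmpty_iff] at hJ
    obtain ⟨i⟩ := hJ
    refine hno ((Pi.evalMonoidHom (fun _ : J => Multiplicative ℤ) i).comp
      ((MonoidHom.fst _ _).comp (eq.toMonoidHom.comp Abelianization.of))) ?_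
    intro y
    classical
    obtain ⟨x, hx⟩ := QuotientGroup.mk'_surjective (commutator H)
      (eq.symm (Pi.mulSingle i y, 1))
    refine ⟨x, ?_⟩
    have hx' : Abelianization.of x = eq.symm (Pi.mulSingle i y, 1) := hx
    simp [hx']

/-- Compactness: an element of a normal closure is in the normal closure of finitely many
relators. -/
theorem mem_normalClosure_finite {F : Type*} [Group F] (R : Set F) (w : F)
    (hw : w ∈ Subgroup.normalClosure R) :
    ∃ R₀ : Set F, R₀.Finite ∧ R₀ ⊆ R ∧ w ∈ Subgroup.normalClosure R₀ := by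
  let N : Subgroup F :=
    { carrier := {w | ∃ R₀ : Set F, R₀.Finite ∧ R₀ ⊆ R ∧ w ∈ Subgroup.normalClosure R₀}
      one_mem' := ⟨∅, Set.finite_empty, Set.empty_subset _, Subgroup.one_mem _⟩
      mul_mem' := by
        rintro a b ⟨A, hA, hAR, ha⟩ ⟨B, hB, hBR, hb⟩
        exact ⟨A ∪ B, hA.union hB, Set.union_subset hAR hBR, Subgroup.mul_mem _
          (Subgroup.normalClosure_mono Set.subset_union_left ha)
          (Subgroup.normalClosure_mono Set.subset_union_right hb)⟩
      inv_mem' := by
        rintro a ⟨A, hA, hAR, ha⟩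
        exact ⟨A, hA, hAR, Subgroup.inv_mem _ ha⟩ }
  have : N.Normal := ⟨by
    rintro a ⟨A, hA, hAR, ha⟩ g
    exact ⟨A, hA, hAR, Subgroup.normalClosure_normal.conj_mem a ha g⟩⟩
  have h1 : Subgroup.normalClosure R ≤ N := by
    apply Subgroup.normalClosure_le_normal
    intro x hx
    exact ⟨{x}, Set.finite_singleton x, by simpa using hx,
      Subgroup.subset_normalClosure (Set.mem_singleton x)⟩
  exact h1 hw

theorem horn_quotient_compact {F : Type*} [Group F] (R : Set F)
    (h : ∀ R₀ : Set F, R₀.Finite → R₀ ⊆ R → Horn (F ⧸ Subgroup.normalClosure R₀)) :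
    Horn (F ⧸ Subgroup.normalClosure R) := by
  intro r k hk w hw s hs
  choose t ht using fun j => QuotientGroup.mk'_surjective (Subgroup.normalClosure R) (s j)
  have h1 : ∀ j, (t j ^ k) * (FreeGroup.lift t (w j))⁻¹ ∈ Subgroup.normalClosure R := by
    intro j
    rw [← QuotientGroup.ker_mk' (Subgroup.normalClosure R), MonoidHom.mem_ker, map_mul, map_inv,
      map_lift, map_pow, ht j, mul_inv_eq_one]
    have h2 : (fun a => (QuotientGroup.mk' (Subgroup.normalClosure R)) (t a)) = s := funext ht
    rw [h2]
    exact hs j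
  choose A hA hAR hmem using fun j => mem_normalClosure_finite R _ (h1 j)
  set B : Set F := ⋃ j, A j with hB
  have hBfin : B.Finite := Set.finite_iUnion hA
  have hBR : B ⊆ R := Set.iUnion_subset hAR
  have h3 := h B hBfin hBR r k hk w hw
    (fun j => QuotientGroup.mk' (Subgroup.normalClosure B) (t j)) (fun j => by
      rw [← map_lift, ← map_pow, ← mul_inv_eq_one, ← map_inv, ← map_mul]
      rw [← MonoidHom.mem_ker, QuotientGroup.ker_mk']
      exact Subgroup.normalClosure_mono (Set.subset_iUnion A j) (hmem j))
  intro j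
  have h4 := h3 j
  rw [← MonoidHom.mem_ker, QuotientGroup.ker_mk'] at h4
  rw [← ht j, ← MonoidHom.mem_ker, QuotientGroup.ker_mk']
  exact Subgroup.normalClosure_mono hBR h4

end Pool.Agent.TH309.LF
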