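import Pool.Agent.TH309.LF.Contract

/-!
# Contracting relations: the old group embeds
-/

set_option autoImplicit false

namespace Pool.Agent.TH309.LF

universe u

noncomputable section

open Monoid

section Contract

variable {P B : Type u} [Group P] [Group B] (π : P →* Multiplicative ℤ) (t : P)

/-- `P` embeds; no condition on `P` and `B` is needed. -/
theorem contract_inj (ht : π t = Multiplicative.ofAdd 1) (φ : B →* Monoid.Coprod P B)
    (hφ : ∀ b, φ b ∈ above π t B) :
      Function.Injective ((QuotientGroup.mk' (Subgroup.normalClosure (contrRels φ))).comp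
        (Monoid.Coprod.inl : P →* Monoid.Coprod P B)) := by
  classical
  let A : Type u := AA π.ker B (ULift.{u} ℕ)
  -- lift `φ` to `A`
  obtain ⟨φ', hφ'⟩ : ∃ φ' : B →* A, ∀ b, del π t (φ' b) = φ b := by
    let e := MonoidHom.ofInjective (del_injective (B := B) π t ht)
    refine ⟨e.symm.toMonoidHom.comp
      (φ.codRestrict (del (B := B) π t).range fun b => above_le π t (hφ b)), fun b => ?_⟩
    have h1 := congrArg Subtype.val (e.apply_symm_apply
      (φ.codRestrict (del (B := B) π t).range (fun b => above_le π t (hφ b)) b))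
    exact h1
  let ψ : A →* A := AA.lift (kA.comp (cj π t))
    (fun n => match n.down with
      | 0 => φ'
      | n + 1 => bA ⟨n⟩)
  have hψk : ∀ k : π.ker, ψ (kA k) = kA (MulAut.conjNormal t⁻¹ k) := fun k => AA.lift_kA _ _ k
  have hψ0 : ∀ b : B, ψ (bA ⟨0⟩ b) = φ' b := fun b => AA.lift_bA _ _ (⟨0⟩ : ULift.{u} ℕ) b
  have hψs : ∀ (n : ℕ) (b : B), ψ (bA ⟨n + 1⟩ b) = bA ⟨n⟩ b := fun n b =>
    AA.lift_bA _ _ (⟨n + 1⟩ : ULift.{u} ℕ) b
  set R := contrRels φ with hR
  let mk : Monoid.Coprod P B →* Monoid.Coprod P B ⧸ Subgroup.normalClosure R :=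
    QuotientGroup.mk' (Subgroup.normalClosure R)
  have hrel : ∀ b : B, mk (Monoid.Coprod.inr b) = mk (φ b) := by
    intro b
    have h1 : mk ((Monoid.Coprod.inr b)⁻¹ * φ b) = 1 := by
      rw [← MonoidHom.mem_ker, QuotientGroup.ker_mk']
      exact Subgroup.subset_normalClosure ⟨b, rfl⟩
    rw [map_mul, map_inv, inv_mul_eq_one] at h1
    exact h1
  let q : A →* Monoid.Coprod P B ⧸ Subgroup.normalClosure R := mk.comp (del π t)
  let T : Monoid.Coprod P B ⧸ Subgroup.normalClosure R := mk (Monoid.Coprod.inl t)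
  have hqk : ∀ k : π.ker, q (kA k) = mk (Monoid.Coprod.inl (k : P)) := fun k => by
    change mk (del π t (kA k)) = _
    rw [del_kA]
  have hqb : ∀ (n : ℕ) (b : B), q (bA ⟨n⟩ b) =
      T ^ (n + 1) * mk (Monoid.Coprod.inr b) * (T ^ (n + 1))⁻¹ := fun n b => by
    change mk (del π t (bA ⟨n⟩ b)) = _
    rw [del_bA, map_mul, map_mul, map_inv, map_pow]
  have hqφ' : ∀ b, q (φ' b) = mk (Monoid.Coprod.inr b) := fun b => by
    change mk (del π t (φ' b)) = _
    rw [hφ', hrel]
  have hq : ∀ a, q (ψ a) = T⁻¹ * q a * T := by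
    have h1 : q.comp ψ = ((MulAut.conj T⁻¹).toMonoidHom :
        (Monoid.Coprod P B ⧸ Subgroup.normalClosure R) →* _).comp q := by
      apply AA.hom_ext
      · intro k
        simp only [MonoidHom.comp_apply, MulEquiv.toMonoidHom_eq_coe, MonoidHom.coe_coe,
          MulAut.conj_apply, inv_inv]
        rw [hψk, hqk, hqk, MulAut.conjNormal_apply]
        simp [T]
      · rintro ⟨_ | n⟩ b
        · simp only [MonoidHom.comp_apply, MulEquiv.toMonoidHom_eq_coe, MonoidHom.coe_coe,
            MulAut.conj_apply, inv_inv]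
          rw [hψ0, hqb, hqφ']
          group
        · simp only [MonoidHom.comp_apply, MulEquiv.toMonoidHom_eq_coe, MonoidHom.coe_coe,
            MulAut.conj_apply, inv_inv]
          rw [hψs, hqb, hqb]
          rw [pow_succ' T (n + 1)]
          group
    intro a
    have := DFunLike.congr_fun h1 a
    simpa [MulAut.conj_apply] using this
  -- the homomorphism to the ambient group
  let Φ₀ : Monoid.Coprod P B →* Tor A :=
    Monoid.Coprod.lift (baseHom π t ht ψ kA hψk) ((Gam ψ).comp φ')
  have hΦl : ∀ p, Φ₀ (Monoid.Coprod.inl p) = baseHom π t ht ψ kA hψk p := fun p => by simp [Φ₀]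
  have hΦr : ∀ b, Φ₀ (Monoid.Coprod.inr b) = Gam ψ (φ' b) := fun b => by simp [Φ₀]
  have hψn : ∀ (n : ℕ) (b : B), ψ^[n] (bA ⟨n⟩ b) = bA ⟨0⟩ b := by
    intro n
    induction n with
    | zero => intro b; rfl
    | succ n ih => intro b; rw [Function.iterate_succ_apply, hψs, ih]
  have hcomp : ∀ a, Φ₀ (del π t a) = Gam ψ a := by
    have h1 : Φ₀.comp (del π t) = Gam ψ := by
      apply AA.hom_ext
      · intro k
        rw [MonoidHom.comp_apply, del_kA, hΦl, baseHom_ker]
      · rintro ⟨n⟩ b
        rw [MonoidHom.comp_apply, del_bA, map_mul, map_mul, map_inv, map_pow, hΦl, hΦr, baseHom_t,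
          ← hψ0, ← TT_conj]
        have h1 := Gam_shift ψ n (bA ⟨n⟩ b)
        rw [hψn] at h1
        rw [← h1, pow_succ]
        group
    exact fun a => DFunLike.congr_fun h1 a
  have hker : Subgroup.normalClosure R ≤ Φ₀.ker := by
    apply Subgroup.normalClosure_le_normal
    rintro _ ⟨b, rfl⟩
    change Φ₀ _ = 1
    rw [map_mul, map_inv, inv_mul_eq_one, hΦr, ← hφ', hcomp]
  let Φ : Monoid.Coprod P B ⧸ Subgroup.normalClosure R →* Tor A := QuotientGroup.lift _ Φ₀ hker
  have hΦq : ∀ a, Φ (q a) = Gam ψ a := hcomp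
  have hΦT : Φ T = TT A := (hΦl t).trans (baseHom_t π t ht ψ kA hψk)
  have hΦp : ∀ p, Φ (mk (Monoid.Coprod.inl p)) = baseHom π t ht ψ kA hψk p := hΦl
  have hψkn : ∀ (n : ℕ) (k : π.ker), ψ^[n] (kA k) = 1 → k = 1 := by
    intro n
    induction n with
    | zero => intro k hk; exact kA_injective (by rw [map_one]; exact hk)
    | succ n ih =>
      intro k hk
      rw [Function.iterate_succ_apply, hψk] at hk
      have h1 := ih _ hk
      exact (MulAut.conjNormal t⁻¹).injective (by rw [h1, map_one])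
  rw [injective_iff_map_eq_one]
  intro p hp
  have h1 : Φ (mk (Monoid.Coprod.inl p)) = 1 := by
    have : mk (Monoid.Coprod.inl p) = 1 := hp
    rw [this, map_one]
  have h2 : baseHom π t ht ψ kA hψk p = TT A ^ (zee π p) * Gam ψ (kA (kk π t ht p)) := rfl
  rw [hΦp, h2] at h1
  have h3 : zee π p = 0 := by
    have h4 := congrArg (SemidirectProduct.rightHom (φ := shA A)) h1
    simp only [map_mul, map_zpow, Gam, MonoidHom.comp_apply,
      SemidirectProduct.rightHom_inl, TT, SemidirectProduct.rightHom_inr, map_one, mul_one] at h4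
    have h5 := congrArg Multiplicative.toAdd h4
    simpa using h5
  rw [h3, zpow_zero, one_mul] at h1
  obtain ⟨n, hn⟩ := Gam_eq_one ψ _ h1
  have h4 := hψkn n _ hn
  have h5 := congrArg Subtype.val h4
  simpa [kk, h3] using h5

end Contract

end

end Pool.Agent.TH309.LF
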