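import Pool.Agent.TH309.LF.Fox
import Pool.Agent.TH309.LF.ContractInj

/-!
# Contracting extensions of presentations: injectivity and asphericity
-/

set_option autoImplicit false

namespace Pool.Agent.TH309.LF

universe u

noncomputable section

open MonoidAlgebra

section

variable {X₀ R₀ E : Type u} (rel₀ : R₀ → FreeGroup X₀)
  (π : FreeGroup X₀ →* Multiplicative ℤ) (t : FreeGroup X₀)

/-- the words of the old generators as words of all generators -/
abbrev oldW (E : Type u) {X₀ : Type u} : FreeGroup X₀ →* FreeGroup (X₀ ⊕ E) :=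
  FreeGroup.map Sum.inl

/-- The subgroup of the free group on the old generators `X₀` and the new generators `E` which is
generated by the words of `ker π` and the words `tʲ e t⁻ʲ`, `j ≥ 1`, `e : E`. -/
def aboveW (π : FreeGroup X₀ →* Multiplicative ℤ) (t : FreeGroup X₀) (E : Type u) :
    Subgroup (FreeGroup (X₀ ⊕ E)) :=
  Subgroup.closure
    ({x | ∃ k : FreeGroup X₀, π k = 1 ∧ x = oldW E k} ∪
      {x | ∃ (e : E) (j : ℕ), 1 ≤ j ∧
        x = (oldW E t) ^ j * FreeGroup.of (Sum.inr e) * ((oldW E t) ^ j)⁻¹})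

/-- The old relators and the new relators `e⁻¹ u(e)`. -/
def newRel (u : E → FreeGroup (X₀ ⊕ E)) : R₀ ⊕ E → FreeGroup (X₀ ⊕ E) :=
  Sum.elim (fun r => oldW E (rel₀ r)) (fun e => (FreeGroup.of (Sum.inr e))⁻¹ * u e)

variable (u : E → FreeGroup (X₀ ⊕ E))

theorem mk_rel {X R : Type*} (rel : R → FreeGroup X) (r : R) :
    PresentedGroup.mk (Set.range rel) (rel r) = 1 :=
  (QuotientGroup.eq_one_iff _).2 (Subgroup.subset_normalClosure ⟨r, rfl⟩)

/-- The homomorphism from the old group to the new group. -/
def incl : PGrp rel₀ →* PGrp (newRel rel₀ u) :=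
  QuotientGroup.map _ _ (oldW E) (by
    apply Subgroup.normalClosure_le_normal
    rintro _ ⟨r, rfl⟩
    exact Subgroup.subset_normalClosure ⟨Sum.inl r, rfl⟩)

theorem incl_mk (w : FreeGroup X₀) : incl rel₀ u (PresentedGroup.mk _ w) =
    PresentedGroup.mk _ (oldW E w) := rfl

/-- the degree on the old group -/
def degP (hπ : ∀ r, π (rel₀ r) = 1) : PGrp rel₀ →* Multiplicative ℤ :=
  QuotientGroup.lift _ π (by
    apply Subgroup.normalClosure_le_normal
    rintro _ ⟨r, rfl⟩
    exact hπ r)

theorem degP_mk (hπ : ∀ r, π (rel₀ r) = 1) (w : FreeGroup X₀) :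
    degP rel₀ π hπ (PresentedGroup.mk _ w) = π w := rfl

/-- words in `P * F(E)` -/
def Th : FreeGroup (X₀ ⊕ E) →* Monoid.Coprod (PGrp rel₀) (FreeGroup E) :=
  FreeGroup.lift (Sum.elim (fun x => Monoid.Coprod.inl (PresentedGroup.mk _ (FreeGroup.of x)))
    (fun e => Monoid.Coprod.inr (FreeGroup.of e)))

theorem Th_old (w : FreeGroup X₀) :
    Th (E := E) rel₀ (oldW E w) = Monoid.Coprod.inl (PresentedGroup.mk _ w) := by
  have : (Th (E := E) rel₀).comp (oldW E) =
      (Monoid.Coprod.inl : PGrp rel₀ →* _).comp (PresentedGroup.mk _) := by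
    ext x
    simp [Th]
  exact DFunLike.congr_fun this w

theorem Th_new (e : E) :
    Th rel₀ (FreeGroup.of (Sum.inr e)) = Monoid.Coprod.inr (FreeGroup.of e) := by
  simp [Th]

theorem incl_injective (hπ : ∀ r, π (rel₀ r) = 1) (ht : π t = Multiplicative.ofAdd 1)
    (hu : ∀ e, u e ∈ aboveW π t E) : Function.Injective (incl rel₀ u) := by
  let P := PGrp rel₀
  let φ : FreeGroup E →* Monoid.Coprod P (FreeGroup E) :=
    FreeGroup.lift fun e => Th rel₀ (u e)
  let π' : P →* Multiplicative ℤ := degP rel₀ π hπ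
  let t' : P := PresentedGroup.mk _ t
  have hφ : ∀ b, φ b ∈ above π' t' (FreeGroup E) := by
    have h1 : aboveW π t E ≤ (above π' t' (FreeGroup E)).comap (Th rel₀) := by
      unfold aboveW
      rw [Subgroup.closure_le]
      rintro x (⟨k, hk, rfl⟩ | ⟨e, j, hj, rfl⟩)
      · rw [SetLike.mem_coe, Subgroup.mem_comap, Th_old]
        exact Subgroup.subset_closure (Or.inl ⟨_, hk, rfl⟩)
      · rw [SetLike.mem_coe, Subgroup.mem_comap, map_mul, map_mul, map_inv, map_pow, Th_old,
          Th_new]
        exact Subgroup.subset_closure (Or.inr ⟨FreeGroup.of e, j, hj, rfl⟩)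
    have h2 : φ.range ≤ above π' t' (FreeGroup E) := by
      rintro _ ⟨b, rfl⟩
      induction b using FreeGroup.induction_on with
      | C1 => rw [map_one]; exact Subgroup.one_mem _
      | of e =>
        have h3 : φ (FreeGroup.of e) = Th rel₀ (u e) := by simp [φ]
        rw [h3]
        exact h1 (hu e)
      | inv_of e ih => rw [map_inv]; exact Subgroup.inv_mem _ ih
      | mul x y hx hy => rw [map_mul]; exact Subgroup.mul_mem _ hx hy
    exact fun b => h2 ⟨b, rfl⟩
  have hinj := contract_inj π' t' ht φ hφ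
  let Ψ : PGrp (newRel rel₀ u) →*
      Monoid.Coprod P (FreeGroup E) ⧸ Subgroup.normalClosure (contrRels φ) :=
    QuotientGroup.map _ _ (Th rel₀) (by
      apply Subgroup.normalClosure_le_normal
      rintro _ ⟨r | e, rfl⟩
      · change Th rel₀ (oldW E (rel₀ r)) ∈ Subgroup.normalClosure (contrRels φ)
        rw [Th_old, mk_rel, map_one]
        exact Subgroup.one_mem _
      · change Th rel₀ ((FreeGroup.of (Sum.inr e))⁻¹ * u e) ∈
          Subgroup.normalClosure (contrRels φ)
        rw [map_mul, map_inv, Th_new]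
        have h3 : φ (FreeGroup.of e) = Th rel₀ (u e) := by simp [φ]
        rw [← h3]
        exact Subgroup.subset_normalClosure ⟨FreeGroup.of e, rfl⟩)
  have hΨ : ∀ p : P, Ψ (incl rel₀ u p) =
      QuotientGroup.mk' (Subgroup.normalClosure (contrRels φ)) (Monoid.Coprod.inl p) := by
    intro p
    obtain ⟨w, rfl⟩ := PresentedGroup.mk_surjective _ p
    rw [incl_mk]
    change QuotientGroup.mk' (Subgroup.normalClosure (contrRels φ)) (Th rel₀ (oldW E w)) = _
    rw [Th_old]
  intro p p' h
  apply hinj
  change QuotientGroup.mk' (Subgroup.normalClosure (contrRels φ)) (Monoid.Coprod.inl p) =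
    QuotientGroup.mk' (Subgroup.normalClosure (contrRels φ)) (Monoid.Coprod.inl p')
  rw [← hΨ, ← hΨ, h]

/-- the degree on the free group of all generators -/
def degF (π : FreeGroup X₀ →* Multiplicative ℤ) (E : Type u) :
    FreeGroup (X₀ ⊕ E) →* Multiplicative ℤ :=
  FreeGroup.lift (Sum.elim (fun x => π (FreeGroup.of x)) (fun _ => 1))

theorem degF_old (w : FreeGroup X₀) : degF π E (oldW E w) = π w := by
  have : (degF π E).comp (oldW E) = π := by
    ext x
    simp [degF]
  exact DFunLike.congr_fun this w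

theorem degF_new (e : E) : degF π E (FreeGroup.of (Sum.inr e)) = 1 := by
  simp [degF]

theorem degF_above {w : FreeGroup (X₀ ⊕ E)} (hw : w ∈ aboveW π t E) : degF π E w = 1 := by
  have h1 : aboveW π t E ≤ (degF π E).ker := by
    unfold aboveW
    rw [Subgroup.closure_le]
    rintro x (⟨k, hk, rfl⟩ | ⟨e, j, hj, rfl⟩)
    · rw [SetLike.mem_coe, MonoidHom.mem_ker, degF_old, hk]
    · rw [SetLike.mem_coe, MonoidHom.mem_ker, map_mul, map_mul, map_inv, degF_new]
      simp
  exact h1 hw

/-- the degree on the new group -/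
def degG (hπ : ∀ r, π (rel₀ r) = 1) (hu : ∀ e, u e ∈ aboveW π t E) :
    PGrp (newRel rel₀ u) →* Multiplicative ℤ :=
  QuotientGroup.lift _ (degF π E) (by
    apply Subgroup.normalClosure_le_normal
    rintro _ ⟨r | e, rfl⟩
    · change degF π E (oldW E (rel₀ r)) = 1
      rw [degF_old, hπ]
    · change degF π E ((FreeGroup.of (Sum.inr e))⁻¹ * u e) = 1
      rw [map_mul, map_inv, degF_new, degF_above π t (hu e), inv_one, one_mul])

theorem aspherical_new (hπ : ∀ r, π (rel₀ r) = 1) (ht : π t = Multiplicative.ofAdd 1)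
    (hu : ∀ e, u e ∈ aboveW π t E) (hasph : Aspherical rel₀) :
    Aspherical (newRel rel₀ u) := by
  classical
  intro c hc
  let G := PGrp (newRel rel₀ u)
  let ρ : FreeGroup (X₀ ⊕ E) →* G := PresentedGroup.mk _
  let χ : G →* Multiplicative ℤ := degG rel₀ π t u hπ hu
  have hχ : ∀ w, χ (ρ w) = degF π E w := fun w => rfl
  -- Fox derivatives of the words in `aboveW`
  have hfox : ∀ w ∈ aboveW π t E, ∀ e' : E, DegGE χ (fox ρ w (Sum.inr e')) 1 := by
    intro w hw e'
    have h1 : ∀ w ∈ aboveW π t E, degF π E w = 1 ∧ DegGE χ (fox ρ w (Sum.inr e')) 1 := by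
      intro w hw
      unfold aboveW at hw
      induction hw using Subgroup.closure_induction with
      | mem x hx =>
        rcases hx with ⟨k, hk, rfl⟩ | ⟨e, j, hj, rfl⟩
        · refine ⟨by rw [degF_old, hk], ?_⟩
          rw [fox_map_of_notMem Sum.inl ρ k (Sum.inr e') (by simp)]
          exact degGE_zero χ 1
        · refine ⟨?_, ?_⟩
          · rw [map_mul, map_mul, map_inv, degF_new]
            simp
          · rw [← map_pow, fox_mul, fox_mul, fox_inv,
              fox_map_of_notMem Sum.inl ρ (t ^ j) (Sum.inr e') (by simp), zero_add, mul_zero,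
              neg_zero, mul_zero, add_zero, fox_of]
            have h2 : (1 : ℤ) ≤ (χ (ρ (oldW E (t ^ j)))).toAdd := by
              rw [hχ, degF_old, map_pow, ht]
              simp
              exact_mod_cast hj
            split_ifs
            · rw [mul_one]
              exact (degGE_single χ _ _).mono χ h2
            · rw [mul_zero]
              exact degGE_zero χ 1
      | one => exact ⟨map_one _, by rw [fox_one]; exact degGE_zero χ 1⟩
      | mul x y hx hy ihx ihy =>
        refine ⟨by rw [map_mul, ihx.1, ihy.1, one_mul], ?_⟩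
        rw [fox_mul]
        refine ihx.2.add χ ?_
        have h2 := (degGE_single χ (ρ x) 1).mul χ ihy.2
        rw [hχ, ihx.1] at h2
        simpa using h2
      | inv x hx ihx =>
        refine ⟨by rw [map_inv, ihx.1, inv_one], ?_⟩
        rw [fox_inv]
        refine DegGE.neg χ ?_
        have h2 := (degGE_single χ (ρ x)⁻¹ 1).mul χ ihx.2
        rw [map_inv, hχ, ihx.1] at h2
        simpa using h2
    exact (h1 w hw).2
  -- the two parts of `c`
  have hsplit : ∀ y : X₀ ⊕ E,
      (∑ r ∈ c.support.toLeft, c (Sum.inl r) * fox ρ (oldW E (rel₀ r)) y) +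
      (∑ e ∈ c.support.toRight, c (Sum.inr e) *
        fox ρ ((FreeGroup.of (Sum.inr e))⁻¹ * u e) y) = 0 := by
    intro y
    have h1 : (∑ r ∈ c.support, c r * fox ρ (newRel rel₀ u r) y) = 0 := congrFun hc y
    rw [Finset.sum_sum_eq_sum_toLeft_add_sum_toRight] at h1
    exact h1
  let g : E → G := fun e => ρ (FreeGroup.of (Sum.inr e))
  let b : E →₀ MonoidAlgebra ℤ G := Finsupp.onFinset c.support.toRight
    (fun e => c (Sum.inr e) * single (g e)⁻¹ 1) (by
      intro e he
      rw [Finset.mem_toRight, Finsupp.mem_support_iff]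
      intro h
      apply he
      rw [h, zero_mul])
  have hb : ∀ e, b e = c (Sum.inr e) * single (g e)⁻¹ 1 := fun e => rfl
  have hb0 : b = 0 := by
    apply lowest χ b (fun e e' => fox ρ (u e) (Sum.inr e'))
    · intro e e'
      exact hfox (u e) (hu e) e'
    · intro e'
      have h1 := hsplit (Sum.inr e')
      rw [Finset.sum_eq_zero (s := c.support.toLeft), zero_add] at h1
      swap
      · intro r _
        rw [fox_map_of_notMem Sum.inl ρ (rel₀ r) (Sum.inr e') (by simp), mul_zero]
      have h2 : ∀ e ∈ c.support.toRight, c (Sum.inr e) *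
          fox ρ ((FreeGroup.of (Sum.inr e))⁻¹ * u e) (Sum.inr e') =
          b e * fox ρ (u e) (Sum.inr e') - (if e' = e then b e else 0) := by
        intro e _
        rw [fox_mul, fox_inv, fox_of, hb, map_inv]
        by_cases h : e' = e
        · subst h
          rw [if_pos rfl, if_pos rfl, mul_one, mul_add, mul_neg, ← mul_assoc]
          exact neg_add_eq_sub _ _
        · rw [if_neg (fun h' => h (Sum.inr.inj h')), if_neg h, mul_zero, neg_zero, zero_add,
            sub_zero, ← mul_assoc]
      rw [Finset.sum_congr rfl h2, Finset.sum_sub_distrib, sub_eq_zero] at h1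
      have h3 : (b.sum fun e a => a * fox ρ (u e) (Sum.inr e')) =
          ∑ e ∈ c.support.toRight, b e * fox ρ (u e) (Sum.inr e') :=
        Finsupp.onFinset_sum _ fun _ => zero_mul _
      rw [h3, h1, Finset.sum_ite_eq]
      split_ifs with h4
      · rfl
      · rw [hb]
        rw [Finset.mem_toRight, Finsupp.notMem_support_iff] at h4
        rw [h4, zero_mul]
  have hc2 : ∀ e, c (Sum.inr e) = 0 := by
    intro e
    have h1 : b e = 0 := by rw [hb0]; rfl
    rw [hb] at h1
    have h2 := congrArg (fun a => a * single (g e) (1 : ℤ)) h1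
    simp only [zero_mul] at h2
    rw [mul_assoc, single_mul_single, inv_mul_cancel, one_mul, ← one_def, mul_one] at h2
    exact h2
  have hinj := incl_injective rel₀ π t u hπ ht hu
  have hc1 : ∀ r, c (Sum.inl r) = 0 := by
    intro r
    apply cos_eq_zero (incl rel₀ u) hinj
    intro h
    let c₀ : R₀ →₀ MonoidAlgebra ℤ (PGrp rel₀) := Finsupp.onFinset c.support.toLeft
      (fun r => cos (incl rel₀ u) hinj h (c (Sum.inl r))) (by
        intro r hr
        rw [Finset.mem_toLeft, Finsupp.mem_support_iff]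
        intro h'
        apply hr
        rw [h', cos_zero])
    have h1 : c₀ = 0 := by
      apply hasph
      funext x
      have h2 := hsplit (Sum.inl x)
      rw [Finset.sum_eq_zero (s := c.support.toRight), add_zero] at h2
      swap
      · intro e _
        rw [hc2, zero_mul]
      have h3 : bdry rel₀ c₀ x = ∑ r ∈ c.support.toLeft,
          cos (incl rel₀ u) hinj h (c (Sum.inl r)) * fox (PresentedGroup.mk _) (rel₀ r) x :=
        Finsupp.onFinset_sum _ fun _ => zero_mul _
      rw [h3]
      have h4 := congrArg (cos (incl rel₀ u) hinj h) h2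
      rw [cos_zero, cos_sum] at h4
      rw [Pi.zero_apply, ← h4]
      refine Finset.sum_congr rfl fun r _ => ?_
      rw [fox_map Sum.inl Sum.inl_injective (PresentedGroup.mk (Set.range rel₀)) ρ (incl rel₀ u)
        (incl_mk rel₀ u) (rel₀ r) x, cos_mul]
    have h5 : c₀ r = 0 := by rw [h1]; rfl
    exact h5
  ext r : 1
  rcases r with r | e
  · exact hc1 r
  · exact hc2 e

theorem aspherical_old (hπ : ∀ r, π (rel₀ r) = 1) (ht : π t = Multiplicative.ofAdd 1)
    (hu : ∀ e, u e ∈ aboveW π t E) (hasph : Aspherical (newRel rel₀ u)) :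
    Aspherical rel₀ := by
  classical
  intro c₀ hc
  have hinj := incl_injective rel₀ π t u hπ ht hu
  let G := PGrp (newRel rel₀ u)
  let ρ : FreeGroup (X₀ ⊕ E) →* G := PresentedGroup.mk _
  let f : R₀ ⊕ E → MonoidAlgebra ℤ G :=
    Sum.elim (fun r => mapDomain (incl rel₀ u) (c₀ r)) (fun _ => 0)
  have hf : ∀ r, f r ≠ 0 → r ∈ c₀.support.disjSum (∅ : Finset E) := by
    rintro (r | e) hr
    · rw [Finset.inl_mem_disjSum, Finsupp.mem_support_iff]
      intro h
      apply hr
      change mapDomain (incl rel₀ u) (c₀ r) = 0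
      rw [h, mapDomain_zero]
    · exact absurd rfl hr
  let c : R₀ ⊕ E →₀ MonoidAlgebra ℤ G := Finsupp.onFinset (c₀.support.disjSum ∅) f hf
  have h1 : c = 0 := by
    apply hasph
    funext y
    have h2 : bdry (newRel rel₀ u) c y =
        ∑ r ∈ c₀.support.disjSum (∅ : Finset E), f r * fox ρ (newRel rel₀ u r) y :=
      Finsupp.onFinset_sum _ fun _ => zero_mul _
    rw [h2, Finset.sum_disjSum, Finset.sum_empty, add_zero]
    rcases y with x | e
    · have h3 : ∀ r ∈ c₀.support, f (Sum.inl r) * fox ρ (newRel rel₀ u (Sum.inl r)) (Sum.inl x) =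
          mapDomainRingHom ℤ (incl rel₀ u) (c₀ r * fox (PresentedGroup.mk _) (rel₀ r) x) := by
        intro r _
        rw [map_mul, mapDomainRingHom_apply, mapDomainRingHom_apply]
        change mapDomain (incl rel₀ u) (c₀ r) * fox ρ (oldW E (rel₀ r)) (Sum.inl x) = _
        rw [fox_map Sum.inl Sum.inl_injective (PresentedGroup.mk (Set.range rel₀)) ρ
          (incl rel₀ u) (incl_mk rel₀ u) (rel₀ r) x]
      rw [Finset.sum_congr rfl h3, ← map_sum]
      have h4 : (∑ r ∈ c₀.support, c₀ r * fox (PresentedGroup.mk _) (rel₀ r) x) = 0 :=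
        congrFun hc x
      rw [h4, map_zero]
      rfl
    · refine Finset.sum_eq_zero fun r _ => ?_
      change _ * fox ρ (oldW E (rel₀ r)) (Sum.inr e) = 0
      rw [fox_map_of_notMem Sum.inl ρ (rel₀ r) (Sum.inr e) (by simp), mul_zero]
  ext r : 1
  apply mapDomain_injective hinj
  have h2 : c (Sum.inl r) = 0 := by rw [h1]; rfl
  rw [Finsupp.zero_apply, mapDomain_zero]
  exact h2

end

end

end Pool.Agent.TH309.LF
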