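import Pool.Agent.TH309.LF.Torus

/-!
# The group `G₀ = ker π ⋊ ℤ` inside the ambient group, and the tree lemma
-/

set_option autoImplicit false

namespace Pool.Agent.TH309.LF

universe u

open Filter

noncomputable section

section Base

variable {G₀ A : Type u} [Group G₀] [Group A] (π : G₀ →* Multiplicative ℤ) (t₀ : G₀)
  (ht₀ : π t₀ = Multiplicative.ofAdd 1) (φ : A →* A) (κ : π.ker →* A)
  (hφ : ∀ k : π.ker, φ (κ k) = κ (MulAut.conjNormal t₀⁻¹ k))

include hφ in
theorem conj_zpow (m : ℤ) : ∀ k : π.ker, (TT A) ^ (-m) * Gam φ (κ k) * (TT A) ^ m =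
    Gam φ (κ (MulAut.conjNormal (t₀ ^ (-m)) k)) := by
  induction m using Int.induction_on with
  | zero => intro k; simp
  | succ m ih =>
    intro k
    have h1 : (TT A) ^ (-((m : ℤ) + 1)) * Gam φ (κ k) * (TT A) ^ ((m : ℤ) + 1) =
        (TT A)⁻¹ * ((TT A) ^ (-(m : ℤ)) * Gam φ (κ k) * (TT A) ^ (m : ℤ)) * TT A := by
      rw [show -((m : ℤ) + 1) = -1 + -(m : ℤ) by ring, zpow_add, zpow_add, zpow_neg_one, zpow_one]
      simp only [mul_assoc]
    rw [h1, ih, TT_conj, hφ, ← MulAut.mul_apply, ← map_mul]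
    congr 4
    rw [show -((m : ℤ) + 1) = -1 + -(m : ℤ) by ring, zpow_add, zpow_neg_one]
  | pred m ih =>
    intro k
    have h1 : (TT A) ^ (-(-(m : ℤ) - 1)) * Gam φ (κ k) * (TT A) ^ (-(m : ℤ) - 1) =
        TT A * ((TT A) ^ (-(-(m : ℤ))) * Gam φ (κ k) * (TT A) ^ (-(m : ℤ))) * (TT A)⁻¹ := by
      rw [show -(-(m : ℤ) - 1) = 1 + -(-(m : ℤ)) by ring, sub_eq_add_neg, zpow_add, zpow_add,
        zpow_neg_one, zpow_one]
      simp only [mul_assoc]
    rw [h1, ih]
    have h2 := TT_conj φ (κ (MulAut.conjNormal (t₀ ^ (-(-(m : ℤ) - 1))) k))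
    rw [hφ, ← MulAut.mul_apply, ← map_mul] at h2
    have h3 : t₀⁻¹ * t₀ ^ (-(-(m : ℤ) - 1)) = t₀ ^ (-(-(m : ℤ))) := by
      rw [show -(-(m : ℤ) - 1) = 1 + -(-(m : ℤ)) by ring, zpow_add, zpow_one, inv_mul_cancel_left]
    rw [h3] at h2
    rw [← h2]
    group

/-- the exponent of an element -/
def zee (g : G₀) : ℤ := (π g).toAdd

theorem zee_mul (g h : G₀) : zee π (g * h) = zee π g + zee π h := by
  simp [zee]

include ht₀ in
theorem zee_t : zee π t₀ = 1 := by
  simp [zee, ht₀]

include ht₀ in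
theorem kk_mem (g : G₀) : t₀ ^ (-(zee π g)) * g ∈ π.ker := by
  rw [MonoidHom.mem_ker, map_mul, map_zpow, ht₀]
  apply Multiplicative.toAdd.injective
  simp [zee]

/-- the component in the kernel -/
def kk (g : G₀) : π.ker := ⟨t₀ ^ (-(zee π g)) * g, kk_mem π t₀ ht₀ g⟩

/-- `G₀` in the ambient group -/
def baseHom : G₀ →* Tor A where
  toFun g := TT A ^ (zee π g) * Gam φ (κ (kk π t₀ ht₀ g))
  map_one' := by
    have h1 : kk π t₀ ht₀ 1 = 1 := by
      apply Subtype.ext
      simp [kk, zee]
    rw [h1]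
    simp [zee]
  map_mul' g h := by
    have h1 : kk π t₀ ht₀ (g * h) =
        MulAut.conjNormal (t₀ ^ (-(zee π h))) (kk π t₀ ht₀ g) * kk π t₀ ht₀ h := by
      apply Subtype.ext
      simp only [kk, Subgroup.coe_mul, MulAut.conjNormal_apply, zee_mul]
      rw [show -(zee π g + zee π h) = -(zee π h) + -(zee π g) by ring, zpow_add]
      group
    rw [h1, map_mul, map_mul, ← conj_zpow π t₀ φ κ hφ, zee_mul, zpow_add]
    group

theorem baseHom_ker (k : π.ker) : baseHom π t₀ ht₀ φ κ hφ k = Gam φ (κ k) := by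
  have h0 : zee π (k : G₀) = 0 := by
    have := k.2
    rw [MonoidHom.mem_ker] at this
    simp [zee, this]
  have h1 : kk π t₀ ht₀ (k : G₀) = k := by
    apply Subtype.ext
    simp [kk, h0]
  change TT A ^ (zee π (k : G₀)) * Gam φ (κ (kk π t₀ ht₀ (k : G₀))) = _
  rw [h0, h1, zpow_zero, one_mul]

theorem baseHom_one (g : G₀) (hg : zee π g = 1) (h : t₀⁻¹ * g ∈ π.ker) :
    baseHom π t₀ ht₀ φ κ hφ g = TT A * Gam φ (κ ⟨t₀⁻¹ * g, h⟩) := by
  have h1 : kk π t₀ ht₀ g = ⟨t₀⁻¹ * g, h⟩ := by
    apply Subtype.ext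
    simp [kk, hg]
  change TT A ^ (zee π g) * Gam φ (κ (kk π t₀ ht₀ g)) = _
  rw [hg, h1, zpow_one]

theorem baseHom_t : baseHom π t₀ ht₀ φ κ hφ t₀ = TT A := by
  have h : t₀⁻¹ * t₀ ∈ π.ker := by simp
  rw [baseHom_one π t₀ ht₀ φ κ hφ t₀ (zee_t π t₀ ht₀) h]
  have : (⟨t₀⁻¹ * t₀, h⟩ : π.ker) = 1 := Subtype.ext (by simp)
  rw [this, map_one, map_one, mul_one]

end Base

/-! ### The tree lemma -/

section Solve

variable {O N ε : Type u}

/-- Leaf condition: every nonempty finite set of edges (with end points `a e`, `b e`) has an edge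
with a new vertex which lies on no other edge of the set and is only one of its end points. -/
def Leafy (a b : ε → O ⊕ N) (T : Finset ε) : Prop :=
  ∀ S : Finset ε, S ⊆ T → S.Nonempty → ∃ e ∈ S, ∃ v : N,
    ((a e = Sum.inr v ∧ b e ≠ Sum.inr v) ∨ (a e ≠ Sum.inr v ∧ b e = Sum.inr v)) ∧
    ∀ e' ∈ S, e' ≠ e → a e' ≠ Sum.inr v ∧ b e' ≠ Sum.inr v

theorem solve (a b : ε → O ⊕ N) : ∀ (n : ℕ) (T : Finset ε), T.card = n → Leafy a b T →
    ∃ W : Set N,
      (∀ (A : Type u) [Group A] (x₀ : O ⊕ N → A) (c : ε → A), ∃ x : O ⊕ N → A,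
        (∀ w, (∀ v ∈ W, w ≠ Sum.inr v) → x w = x₀ w) ∧
          ∀ e ∈ T, (x (b e))⁻¹ * x (a e) = c e) ∧
      (∀ (A : Type u) [Group A] (x x' : O ⊕ N → A),
        (∀ w, (∀ v ∈ W, w ≠ Sum.inr v) → x w = x' w) →
        (∀ e ∈ T, (x (b e))⁻¹ * x (a e) = (x' (b e))⁻¹ * x' (a e)) → x = x') := by
  classical
  intro n
  induction n with
  | zero =>
    intro T hT _
    have hT' : T = ∅ := Finset.card_eq_zero.1 hT
    subst hT'
    refine ⟨∅, fun A _ x₀ c => ⟨x₀, fun _ _ => rfl, by simp⟩, fun A _ x x' h _ => ?_⟩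
    funext w
    exact h w (by simp)
  | succ n ih =>
    intro T hT hL
    obtain ⟨e, he, v, hv, huniq⟩ := hL T (Finset.Subset.refl T)
      (Finset.card_pos.1 (by omega))
    obtain ⟨W, hW1, hW2⟩ := ih (T.erase e) (by rw [Finset.card_erase_of_mem he]; omega)
      (fun S hS hne => hL S (hS.trans (Finset.erase_subset _ _)) hne)
    refine ⟨insert v W, ?_, ?_⟩
    · intro A _ x₀ c
      obtain ⟨x, hx1, hx2⟩ := hW1 A x₀ c
      have key : ∀ y : A, ∀ e' ∈ T.erase e,
          (Function.update x (Sum.inr v) y (b e'))⁻¹ * Function.update x (Sum.inr v) y (a e')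
            = c e' := by
        intro y e' he'
        obtain ⟨h1, h2⟩ := huniq e' (Finset.mem_of_mem_erase he') (Finset.ne_of_mem_erase he')
        rw [Function.update_of_ne h1, Function.update_of_ne h2]
        exact hx2 e' he'
      have key2 : ∀ y : A, ∀ w, (∀ v' ∈ insert v W, w ≠ Sum.inr v') →
          Function.update x (Sum.inr v) y w = x₀ w := by
        intro y w hw
        rw [Function.update_of_ne (hw v (Set.mem_insert _ _))]
        exact hx1 w fun v' hv' => hw v' (Set.mem_insert_of_mem _ hv')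
      rcases hv with ⟨h1, h2⟩ | ⟨h1, h2⟩
      · refine ⟨Function.update x (Sum.inr v) (x (b e) * c e), key2 _, ?_⟩
        intro e' he'
        by_cases hee : e' = e
        · subst hee
          rw [Function.update_of_ne h2, h1, Function.update_self]
          group
        · exact key _ e' (Finset.mem_erase.2 ⟨hee, he'⟩)
      · refine ⟨Function.update x (Sum.inr v) (x (a e) * (c e)⁻¹), key2 _, ?_⟩
        intro e' he'
        by_cases hee : e' = e
        · subst hee
          rw [Function.update_of_ne h1, h2, Function.update_self]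
          group
        · exact key _ e' (Finset.mem_erase.2 ⟨hee, he'⟩)
    · intro A _ x x' h1 h2
      have h3 : Function.update x (Sum.inr v) 1 = Function.update x' (Sum.inr v) 1 := by
        apply hW2 A
        · intro w hw
          by_cases hwv : w = Sum.inr v
          · subst hwv
            simp
          · rw [Function.update_of_ne hwv, Function.update_of_ne hwv]
            apply h1
            intro v' hv'
            rcases Set.mem_insert_iff.1 hv' with rfl | hv'
            · exact hwv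
            · exact hw v' hv'
        · intro e' he'
          obtain ⟨h4, h5⟩ := huniq e' (Finset.mem_of_mem_erase he') (Finset.ne_of_mem_erase he')
          rw [Function.update_of_ne h4, Function.update_of_ne h5, Function.update_of_ne h4,
            Function.update_of_ne h5]
          exact h2 e' (Finset.mem_of_mem_erase he')
      have h4 : ∀ w, w ≠ Sum.inr v → x w = x' w := by
        intro w hw
        have := congrFun h3 w
        rwa [Function.update_of_ne hw, Function.update_of_ne hw] at this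
      have h5 : x (Sum.inr v) = x' (Sum.inr v) := by
        have h6 := h2 e he
        rcases hv with ⟨h7, h8⟩ | ⟨h7, h8⟩
        · rw [h7, h4 _ h8] at h6
          exact mul_left_cancel h6
        · rw [h8, h4 _ h7] at h6
          exact inv_injective (mul_right_cancel h6)
      funext w
      by_cases hw : w = Sum.inr v
      · rw [hw, h5]
      · exact h4 w hw

end Solve

end

end Pool.Agent.TH309.LF
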