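import Pool.Agent.TH309.LF.Torus

/-!
# Mapping tori of homomorphisms defined on a free factor
-/

set_option autoImplicit false

namespace Pool.Agent.TH309.LF

universe u

open Filter

noncomputable section

/-- A group generated by the image of `q : A →* G` and an element `T` which induces an endomorphism
`φ` of `A`, and which maps to the ambient group, satisfies the Horn axioms. -/
theorem core0 {A G : Type u} [Group A] [Group G] (φ : A →* A) (q : A →* G) (T : G)
    (hq : ∀ a, q (φ a) = T⁻¹ * q a * T)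
    (hgen : Subgroup.closure (Set.range q ∪ {T}) = ⊤)
    (Φ : G →* Tor A) (hΦq : ∀ a, Φ (q a) = Gam φ a) (hΦt : Φ T = TT A) (hA : Horn A) :
    Horn G := by
  have hqn : ∀ (n : ℕ) (a : A), q (φ^[n] a) = (T ^ (n : ℤ))⁻¹ * q a * T ^ (n : ℤ) := by
    intro n
    induction n with
    | zero => intro a; simp
    | succ n ih =>
      intro a
      rw [Function.iterate_succ_apply, ih, hq]
      push_cast
      rw [zpow_add, zpow_one]
      group
  have hP : ∀ (m : ℤ) (n : ℕ) (a : A),
      T ^ m * q a * (T ^ m)⁻¹ = T ^ (m + n) * q (φ^[n] a) * (T ^ (m + n))⁻¹ := by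
    intro m n a
    rw [hqn, zpow_add]
    group
  let X : Subgroup G :=
    { carrier := {y | ∃ (m k : ℤ) (a : A), y = T ^ m * q a * (T ^ m)⁻¹ * T ^ k}
      one_mem' := ⟨0, 0, 1, by simp⟩
      mul_mem' := by
        rintro _ _ ⟨m, k, a, rfl⟩ ⟨m', k', a', rfl⟩
        obtain ⟨n, n', hn⟩ : ∃ n n' : ℕ, m + n = m' + k + n' := by
          refine ⟨(m' + k - m).toNat, (m - (m' + k)).toNat, ?_⟩
          omega
        refine ⟨m + n, k + k', φ^[n] a * φ^[n'] a', ?_⟩
        have h1 : T ^ m * q a * (T ^ m)⁻¹ * T ^ k * (T ^ m' * q a' * (T ^ m')⁻¹ * T ^ k') =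
            (T ^ m * q a * (T ^ m)⁻¹) * (T ^ (m' + k) * q a' * (T ^ (m' + k))⁻¹) *
              T ^ (k + k') := by
          rw [add_comm m' k, zpow_add, zpow_add]
          group
        rw [h1, hP m n a, hP (m' + k) n' a', hn, map_mul]
        group
      inv_mem' := by
        rintro _ ⟨m, k, a, rfl⟩
        refine ⟨m - k, -k, a⁻¹, ?_⟩
        rw [sub_eq_add_neg, add_comm m, zpow_add, map_inv]
        group }
  have hXtop : ∀ y, y ∈ X := by
    intro y
    have h1 : (⊤ : Subgroup G) ≤ X := by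
      rw [← hgen, Subgroup.closure_le]
      rintro _ (⟨a, rfl⟩ | h)
      · exact ⟨0, 0, a, by simp⟩
      · rw [Set.mem_singleton_iff.1 h]
        exact ⟨0, 1, 1, by simp⟩
    exact h1 trivial
  have hinj : Function.Injective Φ := by
    rw [injective_iff_map_eq_one]
    intro y hy
    obtain ⟨m, k, a, rfl⟩ := hXtop y
    have h1 : Φ (T ^ m * q a * (T ^ m)⁻¹ * T ^ k) =
        TT A ^ m * Gam φ a * (TT A ^ m)⁻¹ * TT A ^ k := by
      simp only [map_mul, map_inv, map_zpow, hΦt, hΦq]
    rw [h1] at hy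
    have h2 : k = 0 := by
      have h3 := congrArg (SemidirectProduct.rightHom (φ := shA A)) hy
      simp only [map_mul, map_inv, map_zpow, Gam, MonoidHom.comp_apply,
        SemidirectProduct.rightHom_inl, TT, SemidirectProduct.rightHom_inr, map_one, mul_one,
        mul_inv_cancel, one_mul] at h3
      have h4 := congrArg Multiplicative.toAdd h3
      simpa using h4
    subst h2
    have h3 : Gam φ a = 1 := by
      rw [zpow_zero, mul_one] at hy
      have : Gam φ a = (TT A ^ m)⁻¹ * (TT A ^ m * Gam φ a * (TT A ^ m)⁻¹) * TT A ^ m := by group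
      rw [this, hy]
      group
    obtain ⟨n, hn⟩ := Gam_eq_one φ a h3
    rw [hP m n a, hn, map_one]
    group
  exact Horn.of_injective Φ hinj (horn_Tor A hA)

/-- The element `b` of the left factor, viewed in `(B * F(J)) * ℤ`. -/
abbrev pel {B J : Type u} [Group B] (x : Monoid.Coprod B (FreeGroup J)) :
    Monoid.Coprod (Monoid.Coprod B (FreeGroup J)) (Multiplicative ℤ) :=
  Monoid.Coprod.inl x

/-- The stable letter `t` in `(B * F(J)) * ℤ`. -/
abbrev pt (B J : Type u) [Group B] :
    Monoid.Coprod (Monoid.Coprod B (FreeGroup J)) (Multiplicative ℤ) :=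
  Monoid.Coprod.inr (Multiplicative.ofAdd (1 : ℤ))

/-- The relators `t⁻¹ b t φ(b)⁻¹`, `b ∈ B`. -/
def pmtRels {B J : Type u} [Group B] (φ : B →* Monoid.Coprod B (FreeGroup J)) :
    Set (Monoid.Coprod (Monoid.Coprod B (FreeGroup J)) (Multiplicative ℤ)) :=
  {r | ∃ b : B, r = (pt B J)⁻¹ * pel (Monoid.Coprod.inl b) * pt B J * (pel (φ b))⁻¹}

/-- The group `⟨B * F(J), t | t⁻¹ b t = φ(b) (b ∈ B)⟩` of a homomorphism `φ : B → B * F(J)`. -/
abbrev PMT {B J : Type u} [Group B] (φ : B →* Monoid.Coprod B (FreeGroup J)) : Type u :=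
  Monoid.Coprod (Monoid.Coprod B (FreeGroup J)) (Multiplicative ℤ) ⧸
    Subgroup.normalClosure (pmtRels φ)

theorem horn_PMT {B J : Type u} [Group B] (φ : B →* Monoid.Coprod B (FreeGroup J))
    (hB : Horn B) : Horn (PMT φ) := by
  -- the big group `A = B * F(J × ℕ)`
  let A : Type u := FP B (J × ULift.{u} ℕ)
  let emb : Monoid.Coprod B (FreeGroup J) →* A :=
    Monoid.Coprod.lift kap (FreeGroup.lift fun j => bet (j, ⟨0⟩))
  let ψ : A →* A := FP.lift (emb.comp φ) (fun p => bet (p.1, ⟨p.2.down + 1⟩))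
  have hψκ : ∀ b : B, ψ (kap b) = emb (φ b) := fun b => FP.lift_kap _ _ b
  have hψβ : ∀ p, ψ (bet p) = bet (p.1, ⟨p.2.down + 1⟩) := fun p => FP.lift_bet _ _ p
  set R := pmtRels φ with hR
  let mk : Monoid.Coprod (Monoid.Coprod B (FreeGroup J)) (Multiplicative ℤ) →* PMT φ :=
    QuotientGroup.mk' (Subgroup.normalClosure R)
  let P : Monoid.Coprod B (FreeGroup J) →* PMT φ := mk.comp Monoid.Coprod.inl
  let T : PMT φ := mk (pt B J)
  have hrel : ∀ b : B, T⁻¹ * P (Monoid.Coprod.inl b) * T = P (φ b) := by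
    intro b
    have h1 : mk ((pt B J)⁻¹ * pel (Monoid.Coprod.inl b) * pt B J * (pel (φ b))⁻¹) = 1 := by
      rw [← MonoidHom.mem_ker, QuotientGroup.ker_mk']
      exact Subgroup.subset_normalClosure ⟨b, rfl⟩
    rw [map_mul, map_inv, mul_inv_eq_one, map_mul, map_mul, map_inv] at h1
    exact h1
  let q : A →* PMT φ := FP.lift (P.comp Monoid.Coprod.inl)
    (fun p => (T ^ p.2.down)⁻¹ * P (Monoid.Coprod.inr (FreeGroup.of p.1)) * T ^ p.2.down)
  have hqκ : ∀ b : B, q (kap b) = P (Monoid.Coprod.inl b) := fun b => FP.lift_kap _ _ b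
  have hqβ : ∀ p, q (bet p) =
      (T ^ p.2.down)⁻¹ * P (Monoid.Coprod.inr (FreeGroup.of p.1)) * T ^ p.2.down := fun p =>
    FP.lift_bet _ _ p
  have hqemb : ∀ x, q (emb x) = P x := by
    have h1 : q.comp emb = P := by
      apply Monoid.Coprod.hom_ext
      · ext b
        simp only [MonoidHom.comp_apply, emb, Monoid.Coprod.lift_apply_inl]
        exact hqκ b
      · ext j
        simp only [MonoidHom.comp_apply, emb, Monoid.Coprod.lift_apply_inr,
          FreeGroup.lift_apply_of]
        rw [hqβ]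
        simp
    exact fun x => DFunLike.congr_fun h1 x
  have hq : ∀ a, q (ψ a) = T⁻¹ * q a * T := by
    have h1 : q.comp ψ = ((MulAut.conj T⁻¹).toMonoidHom : PMT φ →* PMT φ).comp q := by
      apply FP.hom_ext
      · intro b
        simp only [MonoidHom.comp_apply, MulEquiv.toMonoidHom_eq_coe, MonoidHom.coe_coe,
          MulAut.conj_apply, inv_inv]
        rw [hψκ, hqκ, hrel, hqemb]
      · intro p
        simp only [MonoidHom.comp_apply, MulEquiv.toMonoidHom_eq_coe, MonoidHom.coe_coe,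
          MulAut.conj_apply, inv_inv]
        rw [hψβ, hqβ, hqβ]
        simp only [pow_succ]
        group
    intro a
    have := DFunLike.congr_fun h1 a
    simpa [MulAut.conj_apply] using this
  -- the homomorphism to the ambient group
  let Φ₀ : Monoid.Coprod (Monoid.Coprod B (FreeGroup J)) (Multiplicative ℤ) →* Tor A :=
    Monoid.Coprod.lift ((Gam ψ).comp emb) (zpowersHom (Tor A) (TT A))
  have hΦ₀T : Φ₀ (pt B J) = TT A := by
    simp [Φ₀]
  have hΦ₀P : ∀ x, Φ₀ (pel x) = Gam ψ (emb x) := by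
    intro x
    simp [Φ₀]
  have hker : Subgroup.normalClosure R ≤ Φ₀.ker := by
    apply Subgroup.normalClosure_le_normal
    rintro _ ⟨b, rfl⟩
    change Φ₀ _ = 1
    rw [map_mul, map_mul, map_mul, map_inv, map_inv, hΦ₀T, hΦ₀P, hΦ₀P, mul_inv_eq_one]
    have h1 : emb (Monoid.Coprod.inl b) = kap b := by simp [emb]
    rw [h1, TT_conj, hψκ]
  let Φ : PMT φ →* Tor A := QuotientGroup.lift _ Φ₀ hker
  have hΦP : ∀ x, Φ (P x) = Gam ψ (emb x) := hΦ₀P
  have hΦT : Φ T = TT A := hΦ₀T
  have hψn : ∀ (n : ℕ) (j : J), ψ^[n] (bet (j, ⟨0⟩)) = bet (j, ⟨n⟩) := by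
    intro n j
    induction n with
    | zero => rfl
    | succ n ih => rw [Function.iterate_succ_apply', ih, hψβ]
  have hTn : ∀ (n : ℕ) (a : A), (TT A ^ n)⁻¹ * Gam ψ a * TT A ^ n = Gam ψ (ψ^[n] a) := by
    intro n
    induction n with
    | zero => intro a; simp
    | succ n ih =>
      intro a
      rw [Function.iterate_succ_apply, ← ih (ψ a), ← TT_conj, pow_succ']
      group
  have hΦq : ∀ a, Φ (q a) = Gam ψ a := by
    have h1 : Φ.comp q = Gam ψ := by
      apply FP.hom_ext
      · intro b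
        simp only [MonoidHom.comp_apply]
        rw [hqκ, hΦP]
        simp [emb]
      · rintro ⟨j, ⟨n⟩⟩
        simp only [MonoidHom.comp_apply]
        rw [hqβ]
        simp only [map_mul, map_inv, map_pow, hΦT, hΦP]
        have h2 : emb (Monoid.Coprod.inr (FreeGroup.of j)) = bet (j, ⟨0⟩) := by simp [emb]
        rw [h2, hTn, hψn]
    exact fun a => DFunLike.congr_fun h1 a
  refine core0 ψ q T hq ?_ Φ hΦq hΦT (horn_FP hB)
  -- generation
  rw [Subgroup.eq_top_iff']
  intro y
  obtain ⟨z, rfl⟩ := QuotientGroup.mk'_surjective (Subgroup.normalClosure R) y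
  change mk z ∈ Subgroup.closure (Set.range q ∪ {T})
  induction z using Monoid.Coprod.induction_on with
  | inl x =>
    apply Subgroup.subset_closure
    left
    exact ⟨emb x, hqemb x⟩
  | inr n =>
    have h1 : mk (Monoid.Coprod.inr n) = T ^ n.toAdd := by
      have h2 : n = (Multiplicative.ofAdd (1 : ℤ)) ^ n.toAdd := by
        rw [← ofAdd_zsmul]; simp
      conv_lhs => rw [h2]
      rw [map_zpow, map_zpow]
    rw [h1]
    have hT : T ∈ Subgroup.closure (Set.range q ∪ {T}) :=
      Subgroup.subset_closure (Set.mem_union_right _ (Set.mem_singleton T))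
    exact Subgroup.zpow_mem _ hT _
  | mul x y hx hy =>
    rw [map_mul]
    exact Subgroup.mul_mem _ hx hy

end

end Pool.Agent.TH309.LF
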