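import Pool.Agent.TH309.LF.FreeProd
import Pool.Agent.TH309.LF.Base
import Pool.Agent.TH309.LF.Partial

/-!
# Contracting relations over a locally indicable group
-/

set_option autoImplicit false

namespace Pool.Agent.TH309.LF

universe u

noncomputable section

open Monoid

/-! ### The free product `K * (*_{i : I} B)` -/

/-- the factors: one copy of `K` and one copy of `B` for each `i : I` -/
def Fam (K B I : Type u) : Option I → Type u
  | none => K
  | some _ => B

instance (K B I : Type u) [Group K] [Group B] : ∀ i, Group (Fam K B I i)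
  | none => inferInstanceAs (Group K)
  | some _ => inferInstanceAs (Group B)

/-- `K * (*_{i : I} B)` -/
abbrev AA (K B I : Type u) [Group K] [Group B] : Type u := CoprodI (Fam K B I)

section AA

variable {K B I : Type u} [Group K] [Group B]

/-- the factor `K` -/
def kA : K →* AA K B I := (CoprodI.of : Fam K B I none →* AA K B I)

/-- the factor `B` of index `i` -/
def bA (i : I) : B →* AA K B I := (CoprodI.of : Fam K B I (some i) →* AA K B I)

/-- homomorphisms from the free product -/
def AA.lift {Q : Type*} [Group Q] (f : K →* Q) (y : I → B →* Q) : AA K B I →* Q :=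
  CoprodI.lift fun i => match i with
    | none => f
    | some i => y i

@[simp] theorem AA.lift_kA {Q : Type*} [Group Q] (f : K →* Q) (y : I → B →* Q) (k : K) :
    AA.lift f y (kA k : AA K B I) = f k :=
  CoprodI.lift_of _ _

@[simp] theorem AA.lift_bA {Q : Type*} [Group Q] (f : K →* Q) (y : I → B →* Q) (i : I) (b : B) :
    AA.lift f y (bA i b : AA K B I) = y i b :=
  CoprodI.lift_of _ _

theorem AA.hom_ext {Q : Type*} [Group Q] {f f' : AA K B I →* Q}
    (h1 : ∀ k, f (kA k) = f' (kA k)) (h2 : ∀ i b, f (bA i b) = f' (bA i b)) : f = f' := by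
  apply CoprodI.ext_hom
  rintro (_ | i)
  · exact MonoidHom.ext h1
  · exact MonoidHom.ext (h2 i)

theorem horn_AA (hK : Horn K) (hB : Horn B) : Horn (AA K B I) := by
  apply horn_coprodI
  rintro (_ | i)
  · exact hK
  · exact hB

theorem kA_injective : Function.Injective (kA : K →* AA K B I) := by
  intro x y h
  have h1 := congrArg (AA.lift (MonoidHom.id K) (fun _ : I => (1 : B →* K))) h
  simpa using h1

end AA

/-! ### The theorem -/

section Contract

variable {P B : Type u} [Group P] [Group B] (π : P →* Multiplicative ℤ) (t : P)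

/-- The subgroup of `P * B` generated by `ker π` and the conjugates `tʲ B t⁻ʲ`, `j ≥ 1`. -/
def above (π : P →* Multiplicative ℤ) (t : P) (B : Type u) [Group B] :
    Subgroup (Monoid.Coprod P B) :=
  Subgroup.closure
    ({x | ∃ k : P, π k = 1 ∧ x = Monoid.Coprod.inl k} ∪
      {x | ∃ (b : B) (j : ℕ), 1 ≤ j ∧
        x = (Monoid.Coprod.inl t) ^ j * Monoid.Coprod.inr b * ((Monoid.Coprod.inl t) ^ j)⁻¹})

/-- The relators `b⁻¹ φ(b)`. -/
def contrRels (φ : B →* Monoid.Coprod P B) : Set (Monoid.Coprod P B) :=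
  {r | ∃ b : B, r = (Monoid.Coprod.inr b)⁻¹ * φ b}

/-- `K * (*_{j ≥ 1} B_j) → P * B` -/
def del : AA π.ker B (ULift.{u} ℕ) →* Monoid.Coprod P B :=
  AA.lift ((Monoid.Coprod.inl : P →* Monoid.Coprod P B).comp π.ker.subtype)
    (fun n => ((MulAut.conj ((Monoid.Coprod.inl t : Monoid.Coprod P B) ^ (n.down + 1))).toMonoidHom :
      Monoid.Coprod P B →* Monoid.Coprod P B).comp Monoid.Coprod.inr)

theorem del_kA (k : π.ker) : del (B := B) π t (kA k) = Monoid.Coprod.inl (k : P) :=
  AA.lift_kA _ _ k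

theorem del_bA (n : ULift.{u} ℕ) (b : B) : del π t (bA n b) =
    (Monoid.Coprod.inl t) ^ (n.down + 1) * Monoid.Coprod.inr b *
      ((Monoid.Coprod.inl t) ^ (n.down + 1))⁻¹ :=
  AA.lift_bA _ _ n b

theorem above_le : above π t B ≤ (del (B := B) π t).range := by
  unfold above
  rw [Subgroup.closure_le]
  rintro x (⟨k, hk, rfl⟩ | ⟨b, j, hj, rfl⟩)
  · exact ⟨kA ⟨k, hk⟩, del_kA π t _⟩
  · obtain ⟨n, rfl⟩ : ∃ n, j = n + 1 := ⟨j - 1, by omega⟩
    exact ⟨bA ⟨n⟩ b, del_bA π t _ _⟩

variable {A : Type u} [Group A]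

theorem Gam_shift (ψ : A →* A) (n : ℕ) (a : A) :
    (TT A ^ n)⁻¹ * Gam ψ a * TT A ^ n = Gam ψ (ψ^[n] a) := by
  induction n generalizing a with
  | zero => simp
  | succ n ih =>
    rw [Function.iterate_succ_apply, ← ih (ψ a), ← TT_conj, pow_succ']
    group

/-- conjugation by `t⁻¹` on the kernel -/
def cj : π.ker →* π.ker := (MulAut.conjNormal t⁻¹ : MulAut π.ker).toMonoidHom

theorem del_injective (ht : π t = Multiplicative.ofAdd 1) :
    Function.Injective (del (B := B) π t) := by
  classical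
  let AZ : Type u := AA π.ker B (ULift.{u} ℤ)
  let ψ : AZ →* AZ := AA.lift (kA.comp (cj π t)) (fun n => bA ⟨n.down - 1⟩)
  have hψk : ∀ k : π.ker, ψ (kA k) = kA (MulAut.conjNormal t⁻¹ k) := fun k => AA.lift_kA _ _ k
  have hψb : ∀ n (b : B), ψ (bA n b) = bA ⟨n.down - 1⟩ b := fun n b => AA.lift_bA _ _ n b
  -- `ψ` is injective
  have hψinj : Function.Injective ψ := by
    let ψ' : AZ →* AZ := AA.lift (kA.comp ((MulAut.conjNormal t : MulAut π.ker).toMonoidHom))
      (fun n => bA ⟨n.down + 1⟩)
    have h1 : ψ'.comp ψ = MonoidHom.id AZ := by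
      apply AA.hom_ext
      · intro k
        rw [MonoidHom.comp_apply, hψk]
        refine (AA.lift_kA _ _ _).trans ?_
        change kA (MulAut.conjNormal t (MulAut.conjNormal t⁻¹ k)) = kA k
        rw [← MulAut.mul_apply, ← map_mul, mul_inv_cancel, map_one, MulAut.one_apply]
      · intro n b
        rw [MonoidHom.comp_apply, hψb]
        refine (AA.lift_bA _ _ _ _).trans ?_
        have h2 : (⟨n.down - 1 + 1⟩ : ULift.{u} ℤ) = n := ULift.ext _ _ (by simp)
        change bA ⟨n.down - 1 + 1⟩ b = bA n b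
        rw [h2]
    intro x y hxy
    have h2 : ∀ x, ψ' (ψ x) = x := fun x => DFunLike.congr_fun h1 x
    rw [← h2 x, ← h2 y, hxy]
  have hGinj : Function.Injective (Gam ψ) := by
    rw [injective_iff_map_eq_one]
    intro a ha
    obtain ⟨n, hn⟩ := Gam_eq_one ψ a ha
    have h1 : Function.Injective (ψ^[n]) := hψinj.iterate n
    apply h1
    rw [hn, iterate_map_one]
  -- the inclusion
  let inc : AA π.ker B (ULift.{u} ℕ) →* AZ := AA.lift kA (fun n => bA ⟨n.down + 1⟩)
  have hinck : ∀ k : π.ker, inc (kA k) = kA k := fun k => AA.lift_kA _ _ k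
  have hincb : ∀ n (b : B), inc (bA n b) = bA ⟨n.down + 1⟩ b := fun n b => AA.lift_bA _ _ n b
  have hinc : Function.Injective inc := by
    let ret : AZ →* AA π.ker B (ULift.{u} ℕ) := AA.lift kA (fun n => bA ⟨n.down.toNat - 1⟩)
    have h1 : ret.comp inc = MonoidHom.id _ := by
      apply AA.hom_ext
      · intro k
        rw [MonoidHom.comp_apply, hinck]
        exact AA.lift_kA _ _ _
      · rintro ⟨n⟩ b
        rw [MonoidHom.comp_apply, hincb]
        refine (AA.lift_bA _ _ _ _).trans ?_
        have h2 : ((n : ℤ) + 1).toNat - 1 = n := by omega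
        simp only [MonoidHom.id_apply, h2]
    intro x y hxy
    have h2 : ∀ x, ret (inc x) = x := fun x => DFunLike.congr_fun h1 x
    rw [← h2 x, ← h2 y, hxy]
  let Φ : Monoid.Coprod P B →* Tor AZ :=
    Monoid.Coprod.lift (baseHom π t ht ψ kA hψk) ((Gam ψ).comp (bA ⟨0⟩))
  have hΦl : ∀ p, Φ (Monoid.Coprod.inl p) = baseHom π t ht ψ kA hψk p := fun p => by simp [Φ]
  have hΦr : ∀ b, Φ (Monoid.Coprod.inr b) = Gam ψ (bA ⟨0⟩ b) := fun b => by simp [Φ]
  have hψn : ∀ (n : ℕ) (m : ℤ) (b : B), ψ^[n] (bA ⟨m + n⟩ b) = bA ⟨m⟩ b := by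
    intro n
    induction n with
    | zero => intro m b; simp
    | succ n ih =>
      intro m b
      rw [Function.iterate_succ_apply, hψb]
      have h1 : m + ((n + 1 : ℕ) : ℤ) - 1 = m + n := by push_cast; ring
      simp only [h1]
      exact ih m b
  have hcomp : Φ.comp (del π t) = (Gam ψ).comp inc := by
    apply AA.hom_ext
    · intro k
      rw [MonoidHom.comp_apply, del_kA, hΦl, baseHom_ker, MonoidHom.comp_apply, hinck]
    · rintro ⟨n⟩ b
      rw [MonoidHom.comp_apply, del_bA, map_mul, map_mul, map_inv, map_pow, hΦl, hΦr, baseHom_t,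
        MonoidHom.comp_apply, hincb]
      have h1 := Gam_shift ψ (n + 1) (bA ⟨((n : ℤ) + 1)⟩ b)
      have h2 : ψ^[n + 1] (bA ⟨((n : ℤ) + 1)⟩ b) = bA ⟨0⟩ b := by
        have := hψn (n + 1) 0 b
        simpa using this
      rw [h2] at h1
      rw [← h1]
      group
  have h3 : Function.Injective ((Gam ψ).comp inc) := hGinj.comp hinc
  rw [← hcomp] at h3
  exact Function.Injective.of_comp h3

/-- The quotient of `P * B` by the relations `b = φ(b)`, `b : B`, where `φ : B → P * B` has its
values in the subgroup generated by `ker π` and `tʲ B t⁻ʲ`, `j ≥ 1`. -/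
theorem contract (ht : π t = Multiplicative.ofAdd 1) (φ : B →* Monoid.Coprod P B)
    (hφ : ∀ b, φ b ∈ above π t B) (hP : Horn P) (hB : Horn B) :
    Horn (Monoid.Coprod P B ⧸ Subgroup.normalClosure (contrRels φ)) ∧
      Function.Injective ((QuotientGroup.mk' (Subgroup.normalClosure (contrRels φ))).comp
        (Monoid.Coprod.inl : P →* Monoid.Coprod P B)) := by
  classical
  let A : Type u := AA π.ker B (ULift.{u} ℕ)
  -- lift `φ` to `A`
  obtain ⟨φ', hφ'⟩ : ∃ φ' : B →* A, ∀ b, del π t (φ' b) = φ b := by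
    let e := MonoidHom.ofInjective (del_injective (B := B) π t ht)
    refine ⟨e.symm.toMonoidHom.comp
      (φ.codRestrict (del (B := B) π t).range fun b => above_le π t (hφ b)), fun b => ?_⟩
    have h1 := congrArg Subtype.val (e.apply_symm_apply
      (φ.codRestrict (del (B := B) π t).range (fun b => above_le π t (hφ b)) b))
    exact h1
  let ψ : A →* A := AA.lift (kA.comp (cj π t))
    (fun n => match n.down with
      | 0 => φ'
      | n + 1 => bA ⟨n⟩)
  have hψk : ∀ k : π.ker, ψ (kA k) = kA (MulAut.conjNormal t⁻¹ k) := fun k => AA.lift_kA _ _ k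
  have hψ0 : ∀ b : B, ψ (bA ⟨0⟩ b) = φ' b := fun b => AA.lift_bA _ _ (⟨0⟩ : ULift.{u} ℕ) b
  have hψs : ∀ (n : ℕ) (b : B), ψ (bA ⟨n + 1⟩ b) = bA ⟨n⟩ b := fun n b =>
    AA.lift_bA _ _ (⟨n + 1⟩ : ULift.{u} ℕ) b
  set R := contrRels φ with hR
  let mk : Monoid.Coprod P B →* Monoid.Coprod P B ⧸ Subgroup.normalClosure R :=
    QuotientGroup.mk' (Subgroup.normalClosure R)
  have hrel : ∀ b : B, mk (Monoid.Coprod.inr b) = mk (φ b) := by
    intro b
    have h1 : mk ((Monoid.Coprod.inr b)⁻¹ * φ b) = 1 := by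
      rw [← MonoidHom.mem_ker, QuotientGroup.ker_mk']
      exact Subgroup.subset_normalClosure ⟨b, rfl⟩
    rw [map_mul, map_inv, inv_mul_eq_one] at h1
    exact h1
  let q : A →* Monoid.Coprod P B ⧸ Subgroup.normalClosure R := mk.comp (del π t)
  let T : Monoid.Coprod P B ⧸ Subgroup.normalClosure R := mk (Monoid.Coprod.inl t)
  have hqk : ∀ k : π.ker, q (kA k) = mk (Monoid.Coprod.inl (k : P)) := fun k => by
    change mk (del π t (kA k)) = _
    rw [del_kA]
  have hqb : ∀ (n : ℕ) (b : B), q (bA ⟨n⟩ b) =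
      T ^ (n + 1) * mk (Monoid.Coprod.inr b) * (T ^ (n + 1))⁻¹ := fun n b => by
    change mk (del π t (bA ⟨n⟩ b)) = _
    rw [del_bA, map_mul, map_mul, map_inv, map_pow]
  have hqφ' : ∀ b, q (φ' b) = mk (Monoid.Coprod.inr b) := fun b => by
    change mk (del π t (φ' b)) = _
    rw [hφ', hrel]
  have hq : ∀ a, q (ψ a) = T⁻¹ * q a * T := by
    have h1 : q.comp ψ = ((MulAut.conj T⁻¹).toMonoidHom :
        (Monoid.Coprod P B ⧸ Subgroup.normalClosure R) →* _).comp q := by
      apply AA.hom_ext
      · intro k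
        simp only [MonoidHom.comp_apply, MulEquiv.toMonoidHom_eq_coe, MonoidHom.coe_coe,
          MulAut.conj_apply, inv_inv]
        rw [hψk, hqk, hqk, MulAut.conjNormal_apply]
        simp [T]
      · rintro ⟨_ | n⟩ b
        · simp only [MonoidHom.comp_apply, MulEquiv.toMonoidHom_eq_coe, MonoidHom.coe_coe,
            MulAut.conj_apply, inv_inv]
          rw [hψ0, hqb, hqφ']
          group
        · simp only [MonoidHom.comp_apply, MulEquiv.toMonoidHom_eq_coe, MonoidHom.coe_coe,
            MulAut.conj_apply, inv_inv]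
          rw [hψs, hqb, hqb]
          rw [pow_succ' T (n + 1)]
          group
    intro a
    have := DFunLike.congr_fun h1 a
    simpa [MulAut.conj_apply] using this
  -- the homomorphism to the ambient group
  let Φ₀ : Monoid.Coprod P B →* Tor A :=
    Monoid.Coprod.lift (baseHom π t ht ψ kA hψk) ((Gam ψ).comp φ')
  have hΦl : ∀ p, Φ₀ (Monoid.Coprod.inl p) = baseHom π t ht ψ kA hψk p := fun p => by simp [Φ₀]
  have hΦr : ∀ b, Φ₀ (Monoid.Coprod.inr b) = Gam ψ (φ' b) := fun b => by simp [Φ₀]
  have hψn : ∀ (n : ℕ) (b : B), ψ^[n] (bA ⟨n⟩ b) = bA ⟨0⟩ b := by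
    intro n
    induction n with
    | zero => intro b; rfl
    | succ n ih => intro b; rw [Function.iterate_succ_apply, hψs, ih]
  have hcomp : ∀ a, Φ₀ (del π t a) = Gam ψ a := by
    have h1 : Φ₀.comp (del π t) = Gam ψ := by
      apply AA.hom_ext
      · intro k
        rw [MonoidHom.comp_apply, del_kA, hΦl, baseHom_ker]
      · rintro ⟨n⟩ b
        rw [MonoidHom.comp_apply, del_bA, map_mul, map_mul, map_inv, map_pow, hΦl, hΦr, baseHom_t,
          ← hψ0, ← TT_conj]
        have h1 := Gam_shift ψ n (bA ⟨n⟩ b)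
        rw [hψn] at h1
        rw [← h1, pow_succ]
        group
    exact fun a => DFunLike.congr_fun h1 a
  have hker : Subgroup.normalClosure R ≤ Φ₀.ker := by
    apply Subgroup.normalClosure_le_normal
    rintro _ ⟨b, rfl⟩
    change Φ₀ _ = 1
    rw [map_mul, map_inv, inv_mul_eq_one, hΦr, ← hφ', hcomp]
  let Φ : Monoid.Coprod P B ⧸ Subgroup.normalClosure R →* Tor A := QuotientGroup.lift _ Φ₀ hker
  have hΦq : ∀ a, Φ (q a) = Gam ψ a := hcomp
  have hΦT : Φ T = TT A := (hΦl t).trans (baseHom_t π t ht ψ kA hψk)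
  have hΦp : ∀ p, Φ (mk (Monoid.Coprod.inl p)) = baseHom π t ht ψ kA hψk p := hΦl
  constructor
  · refine core0 ψ q T hq ?_ Φ hΦq hΦT (horn_AA (hP.subgroup _) hB)
    rw [Subgroup.eq_top_iff']
    intro y
    obtain ⟨z, rfl⟩ := QuotientGroup.mk'_surjective (Subgroup.normalClosure R) y
    change mk z ∈ Subgroup.closure (Set.range q ∪ {T})
    have hT : T ∈ Subgroup.closure (Set.range q ∪ {T}) :=
      Subgroup.subset_closure (Set.mem_union_right _ (Set.mem_singleton T))
    induction z using Monoid.Coprod.induction_on with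
    | inl p =>
      have h1 : p = t ^ (zee π p) * (kk π t ht p : P) := by
        simp [kk]
      rw [h1, map_mul, map_mul, map_zpow, map_zpow, ← hqk]
      exact Subgroup.mul_mem _ (Subgroup.zpow_mem _ hT _)
        (Subgroup.subset_closure (Or.inl ⟨_, rfl⟩))
    | inr b => exact Subgroup.subset_closure (Or.inl ⟨φ' b, hqφ' b⟩)
    | mul x y hx hy =>
      rw [map_mul]
      exact Subgroup.mul_mem _ hx hy
  · have hψkn : ∀ (n : ℕ) (k : π.ker), ψ^[n] (kA k) = 1 → k = 1 := by
      intro n
      induction n with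
      | zero => intro k hk; exact kA_injective (by rw [map_one]; exact hk)
      | succ n ih =>
        intro k hk
        rw [Function.iterate_succ_apply, hψk] at hk
        have h1 := ih _ hk
        exact (MulAut.conjNormal t⁻¹).injective (by rw [h1, map_one])
    rw [injective_iff_map_eq_one]
    intro p hp
    have h1 : Φ (mk (Monoid.Coprod.inl p)) = 1 := by
      have : mk (Monoid.Coprod.inl p) = 1 := hp
      rw [this, map_one]
    have h2 : baseHom π t ht ψ kA hψk p = TT A ^ (zee π p) * Gam ψ (kA (kk π t ht p)) := rfl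
    rw [hΦp, h2] at h1
    have h3 : zee π p = 0 := by
      have h4 := congrArg (SemidirectProduct.rightHom (φ := shA A)) h1
      simp only [map_mul, map_zpow, Gam, MonoidHom.comp_apply,
        SemidirectProduct.rightHom_inl, TT, SemidirectProduct.rightHom_inr, map_one, mul_one] at h4
      have h5 := congrArg Multiplicative.toAdd h4
      simpa using h5
    rw [h3, zpow_zero, one_mul] at h1
    obtain ⟨n, hn⟩ := Gam_eq_one ψ _ h1
    have h4 := hψkn n _ hn
    have h5 := congrArg Subtype.val h4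
    simpa [kk, h3] using h5

end Contract

end

end Pool.Agent.TH309.LF
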