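import Mathlib

/-!
# Fox calculus and the second boundary map of a presentation
-/

set_option autoImplicit false

namespace Pool.Agent.TH309.LF

universe u v w

noncomputable section

open MonoidAlgebra

/-- left multiplication on functions `X → ℤG` -/
def foxAct (X : Type u) (G : Type v) [Group G] :
    G →* MulAut (Multiplicative (X → MonoidAlgebra ℤ G)) where
  toFun g :=
    { toFun := fun f => Multiplicative.ofAdd fun x => single g (1 : ℤ) * f.toAdd x
      invFun := fun f => Multiplicative.ofAdd fun x => single g⁻¹ (1 : ℤ) * f.toAdd x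
      left_inv := fun f => by
        apply Multiplicative.toAdd.injective
        funext x
        simp only [toAdd_ofAdd]
        rw [← mul_assoc, single_mul_single, inv_mul_cancel, one_mul, ← one_def, one_mul]
      right_inv := fun f => by
        apply Multiplicative.toAdd.injective
        funext x
        simp only [toAdd_ofAdd]
        rw [← mul_assoc, single_mul_single, mul_inv_cancel, one_mul, ← one_def, one_mul]
      map_mul' := fun f f' => by
        apply Multiplicative.toAdd.injective
        funext x
        simp [mul_add] }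
  map_one' := by
    refine MulEquiv.ext fun f => ?_
    apply Multiplicative.toAdd.injective
    funext x
    change single (1 : G) (1 : ℤ) * f.toAdd x = f.toAdd x
    rw [← one_def, one_mul]
  map_mul' g g' := by
    refine MulEquiv.ext fun f => ?_
    apply Multiplicative.toAdd.injective
    funext x
    change single (g * g') (1 : ℤ) * f.toAdd x = single g 1 * (single g' 1 * f.toAdd x)
    rw [← mul_assoc, single_mul_single, one_mul]

open Classical in
/-- the homomorphism which defines the Fox derivatives -/
def foxHom {X : Type u} {G : Type v} [Group G] (ρ : FreeGroup X →* G) :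
    FreeGroup X →* Multiplicative (X → MonoidAlgebra ℤ G) ⋊[foxAct X G] G :=
  FreeGroup.lift fun x =>
    ⟨Multiplicative.ofAdd fun y => if y = x then 1 else 0, ρ (FreeGroup.of x)⟩

/-- The Fox derivative `∂w/∂x`, with values in `ℤG`. -/
def fox {X : Type u} {G : Type v} [Group G] (ρ : FreeGroup X →* G) (w : FreeGroup X) (x : X) :
    MonoidAlgebra ℤ G :=
  Multiplicative.toAdd (foxHom ρ w).left x

theorem foxHom_right {X : Type u} {G : Type v} [Group G] (ρ : FreeGroup X →* G)
    (w : FreeGroup X) : (foxHom ρ w).right = ρ w := by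
  have : SemidirectProduct.rightHom.comp (foxHom ρ) = ρ := by
    ext x
    simp [foxHom]
  exact DFunLike.congr_fun this w

open Classical in
theorem fox_of {X : Type u} {G : Type v} [Group G] (ρ : FreeGroup X →* G) (x y : X) :
    fox ρ (FreeGroup.of x) y = if y = x then 1 else 0 := by
  simp [fox, foxHom]

theorem fox_mul {X : Type u} {G : Type v} [Group G] (ρ : FreeGroup X →* G)
    (w w' : FreeGroup X) (x : X) :
    fox ρ (w * w') x = fox ρ w x + single (ρ w) 1 * fox ρ w' x := by
  unfold fox
  rw [map_mul, SemidirectProduct.mul_left, foxHom_right]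
  rfl

theorem fox_one {X : Type u} {G : Type v} [Group G] (ρ : FreeGroup X →* G) (x : X) :
    fox ρ 1 x = 0 := by
  simp [fox]

theorem fox_inv {X : Type u} {G : Type v} [Group G] (ρ : FreeGroup X →* G)
    (w : FreeGroup X) (x : X) :
    fox ρ w⁻¹ x = - (single (ρ w)⁻¹ 1 * fox ρ w x) := by
  have h1 := fox_mul ρ w⁻¹ w x
  rw [inv_mul_cancel, fox_one, map_inv] at h1
  exact eq_neg_of_add_eq_zero_left h1.symm

/-- The group presented by the relators `rel r`, `r : R`. -/
abbrev PGrp {X : Type u} {R : Type v} (rel : R → FreeGroup X) : Type u :=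
  PresentedGroup (Set.range rel)

/-- The boundary map `∂₂ : ⊕_R ℤG → ∏_X ℤG` of the universal covering of the presentation complex:
`∂₂(c)_x = ∑_r c_r ∂(rel r)/∂x`. -/
def bdry {X : Type u} {R : Type v} (rel : R → FreeGroup X) (c : R →₀ MonoidAlgebra ℤ (PGrp rel)) :
    X → MonoidAlgebra ℤ (PGrp rel) :=
  fun x => c.sum fun r a => a * fox (PresentedGroup.mk (Set.range rel)) (rel r) x

/-- The presentation is aspherical: `ker ∂₂ = 0` (this kernel is `π₂` of the presentation
complex). -/
def Aspherical {X : Type u} {R : Type v} (rel : R → FreeGroup X) : Prop :=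
  ∀ c : R →₀ MonoidAlgebra ℤ (PGrp rel), bdry rel c = 0 → c = 0

/-! ### Degrees -/

section Deg

variable {G : Type v} [Group G] (χ : G →* Multiplicative ℤ)

/-- all group elements in the support have degree at least `n` -/
def DegGE (a : MonoidAlgebra ℤ G) (n : ℤ) : Prop := ∀ g, a.coeff g ≠ 0 → n ≤ (χ g).toAdd

theorem degGE_zero (n : ℤ) : DegGE χ 0 n := by
  intro g hg
  simp at hg

theorem DegGE.add {a b : MonoidAlgebra ℤ G} {n : ℤ} (ha : DegGE χ a n) (hb : DegGE χ b n) :
    DegGE χ (a + b) n := by
  intro g hg
  by_cases h1 : a.coeff g = 0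
  · apply hb
    intro h2
    apply hg
    rw [coeff_add, Finsupp.add_apply, h1, h2, add_zero]
  · exact ha g h1

theorem DegGE.neg {a : MonoidAlgebra ℤ G} {n : ℤ} (ha : DegGE χ a n) : DegGE χ (-a) n := by
  intro g hg
  apply ha
  intro h
  apply hg
  rw [coeff_neg, Finsupp.neg_apply, h, neg_zero]

theorem DegGE.mul {a b : MonoidAlgebra ℤ G} {m n : ℤ} (ha : DegGE χ a m) (hb : DegGE χ b n) :
    DegGE χ (a * b) (m + n) := by
  classical
  intro g hg
  have h1 := support_coeff_mul_subset a b (Finsupp.mem_support_iff.2 hg)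
  obtain ⟨x, hx, y, hy, rfl⟩ := Finset.mem_mul.1 h1
  have h2 := ha x (Finsupp.mem_support_iff.1 hx)
  have h3 := hb y (Finsupp.mem_support_iff.1 hy)
  rw [map_mul, toAdd_mul]
  omega

theorem degGE_single (g : G) (z : ℤ) : DegGE χ (single g z) (χ g).toAdd := by
  classical
  intro h hh
  rw [coeff_single, Finsupp.single_apply] at hh
  split_ifs at hh with h1
  · rw [h1]
  · exact absurd rfl hh

theorem DegGE.mono {a : MonoidAlgebra ℤ G} {m n : ℤ} (ha : DegGE χ a n) (h : m ≤ n) :
    DegGE χ a m := fun g hg => h.trans (ha g hg)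

theorem degGE_sum {ι : Type*} (s : Finset ι) (f : ι → MonoidAlgebra ℤ G) (n : ℤ)
    (h : ∀ i ∈ s, DegGE χ (f i) n) : DegGE χ (∑ i ∈ s, f i) n := by
  classical
  induction s using Finset.induction_on with
  | empty => simpa using degGE_zero χ n
  | insert i s hi ih =>
    rw [Finset.sum_insert hi]
    exact (h i (Finset.mem_insert_self i s)).add χ
      (ih fun j hj => h j (Finset.mem_insert_of_mem hj))

/-- The lowest degree argument. -/
theorem lowest {E : Type w} (b : E →₀ MonoidAlgebra ℤ G) (U : E → E → MonoidAlgebra ℤ G)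
    (hU : ∀ e e', DegGE χ (U e e') 1)
    (h : ∀ e', b e' = b.sum fun e a => a * U e e') : b = 0 := by
  classical
  by_contra hb
  -- a pair of minimal degree
  let S : Finset (Σ _ : E, G) := b.support.sigma fun e => (b e).coeff.support
  have hS : S.Nonempty := by
    obtain ⟨e, he⟩ := Finsupp.support_nonempty_iff.2 hb
    have h1 : (b e).coeff ≠ 0 := by
      intro h2
      apply Finsupp.mem_support_iff.1 he
      exact coeff_injective h2
    obtain ⟨g, hg⟩ := Finsupp.support_nonempty_iff.2 h1
    exact ⟨⟨e, g⟩, Finset.mem_sigma.2 ⟨he, hg⟩⟩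
  obtain ⟨⟨e₀, g₀⟩, hmem, hmin⟩ := Finset.exists_min_image S (fun p => (χ p.2).toAdd) hS
  have hdeg : ∀ e, DegGE χ (b e) (χ g₀).toAdd := by
    intro e g hg
    have he : e ∈ b.support := by
      rw [Finsupp.mem_support_iff]
      intro h1
      rw [h1] at hg
      simp at hg
    exact hmin ⟨e, g⟩ (Finset.mem_sigma.2 ⟨he, Finsupp.mem_support_iff.2 hg⟩)
  have h1 : DegGE χ (b e₀) ((χ g₀).toAdd + 1) := by
    rw [h e₀]
    exact degGE_sum χ _ _ _ fun e _ => (hdeg e).mul χ (hU e e₀)
  have h2 := h1 g₀ (Finsupp.mem_support_iff.1 (Finset.mem_sigma.1 hmem).2)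
  omega

end Deg

/-! ### Cosets -/

section Coset

variable {P : Type u} {G : Type v} [Group P] [Group G] (j : P →* G) (hj : Function.Injective j)

include hj in
theorem cos_inj (g : G) : Function.Injective (fun p => g * j p) :=
  fun _ _ h => hj (mul_left_cancel h)

/-- the component of `a : ℤG` in the coset `g P` -/
def cos (g : G) (a : MonoidAlgebra ℤ G) : MonoidAlgebra ℤ P :=
  comapDomain (fun p => g * j p) (cos_inj j hj g) a

theorem coeff_cos (g : G) (a : MonoidAlgebra ℤ G) (p : P) :
    (cos j hj g a).coeff p = a.coeff (g * j p) := by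
  rw [cos, coeff_comapDomain]
  rfl

theorem cos_add (g : G) (a b : MonoidAlgebra ℤ G) :
    cos j hj g (a + b) = cos j hj g a + cos j hj g b :=
  comapDomain_add _ _ _ _

theorem cos_zero (g : G) : cos j hj g (0 : MonoidAlgebra ℤ G) = 0 := comapDomain_zero _ _

theorem cos_mul (g : G) (a : MonoidAlgebra ℤ G) (b : MonoidAlgebra ℤ P) :
    cos j hj g (a * mapDomain j b) = cos j hj g a * b := by
  induction b using MonoidAlgebra.induction_linear with
  | zero => rw [mapDomain_zero, mul_zero, mul_zero, cos_zero]
  | add x y hx hy => rw [mapDomain_add, mul_add, mul_add, cos_add, hx, hy]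
  | single p z =>
    rw [mapDomain_single]
    apply coeff_injective
    ext q
    rw [coeff_cos, coeff_mul_single_apply, coeff_mul_single_apply, coeff_cos, map_mul j,
      map_inv j, mul_assoc g]

theorem cos_sum {ι : Type*} (g : G) (s : Finset ι) (f : ι → MonoidAlgebra ℤ G) :
    cos j hj g (∑ i ∈ s, f i) = ∑ i ∈ s, cos j hj g (f i) := by
  classical
  induction s using Finset.induction_on with
  | empty => simp [cos_zero]
  | insert i s hi ih => rw [Finset.sum_insert hi, Finset.sum_insert hi, cos_add, ih]

theorem cos_eq_zero (a : MonoidAlgebra ℤ G) (h : ∀ g, cos j hj g a = 0) : a = 0 := by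
  apply coeff_injective
  ext g
  have h1 := congrArg (fun x => x.coeff 1) (h g)
  simp only [coeff_cos] at h1
  simpa using h1

end Coset

/-- Naturality of the Fox derivatives. -/
theorem fox_map {X Y : Type*} {P G : Type*} [Group P] [Group G] (i : X → Y)
    (hi : Function.Injective i) (ρ₀ : FreeGroup X →* P) (ρ : FreeGroup Y →* G) (j : P →* G)
    (hj : ∀ w, j (ρ₀ w) = ρ (FreeGroup.map i w)) (w : FreeGroup X) (x : X) :
    fox ρ (FreeGroup.map i w) (i x) = mapDomain j (fox ρ₀ w x) := by
  classical
  induction w using FreeGroup.induction_on with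
  | C1 => rw [map_one, fox_one, fox_one, mapDomain_zero]
  | of y =>
    rw [FreeGroup.map.of, fox_of, fox_of]
    by_cases h : x = y
    · rw [if_pos h, if_pos (congrArg i h), mapDomain_one]
    · rw [if_neg h, if_neg (fun h' => h (hi h')), mapDomain_zero]
  | inv_of y ih =>
    rw [map_inv, fox_inv, fox_inv, ih]
    rw [← mapDomainRingHom_apply ℤ j, ← mapDomainRingHom_apply ℤ j, map_neg, map_mul,
      mapDomainRingHom_apply, mapDomainRingHom_apply, mapDomain_single, map_inv, hj]
  | mul y z hy hz =>
    rw [map_mul, fox_mul, fox_mul, hy, hz, mapDomain_add, mapDomain_mul, mapDomain_single, hj]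

theorem fox_map_of_notMem {X Y : Type*} {G : Type*} [Group G] (i : X → Y)
    (ρ : FreeGroup Y →* G) (w : FreeGroup X) (y : Y) (hy : ∀ x, y ≠ i x) :
    fox ρ (FreeGroup.map i w) y = 0 := by
  classical
  induction w using FreeGroup.induction_on with
  | C1 => rw [map_one, fox_one]
  | of x => rw [FreeGroup.map.of, fox_of, if_neg (hy x)]
  | inv_of x ih => rw [map_inv, fox_inv, ih, mul_zero, neg_zero]
  | mul a b ha hb => rw [map_mul, fox_mul, ha, hb, mul_zero, add_zero]

end

end Pool.Agent.TH309.LF
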