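import Pool.Agent.TH309.LF.Torus

/-!
# Free products
-/

set_option autoImplicit false

namespace Pool.Agent.TH309.LF

universe u

noncomputable section

open Monoid

section

variable {ι : Type u} (H : ι → Type u) [∀ i, Group (H i)]

/-- A free product embeds in the free product of the direct product and a free group. -/
def fpEmb [DecidableEq ι] : CoprodI H →* FP (∀ i, H i) ι :=
  CoprodI.lift fun i => ((MulAut.conj (bet i)).toMonoidHom : FP (∀ i, H i) ι →* _).comp
    (kap.comp (MonoidHom.mulSingle H i))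

theorem fpEmb_of [DecidableEq ι] (i : ι) (h : H i) : fpEmb H (CoprodI.of h) =
    ⟨FreeGroup.of (1, i) * (FreeGroup.of (Pi.mulSingle i h, i))⁻¹, Pi.mulSingle i h⟩ := by
  have h1 : (⟨FreeGroup.of (1, i) * (FreeGroup.of (Pi.mulSingle i h, i))⁻¹,
      Pi.mulSingle i h⟩ : FP (∀ i, H i) ι) =
      SemidirectProduct.inl (FreeGroup.of (1, i) * (FreeGroup.of (Pi.mulSingle i h, i))⁻¹) *
      kap (Pi.mulSingle i h) := SemidirectProduct.mk_eq_inl_mul_inr _ _
  have h2 : (SemidirectProduct.inl (FreeGroup.of (Pi.mulSingle i h, i)) : FP (∀ i, H i) ι) =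
      kap (Pi.mulSingle i h) * bet i * (kap (Pi.mulSingle i h))⁻¹ := inl_of _ _
  rw [h1]
  simp only [fpEmb, CoprodI.lift_of, MonoidHom.comp_apply, MulEquiv.toMonoidHom_eq_coe,
    MonoidHom.coe_coe, MulAut.conj_apply, MonoidHom.mulSingle_apply]
  rw [map_mul, map_inv, h2]
  simp only [bet]
  group

/-- the word of the free part -/
def lst [DecidableEq ι] : (∀ i, H i) → List (Σ i, H i) → List (((∀ i, H i) × ι) × Bool)
  | _, [] => []
  | q, ⟨i, h⟩ :: l => ((q, i), true) :: ((q * Pi.mulSingle i h, i), false) ::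
      lst (q * Pi.mulSingle i h) l

theorem lst_spec [DecidableEq ι] : ∀ (l : List (Σ i, H i)) (q : ∀ i, H i),
    actJ (∀ i, H i) ι q
      (fpEmb H ((l.map fun x : (Σ i, H i) => CoprodI.of x.2).prod)).left = FreeGroup.mk (lst H q l)
  | [], q => by
    simp only [List.map_nil, List.prod_nil, map_one, SemidirectProduct.one_left]
    rfl
  | ⟨i, h⟩ :: l, q => by
    have ih := lst_spec l (q * Pi.mulSingle i h)
    rw [List.map_cons, List.prod_cons, map_mul, fpEmb_of, SemidirectProduct.mul_left]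
    rw [map_mul, map_mul, map_inv, actJ_of, actJ_of, mul_one, ← MulAut.mul_apply, ← map_mul, ih]
    rfl

theorem lst_reduced [DecidableEq ι] : ∀ (l : List (Σ i, H i)) (q : ∀ i, H i),
    (∀ x ∈ l, Sigma.snd x ≠ 1) → l.IsChain (fun x y => x.1 ≠ y.1) →
    FreeGroup.IsReduced (lst H q l)
  | [], q, _, _ => FreeGroup.IsReduced.nil
  | [⟨i, h⟩], q, h1, _ => by
    simp only [lst]
    rw [FreeGroup.isReduced_cons_cons]
    refine ⟨fun h2 => ?_, FreeGroup.IsReduced.singleton⟩
    exfalso
    apply h1 ⟨i, h⟩ (by simp)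
    have h3 := (Prod.ext_iff.1 h2).1
    have h4 : Pi.mulSingle i h = (1 : ∀ i, H i) := by
      simpa using h3
    simpa using h4
  | ⟨i, h⟩ :: ⟨j, k⟩ :: l, q, h1, h2 => by
    rw [List.isChain_cons_cons] at h2
    have ih := lst_reduced (⟨j, k⟩ :: l) (q * Pi.mulSingle i h)
      (fun x hx => h1 x (List.mem_cons_of_mem _ hx)) h2.2
    simp only [lst] at ih ⊢
    rw [FreeGroup.isReduced_cons_cons, FreeGroup.isReduced_cons_cons]
    refine ⟨fun h2 => ?_, fun h3 => ?_, ih⟩
    · exfalso
      apply h1 ⟨i, h⟩ (by simp)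
      have h3 := (Prod.ext_iff.1 h2).1
      have h4 : Pi.mulSingle i h = (1 : ∀ i, H i) := by
        simpa using h3
      simpa using h4
    · exact absurd (Prod.ext_iff.1 h3).2 h2.1

theorem fpEmb_injective [DecidableEq ι] : Function.Injective (fpEmb H) := by
  classical
  rw [injective_iff_map_eq_one]
  intro x hx
  obtain ⟨w, rfl⟩ : ∃ w : CoprodI.Word H, w.prod = x :=
    ⟨CoprodI.Word.equiv x, CoprodI.Word.equiv.left_inv x⟩
  have h1 := lst_spec H w.toList 1
  have h2 : (w.toList.map fun x : (Σ i, H i) => CoprodI.of x.2).prod = w.prod := rfl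
  rw [h2, hx] at h1
  simp only [SemidirectProduct.one_left, map_one] at h1
  have h3 := lst_reduced H w.toList 1 w.ne_one w.chain_ne
  have h4 := congrArg FreeGroup.toWord h1
  rw [FreeGroup.toWord_one, FreeGroup.toWord_mk, h3.reduce_eq] at h4
  have h5 : w.toList = [] := by
    rcases hl : w.toList with _ | ⟨⟨i, h⟩, l⟩
    · rfl
    · rw [hl] at h4
      simp [lst] at h4
  have h6 : w.prod = (w.toList.map fun x : (Σ i, H i) => CoprodI.of x.2).prod := rfl
  rw [h6, h5]
  rfl

theorem horn_pi (h : ∀ i, Horn (H i)) : Horn (∀ i, H i) := by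
  intro r k hk w hw s hs j
  funext i
  refine h i r k hk w hw (fun j => Pi.evalMonoidHom H i (s j)) (fun j => ?_) j
  rw [← map_lift, ← hs j, map_pow]

theorem horn_coprodI (h : ∀ i, Horn (H i)) : Horn (CoprodI H) := by
  classical
  exact Horn.of_injective (fpEmb H) (fpEmb_injective H) (horn_FP (horn_pi H h))

end

end

end Pool.Agent.TH309.LF
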