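import Mathlib

/-!
# Locally indicable groups form a quasivariety
-/

set_option autoImplicit false

namespace Pool.Agent.TH309.LF

universe u v

/-- Every nontrivial finitely generated subgroup maps onto `ℤ`. -/
def LocallyIndicable (G : Type*) [Group G] : Prop :=
  ∀ H : Subgroup G, H.FG → H ≠ ⊥ → ∃ f : H →* Multiplicative ℤ, Function.Surjective f

/-- The Horn sentences which axiomatise local indicability: if `s₁, …, s_r` satisfy
`s_j ^ k = w_j(s)` with `w_j` in the commutator subgroup of the free group, then all `s_j` are
trivial. -/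
def Horn (G : Type*) [Group G] : Prop :=
  ∀ (r k : ℕ), 0 < k → ∀ w : Fin r → FreeGroup (Fin r),
    (∀ j, w j ∈ commutator (FreeGroup (Fin r))) → ∀ s : Fin r → G,
    (∀ j, s j ^ k = FreeGroup.lift s (w j)) → ∀ j, s j = 1

theorem map_lift {α : Type*} {G H : Type*} [Group G] [Group H] (f : G →* H) (s : α → G)
    (w : FreeGroup α) : f (FreeGroup.lift s w) = FreeGroup.lift (fun a => f (s a)) w := by
  have : f.comp (FreeGroup.lift s) = FreeGroup.lift (fun a => f (s a)) := by
    ext a; simp
  exact DFunLike.congr_fun this w

theorem lift_commutator {α : Type*} {A : Type*} [CommGroup A] (s : α → A) (w : FreeGroup α)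
    (hw : w ∈ commutator (FreeGroup α)) : FreeGroup.lift s w = 1 :=
  Abelianization.commutator_subset_ker (FreeGroup.lift s) hw

theorem Horn.of_injective {G : Type*} {Q : Type*} [Group G] [Group Q] (f : G →* Q)
    (hf : Function.Injective f) (hQ : Horn Q) : Horn G := by
  intro r k hk w hw s hs j
  apply hf
  rw [map_one]
  refine hQ r k hk w hw (fun j => f (s j)) (fun j => ?_) j
  rw [← map_lift, ← hs j, map_pow]

theorem Horn.subgroup {G : Type*} [Group G] (hG : Horn G) (H : Subgroup G) : Horn H :=
  Horn.of_injective H.subtype H.subtype_injective hG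

theorem horn_comm {A : Type*} [CommGroup A] (hA : ∀ (a : A) (k : ℕ), 0 < k → a ^ k = 1 → a = 1) :
    Horn A := by
  intro r k hk w hw s hs j
  apply hA _ k hk
  rw [hs j, lift_commutator s _ (hw j)]

theorem horn_int : Horn (Multiplicative ℤ) := by
  apply horn_comm
  intro a k hk h
  have h1 : k • (Multiplicative.toAdd a) = 0 := by
    have := congrArg Multiplicative.toAdd h
    simpa using this
  have h2 : Multiplicative.toAdd a = 0 := by
    rcases smul_eq_zero.1 h1 with h | h
    · omega
    · exact h
  exact Multiplicative.toAdd.injective (by simpa using h2)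

/-- Semidirect products (and so extensions). -/
theorem horn_semidirect {N Q : Type*} [Group N] [Group Q] (φ : Q →* MulAut N) (hN : Horn N)
    (hQ : Horn Q) : Horn (N ⋊[φ] Q) := by
  intro r k hk w hw s hs
  have h1 : ∀ j, (s j).right = 1 := by
    intro j
    refine hQ r k hk w hw (fun j => SemidirectProduct.rightHom (s j)) (fun j => ?_) j
    rw [← map_lift, ← hs j, map_pow]
  have h2 : ∀ j, s j = SemidirectProduct.inl (s j).left := by
    intro j
    ext
    · simp
    · simpa using h1 j
  have h3 : ∀ j, (s j).left = 1 := by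
    refine hN r k hk w hw (fun j => (s j).left) (fun j => ?_)
    apply SemidirectProduct.inl_injective (φ := φ)
    rw [map_lift, map_pow]
    have h4 : (fun a => SemidirectProduct.inl (φ := φ) (s a).left) = s := by
      funext a; exact (h2 a).symm
    rw [h4, ← hs j, ← h2 j]
  intro j
  rw [h2 j, h3 j, map_one]

theorem horn_free (X : Type u) : Horn (FreeGroup X) := by
  intro r k hk w hw s hs
  by_contra hne
  push Not at hne
  obtain ⟨j₀, hj₀⟩ := hne
  set H : Subgroup (FreeGroup X) := Subgroup.closure (Set.range s) with hH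
  have hmem : ∀ j, s j ∈ H := fun j => Subgroup.subset_closure ⟨j, rfl⟩
  let s' : Fin r → H := fun j => ⟨s j, hmem j⟩
  have hs' : ∀ j, s' j ^ k = FreeGroup.lift s' (w j) := by
    intro j
    apply H.subtype_injective
    rw [map_lift, map_pow]
    exact hs j
  have hgen : Subgroup.closure (Set.range s') = ⊤ := by
    rw [eq_top_iff]
    have := Subgroup.closure_closure_coe_preimage (k := Set.range s)
    rw [← hH] at this
    have h2 : (Subtype.val : H → FreeGroup X) ⁻¹' (Set.range s) = Set.range s' := by
      ext x
      constructor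
      · rintro ⟨j, hj⟩
        exact ⟨j, Subtype.ext hj⟩
      · rintro ⟨j, rfl⟩
        exact ⟨j, rfl⟩
    rw [← h2]
    exact this.ge
  -- every homomorphism to `ℤ` is trivial
  have htriv : ∀ f : H →* Multiplicative ℤ, f = 1 := by
    intro f
    have h1 : ∀ j, f (s' j) = 1 := by
      have := horn_int r k hk w hw (fun j => f (s' j)) (fun j => by
        rw [← map_lift, ← hs' j, map_pow])
      exact this
    refine MonoidHom.eq_of_eqOn_dense hgen ?_
    rintro _ ⟨j, rfl⟩
    simpa using h1 j
  -- but `H` is free
  let e := IsFreeGroup.toFreeGroup H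
  by_cases hX : IsEmpty (IsFreeGroup.Generators H)
  · have h1 : s' j₀ = 1 := by
      apply e.injective
      exact Subsingleton.elim _ _
    exact hj₀ (congrArg Subtype.val h1)
  · rw [not_isEmpty_iff] at hX
    obtain ⟨x⟩ := hX
    have h1 := htriv ((FreeGroup.lift (fun _ => Multiplicative.ofAdd (1 : ℤ))).comp
      (e : H →* FreeGroup (IsFreeGroup.Generators H)))
    have h2 := DFunLike.congr_fun h1 (e.symm (FreeGroup.of x))
    simp at h2

/-- Reduced powers. -/
theorem horn_germ {α : Type*} (l : Filter α) {A : Type*} [Group A] (hA : Horn A) :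
    Horn (l.Germ A) := by
  intro r k hk w hw s hs
  have hrep : ∀ j, ∃ a : α → A, (a : l.Germ A) = s j := fun j => by
    induction s j using Filter.Germ.inductionOn with
    | _ a => exact ⟨a, rfl⟩
  choose a ha using hrep
  let Ψ : FreeGroup (Fin r) →* l.Germ A :=
    { toFun := fun v => ((fun n => FreeGroup.lift (fun j => a j n) v : α → A) : l.Germ A)
      map_one' := by simp; rfl
      map_mul' := fun v v' => by simp; rfl }
  have hΨ : FreeGroup.lift s = Ψ := by
    ext j
    simp [Ψ, ha]
  have h1 : ∀ᶠ n in l, ∀ j, a j n ^ k = FreeGroup.lift (fun j => a j n) (w j) := by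
    rw [Filter.eventually_all]
    intro j
    have h2 := hs j
    rw [hΨ, ← ha j] at h2
    exact Filter.Germ.coe_eq.1 h2
  intro j
  rw [← ha j]
  refine Filter.Germ.coe_eq.2 ?_
  filter_upwards [h1] with n hn
  exact hA r k hk w hw (fun j => a j n) hn j

end Pool.Agent.TH309.LF
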