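import Pool.Agent.TH309.LF.Rel
import Pool.Agent.TH309.LF.Partial

/-!
# Layered relative labelled oriented graphs
-/

set_option autoImplicit false

namespace Pool.Agent.TH309.LF

universe u v

noncomputable section

/-- The end point of `e` which is used at the level of `e`: the initial vertex if the level is
marked `true`, the terminal vertex otherwise. -/
def foot {O V E : Type u} {L : Type v} (i t : E → O ⊕ V) (elev : E → L) (fwd : L → Bool) (e : E) :
    O ⊕ V :=
  if fwd (elev e) then i e else t e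

/-- Each nonempty finite set of edges of one level has a leaf: a new vertex of this level which
is the foot or the label, but not both, of exactly one of these edges. -/
def LeafyLevels {O V E : Type u} {L : Type v} (i t l : E → O ⊕ V) (lev : V → L) (elev : E → L)
    (fwd : L → Bool) : Prop :=
  ∀ (a : L) (S : Finset E), S.Nonempty → (∀ e ∈ S, elev e = a) → ∃ e ∈ S, ∃ v : V, lev v = a ∧
    ((foot i t elev fwd e = Sum.inr v ∧ l e ≠ Sum.inr v) ∨
      (foot i t elev fwd e ≠ Sum.inr v ∧ l e = Sum.inr v)) ∧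
    ∀ e' ∈ S, e' ≠ e → foot i t elev fwd e' ≠ Sum.inr v ∧ l e' ≠ Sum.inr v

theorem splt_eq_inr {O V : Type u} (P : V → Prop) [DecidablePred P] (w : O ⊕ V)
    (v : {v // ¬ P v}) : splt P w = Sum.inr v ↔ w = Sum.inr v.1 := by
  rcases w with o | x
  · simp [splt]
  · by_cases hx : P x
    · simp only [splt, Sum.elim_inr, dif_pos hx]
      constructor
      · intro h; exact absurd h (by simp)
      · intro h
        have := Sum.inr.inj h
        exact absurd hx (this ▸ v.2)
    · simp only [splt, Sum.elim_inr, dif_neg hx]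
      constructor
      · intro h
        rw [← Sum.inr.inj h]
      · intro h
        congr 1
        exact Subtype.ext (Sum.inr.inj h)

theorem restr_eq_inr {O V : Type u} (P : V → Prop) (w : O ⊕ V) (h : ∀ v, w = Sum.inr v → P v)
    (v : {v // P v}) : restr P w h = Sum.inr v ↔ w = Sum.inr v.1 := by
  rcases w with o | x
  · simp [restr]
  · simp only [restr]
    constructor
    · intro h
      rw [← Sum.inr.inj h]
    · intro h
      congr 1
      exact Subtype.ext (Sum.inr.inj h)

theorem layered_fin {L : Type v} [LinearOrder L] (fwd : L → Bool) : ∀ (n : ℕ)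
    {G₀ G O V E : Type u} [Group G₀] [Group G] [Fintype E] (old : O → G₀)
    (i t l : E → O ⊕ V) (ι : G₀ →* G) (g : V → G) (_ : IsGrp old i t l ι g)
    (π : G₀ →* Multiplicative ℤ) (_ : ∀ o, π (old o) = Multiplicative.ofAdd 1)
    (t₀ : G₀) (_ : π t₀ = Multiplicative.ofAdd 1) (_ : Horn G₀) (lev : V → L) (elev : E → L)
    (_ : ∀ e v, i e = Sum.inr v → lev v ≤ elev e) (_ : ∀ e v, t e = Sum.inr v → lev v ≤ elev e)
    (_ : ∀ e v, l e = Sum.inr v → lev v ≤ elev e) (_ : LeafyLevels i t l lev elev fwd),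
    Fintype.card E = n → Horn G ∧ Function.Injective ι := by
  classical
  intro n
  induction n using Nat.strong_induction_on with
  | _ n ih =>
    intro G₀ G O V E _ _ _ old i t l ι g h π hold t₀ ht₀ hG₀ lev elev hi ht hl leaf hn
    rcases isEmpty_or_nonempty E with hE | ⟨⟨e⟩⟩
    · refine step h π hold t₀ ht₀ hG₀ ?_
      intro S _ hS
      obtain ⟨e, _⟩ := hS
      exact hE.elim e
    obtain ⟨e₀, -, he₀⟩ := Finset.exists_max_image Finset.univ elev ⟨e, Finset.mem_univ e⟩
    set a := elev e₀ with ha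
    let P : V → Prop := fun v => lev v < a
    let PE : E → Prop := fun e => elev e < a
    have hi' : ∀ e, PE e → ∀ v, i e = Sum.inr v → P v := fun e he v hv =>
      lt_of_le_of_lt (hi e v hv) he
    have ht' : ∀ e, PE e → ∀ v, t e = Sum.inr v → P v := fun e he v hv =>
      lt_of_le_of_lt (ht e v hv) he
    have hl' : ∀ e, PE e → ∀ v, l e = Sum.inr v → P v := fun e he v hv =>
      lt_of_le_of_lt (hl e v hv) he
    -- the group of the lower levels
    let i₁ : {e // PE e} → O ⊕ {v // P v} := fun e => restr P (i e.1) (hi' e.1 e.2)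
    let t₁ : {e // PE e} → O ⊕ {v // P v} := fun e => restr P (t e.1) (ht' e.1 e.2)
    let l₁ : {e // PE e} → O ⊕ {v // P v} := fun e => restr P (l e.1) (hl' e.1 e.2)
    obtain ⟨G₁, _, ι₁, g₁, h₁⟩ : ∃ (G₁ : Type u) (_ : Group G₁) (ι₁ : G₀ →* G₁)
        (g₁ : {v // P v} → G₁), IsGrp old i₁ t₁ l₁ ι₁ g₁ :=
      ⟨_, _, _, _, isGrp_quot old i₁ t₁ l₁ _ rfl⟩
    have hcard : Fintype.card {e // PE e} < n := by
      rw [← hn]
      exact Fintype.card_subtype_lt (x := e₀) (lt_irrefl _)
    have hleaf₁ : LeafyLevels i₁ t₁ l₁ (fun v => lev v.1) (fun e => elev e.1) fwd := by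
      intro b S hS hSb
      obtain ⟨e', he', v, hvb, hv1, hv2⟩ := leaf b (S.map (Function.Embedding.subtype _))
        (by simpa using hS) (by
          intro e he
          rw [Finset.mem_map] at he
          obtain ⟨e', he', rfl⟩ := he
          exact hSb e' he')
      rw [Finset.mem_map] at he'
      obtain ⟨e, he, rfl⟩ := he'
      have hvP : P v := by
        change lev v < a
        rw [hvb, ← hSb e he]
        exact e.2
      have hfoot : ∀ e : {e // PE e}, foot i₁ t₁ (fun e => elev e.1) fwd e = Sum.inr ⟨v, hvP⟩ ↔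
          foot i t elev fwd e.1 = Sum.inr v := by
        intro e
        unfold foot
        by_cases hf : fwd (elev e.1) = true
        · rw [if_pos hf, if_pos hf]
          exact restr_eq_inr P _ _ _
        · rw [if_neg hf, if_neg hf]
          exact restr_eq_inr P _ _ _
      have hlab : ∀ e : {e // PE e}, l₁ e = Sum.inr ⟨v, hvP⟩ ↔ l e.1 = Sum.inr v := fun e =>
        restr_eq_inr P _ _ _
      refine ⟨e, he, ⟨v, hvP⟩, hvb, ?_, ?_⟩
      · rw [Ne, Ne, hfoot, hlab]
        exact hv1
      · intro e' he' hne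
        rw [Ne, Ne, hfoot, hlab]
        exact hv2 e'.1 (Finset.mem_map_of_mem _ he') (fun h => hne (Subtype.ext h))
    obtain ⟨hG₁, hinj₁⟩ := ih _ hcard old i₁ t₁ l₁ _ _ h₁ π hold t₀ ht₀ hG₀ (fun v => lev v.1)
      (fun e => elev e.1)
      (fun e v hv => hi e.1 v.1 ((restr_eq_inr P _ _ _).1 hv))
      (fun e v hv => ht e.1 v.1 ((restr_eq_inr P _ _ _).1 hv))
      (fun e v hv => hl e.1 v.1 ((restr_eq_inr P _ _ _).1 hv)) hleaf₁ rfl
    -- the map to `ℤ`
    obtain ⟨F, hF1, hF2⟩ := h₁.univ (ULift.{u} (Multiplicative ℤ))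
      ((MulEquiv.ulift.symm : Multiplicative ℤ ≃* ULift.{u} (Multiplicative ℤ)).toMonoidHom.comp π)
      (fun _ => ⟨Multiplicative.ofAdd 1⟩) (by
        have h3 : ∀ w : O ⊕ {v // P v}, ev old ((MulEquiv.ulift.symm : Multiplicative ℤ ≃*
            ULift.{u} (Multiplicative ℤ)).toMonoidHom.comp π)
            (fun _ => ⟨Multiplicative.ofAdd 1⟩) w = ⟨Multiplicative.ofAdd 1⟩ := by
          rintro (o | v)
          · change ULift.up (π (old o)) = _
            rw [hold]
          · rfl
        intro e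
        rw [h3, h3, h3])
    obtain ⟨ι₂, hι₂, h₂⟩ := h.trans P PE hi' ht' hl' h₁
    have hcomp : Function.Injective ι₂ → Function.Injective ι := by
      intro hinj x y hxy
      rw [← hι₂, ← hι₂] at hxy
      exact hinj₁ (hinj hxy)
    let π₁ := (MulEquiv.ulift : ULift.{u} (Multiplicative ℤ) ≃* Multiplicative ℤ).toMonoidHom.comp F
    have hπι : ∀ x, π₁ (ι₁ x) = π x := fun x => congrArg ULift.down (hF1 x)
    have hπg : ∀ v, π₁ (g₁ v) = Multiplicative.ofAdd 1 := fun v => congrArg ULift.down (hF2 v)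
    have hold₁ : ∀ o, π₁ ((Sum.elim (fun o => ι₁ (old o)) g₁ : O ⊕ {v // P v} → G₁) o) =
        Multiplicative.ofAdd 1 := by
      rintro (o | v)
      · exact (hπι _).trans (hold o)
      · exact hπg v
    have ht₁ : π₁ (ι₁ t₀) = Multiplicative.ofAdd 1 := (hπι _).trans ht₀
    have hPE : ∀ e : {e // ¬ PE e}, elev e.1 = a := fun e =>
      le_antisymm (he₀ e.1 (Finset.mem_univ _)) (not_lt.1 e.2)
    -- the leaf condition for the top level
    have hleaf₂ : ∀ S : Finset {e // ¬ PE e}, S.Nonempty → ∃ e ∈ S, ∃ v : {v // ¬ P v},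
        ((foot i t elev fwd e.1 = Sum.inr v.1 ∧ l e.1 ≠ Sum.inr v.1) ∨
          (foot i t elev fwd e.1 ≠ Sum.inr v.1 ∧ l e.1 = Sum.inr v.1)) ∧
        ∀ e' ∈ S, e' ≠ e → foot i t elev fwd e'.1 ≠ Sum.inr v.1 ∧ l e'.1 ≠ Sum.inr v.1 := by
      intro S hS
      obtain ⟨e', he', v, hva, hv1, hv2⟩ := leaf a (S.map (Function.Embedding.subtype _))
        (by simpa using hS) (by
          intro e he
          rw [Finset.mem_map] at he
          obtain ⟨e', he', rfl⟩ := he
          exact hPE e')
      rw [Finset.mem_map] at he'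
      obtain ⟨e, he, rfl⟩ := he'
      have hvP : ¬ P v := by
        change ¬ lev v < a
        rw [hva]
        exact lt_irrefl a
      exact ⟨e, he, ⟨v, hvP⟩, hv1, fun e' he' hne =>
        hv2 e'.1 (Finset.mem_map_of_mem _ he') (fun h => hne (Subtype.ext h))⟩
    by_cases hf : fwd a = true
    · refine And.imp_right hcomp (step h₂ π₁ hold₁ (ι₁ t₀) ht₁ hG₁ ?_)
      intro S _ hS
      obtain ⟨e, he, v, hv1, hv2⟩ := hleaf₂ S hS
      have hfoot : ∀ e : {e // ¬ PE e}, foot i t elev fwd e.1 = i e.1 := by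
        intro e
        unfold foot
        rw [hPE e, if_pos hf]
      refine ⟨e, he, v, ?_, ?_⟩
      · rw [hfoot] at hv1
        simpa only [ne_eq, splt_eq_inr] using hv1
      · intro e' he' hne
        have := hv2 e' he' hne
        rw [hfoot] at this
        simpa only [ne_eq, splt_eq_inr] using this
    · refine And.imp_right hcomp (step_rev h₂ π₁ hold₁ (ι₁ t₀) ht₁ hG₁ ?_)
      intro S _ hS
      obtain ⟨e, he, v, hv1, hv2⟩ := hleaf₂ S hS
      have hfoot : ∀ e : {e // ¬ PE e}, foot i t elev fwd e.1 = t e.1 := by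
        intro e
        unfold foot
        rw [hPE e, if_neg hf]
      refine ⟨e, he, v, ?_, ?_⟩
      · rw [hfoot] at hv1
        simpa only [ne_eq, splt_eq_inr] using hv1
      · intro e' he' hne
        have := hv2 e' he' hne
        rw [hfoot] at this
        simpa only [ne_eq, splt_eq_inr] using this

/-- No element `t₀` is needed. -/
theorem layered_fin' {L : Type v} [LinearOrder L] (fwd : L → Bool)
    {G₀ G O V E : Type u} [Group G₀] [Group G] [Fintype E] (old : O → G₀)
    (i t l : E → O ⊕ V) (ι : G₀ →* G) (g : V → G) (h : IsGrp old i t l ι g)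
    (π : G₀ →* Multiplicative ℤ) (hold : ∀ o, π (old o) = Multiplicative.ofAdd 1)
    (hG₀ : Horn G₀) (lev : V → L) (elev : E → L)
    (hi : ∀ e v, i e = Sum.inr v → lev v ≤ elev e) (ht : ∀ e v, t e = Sum.inr v → lev v ≤ elev e)
    (hl : ∀ e v, l e = Sum.inr v → lev v ≤ elev e) (leaf : LeafyLevels i t l lev elev fwd) :
    Horn G ∧ Function.Injective ι := by
  let G₀' : Type u := G₀ × Multiplicative ℤ
  let old' : O → G₀' := fun o => (old o, 1)
  let π' : G₀' →* Multiplicative ℤ := π.coprod (MonoidHom.id _)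
  obtain ⟨G', _, ι', g', h'⟩ : ∃ (G' : Type u) (_ : Group G') (ι' : G₀' →* G')
      (g' : V → G'), IsGrp old' i t l ι' g' :=
    ⟨_, _, _, _, isGrp_quot old' i t l _ rfl⟩
  obtain ⟨hG', hinj'⟩ := layered_fin fwd _ old' i t l ι' g' h' π'
    (fun o => by
      change π (old o) * 1 = _
      rw [mul_one, hold]) (1, Multiplicative.ofAdd 1) (by
      change π 1 * Multiplicative.ofAdd 1 = _
      rw [map_one, one_mul])
    (horn_prod hG₀ horn_int) lev elev hi ht hl leaf rfl
  obtain ⟨F, hF1, hF2⟩ := h.univ G' (ι'.comp (MonoidHom.inl G₀ (Multiplicative ℤ))) g' (by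
    intro e
    have h1 : ∀ w, ev old (ι'.comp (MonoidHom.inl G₀ (Multiplicative ℤ))) g' w =
        ev old' ι' g' w := by
      rintro (o | v)
      · rfl
      · rfl
    rw [h1, h1, h1, h'.rel e])
  obtain ⟨F', hF1', hF2'⟩ := h'.univ G (ι.comp (MonoidHom.fst G₀ (Multiplicative ℤ))) g (by
    intro e
    have h1 : ∀ w, ev old' (ι.comp (MonoidHom.fst G₀ (Multiplicative ℤ))) g w =
        ev old ι g w := by
      rintro (o | v)
      · rfl
      · rfl
    rw [h1, h1, h1, h.rel e])
  have hFF : F'.comp F = MonoidHom.id G := by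
    apply h.hom_ext
    · intro x
      rw [MonoidHom.comp_apply, hF1, MonoidHom.comp_apply, hF1']
      rfl
    · intro v
      rw [MonoidHom.comp_apply, hF2, hF2']
      rfl
  refine ⟨Horn.of_injective F ?_ hG', ?_⟩
  · intro x y hxy
    have h1 : ∀ x, F' (F x) = x := fun x => DFunLike.congr_fun hFF x
    rw [← h1 x, ← h1 y, hxy]
  · intro x y hxy
    have h1 := congrArg F hxy
    rw [hF1, hF1] at h1
    have h2 := hinj' h1
    exact congrArg Prod.fst h2

/-- Main theorem. -/
theorem layered {L : Type v} [LinearOrder L] (fwd : L → Bool)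
    {G₀ G O V E : Type u} [Group G₀] [Group G] (old : O → G₀)
    (i t l : E → O ⊕ V) (ι : G₀ →* G) (g : V → G) (h : IsGrp old i t l ι g)
    (π : G₀ →* Multiplicative ℤ) (hold : ∀ o, π (old o) = Multiplicative.ofAdd 1)
    (hG₀ : Horn G₀) (lev : V → L) (elev : E → L)
    (hi : ∀ e v, i e = Sum.inr v → lev v ≤ elev e) (ht : ∀ e v, t e = Sum.inr v → lev v ≤ elev e)
    (hl : ∀ e v, l e = Sum.inr v → lev v ≤ elev e) (leaf : LeafyLevels i t l lev elev fwd) :
    Horn G ∧ Function.Injective ι := by
  classical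
  set R := Set.range (relator old i t l) with hR
  have fin : ∀ R₀ : Set (Monoid.Coprod G₀ (FreeGroup V)), R₀.Finite → R₀ ⊆ R →
      Horn (Monoid.Coprod G₀ (FreeGroup V) ⧸ Subgroup.normalClosure R₀) ∧
      Function.Injective ((QuotientGroup.mk' (Subgroup.normalClosure R₀)).comp
        (Monoid.Coprod.inl : G₀ →* Monoid.Coprod G₀ (FreeGroup V))) := by
    intro R₀ hfin hsub
    have hfin' : Finite R₀ := hfin
    choose c hc using fun r : R₀ => hsub r.2
    let T : Finset E := (Set.finite_range c).toFinset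
    have hR₀ : R₀ = Set.range (relator old (fun e : {e // e ∈ T} => i e.1) (fun e => t e.1)
        (fun e => l e.1)) := by
      ext r
      constructor
      · intro hr
        exact ⟨⟨c ⟨r, hr⟩, (Set.finite_range c).mem_toFinset.2 ⟨⟨r, hr⟩, rfl⟩⟩, hc ⟨r, hr⟩⟩
      · rintro ⟨⟨e, he⟩, rfl⟩
        obtain ⟨r, rfl⟩ := (Set.finite_range c).mem_toFinset.1 he
        change relator old i t l (c r) ∈ R₀
        rw [hc r]
        exact r.2
    refine layered_fin' fwd old (fun e : {e // e ∈ T} => i e.1) (fun e => t e.1)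
      (fun e => l e.1) _ _ (isGrp_quot old _ _ _ R₀ hR₀) π hold hG₀ lev (fun e => elev e.1)
      (fun e => hi e.1) (fun e => ht e.1) (fun e => hl e.1) ?_
    intro b S hS hSb
    obtain ⟨e', he', v, hvb, hv1, hv2⟩ := leaf b (S.map (Function.Embedding.subtype _))
      (by simpa using hS) (by
        intro e he
        rw [Finset.mem_map] at he
        obtain ⟨e', he', rfl⟩ := he
        exact hSb e' he')
    rw [Finset.mem_map] at he'
    obtain ⟨e, he, rfl⟩ := he'
    exact ⟨e, he, v, hvb, hv1, fun e' he' hne =>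
      hv2 e'.1 (Finset.mem_map_of_mem _ he') (fun h => hne (Subtype.ext h))⟩
  have h' := isGrp_quot old i t l R hR
  obtain ⟨F, hF1, hF2⟩ := h.univ _ _ _ h'.rel
  obtain ⟨F', hF1', hF2'⟩ := h'.univ _ _ _ h.rel
  have hFF : F'.comp F = MonoidHom.id G := by
    apply h.hom_ext
    · intro x
      rw [MonoidHom.comp_apply, hF1, hF1']
      rfl
    · intro v
      rw [MonoidHom.comp_apply, hF2, hF2']
      rfl
  refine ⟨Horn.of_injective F ?_ (horn_quotient_compact R fun R₀ h1 h2 => (fin R₀ h1 h2).1), ?_⟩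
  · intro x y hxy
    have h1 : ∀ x, F' (F x) = x := fun x => DFunLike.congr_fun hFF x
    rw [← h1 x, ← h1 y, hxy]
  · rw [injective_iff_map_eq_one]
    intro x hx
    have h1 : F (ι x) = 1 := by rw [hx, map_one]
    rw [hF1] at h1
    change QuotientGroup.mk' (Subgroup.normalClosure R) (Monoid.Coprod.inl x) = 1 at h1
    rw [← MonoidHom.mem_ker, QuotientGroup.ker_mk'] at h1
    obtain ⟨R₀, hfin, hsub, hmem⟩ := mem_normalClosure_finite R _ h1
    have h2 := (fin R₀ hfin hsub).2
    rw [injective_iff_map_eq_one] at h2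
    apply h2
    change QuotientGroup.mk' (Subgroup.normalClosure R₀) (Monoid.Coprod.inl x) = 1
    rw [← MonoidHom.mem_ker, QuotientGroup.ker_mk']
    exact hmem

end

end Pool.Agent.TH309.LF
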