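import Pool.Agent.TH309.LF.Step
import Pool.Agent.TH309.LF.LI

/-!
# Groups of relative labelled oriented graphs: reversal, transitivity, construction
-/

set_option autoImplicit false

namespace Pool.Agent.TH309.LF

universe u v

noncomputable section

theorem ev_inv {G₀ Q O N : Type*} [Group G₀] [Group Q] (old : O → G₀) (f : G₀ →* Q) (y : N → Q)
    (w : O ⊕ N) : ev (fun o => (old o)⁻¹) f (fun v => (y v)⁻¹) w = (ev old f y w)⁻¹ := by
  rcases w with o | v
  · simp [ev]
  · simp [ev]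

/-- Inverting all generators exchanges the two end points. -/
theorem IsGrp.reverse {G₀ G O N E : Type u} [Group G₀] [Group G] {old : O → G₀}
    {i t l : E → O ⊕ N} {ι : G₀ →* G} {g : N → G} (h : IsGrp old i t l ι g) :
    IsGrp (fun o => (old o)⁻¹) t i l ι (fun v => (g v)⁻¹) := by
  refine ⟨?_, ?_, ?_⟩
  · intro e
    rw [ev_inv, ev_inv, ev_inv, ← mul_inv_rev, ← mul_inv_rev, h.rel e]
  · rw [eq_top_iff, ← h.gen, Subgroup.closure_le]
    rintro _ (⟨y, rfl⟩ | ⟨v, rfl⟩)
    · exact Subgroup.subset_closure (Or.inl ⟨y, rfl⟩)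
    · rw [SetLike.mem_coe, ← inv_mem_iff]
      exact Subgroup.subset_closure (Or.inr ⟨v, rfl⟩)
  · intro Q _ f y hy
    have h2 : ∀ w, ev (fun o => (old o)⁻¹) f y w = (ev old f (fun v => (y v)⁻¹) w)⁻¹ := by
      intro w
      have := ev_inv old f (fun v => (y v)⁻¹) w
      simpa using this
    obtain ⟨F, hF1, hF2⟩ := h.univ Q f (fun v => (y v)⁻¹) (by
      intro e
      have h1 := hy e
      rw [h2, h2, h2, ← mul_inv_rev, ← mul_inv_rev, inv_inj] at h1
      exact h1.symm)
    exact ⟨F, hF1, fun v => by rw [map_inv, hF2, inv_inv]⟩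

/-- One layer, with the other sign. -/
theorem step_rev {G₀ G O N E : Type u} [Group G₀] [Group G] [Fintype E]
    {old : O → G₀} {i t l : E → O ⊕ N} {ι : G₀ →* G} {g : N → G} (h : IsGrp old i t l ι g)
    (π : G₀ →* Multiplicative ℤ) (hold : ∀ o, π (old o) = Multiplicative.ofAdd 1)
    (t₀ : G₀) (ht₀ : π t₀ = Multiplicative.ofAdd 1) (hG₀ : Horn G₀)
    (leaf : Leafy t l (Finset.univ : Finset E)) : Horn G ∧ Function.Injective ι :=
  step h.reverse π⁻¹ (by intro o; simp [hold]) t₀⁻¹ (by simp [ht₀]) hG₀ leaf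

/-- Sort the vertices in new and old ones. -/
def splt {O V : Type u} (P : V → Prop) [DecidablePred P] :
    O ⊕ V → (O ⊕ {v // P v}) ⊕ {v // ¬ P v} :=
  Sum.elim (fun o => Sum.inl (Sum.inl o))
    (fun v => if h : P v then Sum.inl (Sum.inr ⟨v, h⟩) else Sum.inr ⟨v, h⟩)

/-- Restrict the range. -/
def restr {O V : Type u} (P : V → Prop) : (w : O ⊕ V) → (∀ v, w = Sum.inr v → P v) →
    O ⊕ {v // P v}
  | Sum.inl o, _ => Sum.inl o
  | Sum.inr v, h => Sum.inr ⟨v, h v rfl⟩

theorem ev_restr {G₀ Q O V : Type u} [Group G₀] [Group Q] (old : O → G₀) (f : G₀ →* Q)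
    (y : V → Q) (P : V → Prop) (w : O ⊕ V) (h : ∀ v, w = Sum.inr v → P v) :
    ev old f (fun v : {v // P v} => y v.1) (restr P w h) = ev old f y w := by
  rcases w with o | v
  · rfl
  · rfl

theorem ev_splt {G₀ G₁ Q O V : Type u} [Group G₀] [Group G₁] [Group Q] (old : O → G₀)
    (ι₁ : G₀ →* G₁) (P : V → Prop) [DecidablePred P] (g₁ : {v // P v} → G₁) (f : G₁ →* Q)
    (y : {v // ¬ P v} → Q) (w : O ⊕ V) :
    ev (Sum.elim (fun o => ι₁ (old o)) g₁) f y (splt P w) =
      ev old (f.comp ι₁) (fun v => if h : P v then f (g₁ ⟨v, h⟩) else y ⟨v, h⟩) w := by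
  rcases w with o | v
  · rfl
  · by_cases h : P v
    · simp [ev, splt, h]
    · simp [ev, splt, h]

theorem map_ev {G₀ Q Q' O V : Type*} [Group G₀] [Group Q] [Group Q'] (old : O → G₀)
    (f : G₀ →* Q) (y : V → Q) (F : Q →* Q') (w : O ⊕ V) :
    F (ev old f y w) = ev old (F.comp f) (fun v => F (y v)) w := by
  rcases w with o | v
  · rfl
  · rfl

theorem IsGrp.hom_ext {G₀ G O N E Q : Type u} [Group G₀] [Group G] [Group Q] {old : O → G₀}
    {i t l : E → O ⊕ N} {ι : G₀ →* G} {g : N → G} (h : IsGrp old i t l ι g) (F F' : G →* Q)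
    (h1 : ∀ x, F (ι x) = F' (ι x)) (h2 : ∀ v, F (g v) = F' (g v)) : F = F' := by
  refine MonoidHom.eq_of_eqOn_dense h.gen ?_
  rintro _ (⟨x, rfl⟩ | ⟨v, rfl⟩)
  · exact h1 x
  · exact h2 v

theorem IsGrp.trans {G₀ G₁ G O V E : Type u} [Group G₀] [Group G₁] [Group G]
    {old : O → G₀} {i t l : E → O ⊕ V} {ι : G₀ →* G} {g : V → G} (h : IsGrp old i t l ι g)
    (P : V → Prop) [DecidablePred P] (PE : E → Prop)
    (hi : ∀ e, PE e → ∀ v, i e = Sum.inr v → P v)
    (ht : ∀ e, PE e → ∀ v, t e = Sum.inr v → P v)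
    (hl : ∀ e, PE e → ∀ v, l e = Sum.inr v → P v)
    {ι₁ : G₀ →* G₁} {g₁ : {v // P v} → G₁}
    (h₁ : IsGrp old (fun e : {e // PE e} => restr P (i e.1) (hi e.1 e.2))
      (fun e : {e // PE e} => restr P (t e.1) (ht e.1 e.2))
      (fun e : {e // PE e} => restr P (l e.1) (hl e.1 e.2)) ι₁ g₁) :
    ∃ ι₂ : G₁ →* G, (∀ x, ι₂ (ι₁ x) = ι x) ∧ IsGrp (Sum.elim (fun o => ι₁ (old o)) g₁)
      (fun e : {e // ¬ PE e} => splt P (i e.1)) (fun e : {e // ¬ PE e} => splt P (t e.1))
      (fun e : {e // ¬ PE e} => splt P (l e.1)) ι₂ (fun v : {v // ¬ P v} => g v.1) := by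
  obtain ⟨ι₂, h21, h22⟩ := h₁.univ G ι (fun v => g v.1) (by
    rintro ⟨e, he⟩
    rw [ev_restr, ev_restr, ev_restr, h.rel e])
  have hcomp : ι₂.comp ι₁ = ι := MonoidHom.ext h21
  have hev : ∀ w, ev (Sum.elim (fun o => ι₁ (old o)) g₁) ι₂ (fun v : {v // ¬ P v} => g v.1)
      (splt P w) = ev old ι g w := by
    intro w
    rw [ev_splt, hcomp]
    congr 1
    funext v
    by_cases hv : P v
    · rw [dif_pos hv, h22]
    · rw [dif_neg hv]
  refine ⟨ι₂, h21, ?_, ?_, ?_⟩
  · rintro ⟨e, he⟩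
    change ev _ ι₂ _ (splt P (i e)) * ev _ ι₂ _ (splt P (l e)) =
      ev _ ι₂ _ (splt P (l e)) * ev _ ι₂ _ (splt P (t e))
    rw [hev, hev, hev, h.rel e]
  · rw [eq_top_iff, ← h.gen, Subgroup.closure_le]
    rintro _ (⟨y, rfl⟩ | ⟨v, rfl⟩)
    · exact Subgroup.subset_closure (Or.inl ⟨ι₁ y, h21 y⟩)
    · by_cases hv : P v
      · exact Subgroup.subset_closure (Or.inl ⟨g₁ ⟨v, hv⟩, h22 ⟨v, hv⟩⟩)
      · exact Subgroup.subset_closure (Or.inr ⟨⟨v, hv⟩, rfl⟩)
  · intro Q _ f y hy
    obtain ⟨F, hF1, hF2⟩ := h.univ Q (f.comp ι₁)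
      (fun v => if h : P v then f (g₁ ⟨v, h⟩) else y ⟨v, h⟩) (by
      intro e
      by_cases he : PE e
      · have h3 := congrArg f (h₁.rel ⟨e, he⟩)
        rw [map_mul, map_mul, map_ev, map_ev, map_ev] at h3
        have h4 : ∀ w (hw : ∀ v, w = Sum.inr v → P v),
            ev old (f.comp ι₁) (fun v => f (g₁ v)) (restr P w hw) =
            ev old (f.comp ι₁) (fun v => if h : P v then f (g₁ ⟨v, h⟩) else y ⟨v, h⟩) w := by
          rintro (o | v) hw
          · rfl
          · have : P v := hw v rfl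
            simp [ev, restr, this]
        rw [h4, h4, h4] at h3
        exact h3
      · have h3 := hy ⟨e, he⟩
        rw [ev_splt, ev_splt, ev_splt] at h3
        exact h3)
    have hF : F.comp ι₂ = f := by
      apply h₁.hom_ext
      · intro x
        rw [MonoidHom.comp_apply, h21, hF1, MonoidHom.comp_apply]
      · intro v
        rw [MonoidHom.comp_apply, h22, hF2, dif_pos v.2]
    refine ⟨F, fun x => DFunLike.congr_fun hF x, fun v => ?_⟩
    rw [hF2, dif_neg v.2]

/-- the generators as words -/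
def word {G₀ O V : Type u} [Group G₀] (old : O → G₀) : O ⊕ V → Monoid.Coprod G₀ (FreeGroup V) :=
  Sum.elim (fun o => Monoid.Coprod.inl (old o)) (fun v => Monoid.Coprod.inr (FreeGroup.of v))

/-- the relator `i(e) l(e) (l(e) t(e))⁻¹` of the edge `e` -/
def relator {G₀ O V E : Type u} [Group G₀] (old : O → G₀) (i t l : E → O ⊕ V) (e : E) :
    Monoid.Coprod G₀ (FreeGroup V) :=
  word old (i e) * word old (l e) * (word old (l e) * word old (t e))⁻¹

theorem isGrp_quot {G₀ O V E : Type u} [Group G₀] (old : O → G₀) (i t l : E → O ⊕ V)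
    (R : Set (Monoid.Coprod G₀ (FreeGroup V))) (hR : R = Set.range (relator old i t l)) :
    IsGrp old i t l
      ((QuotientGroup.mk' (Subgroup.normalClosure R)).comp
        (Monoid.Coprod.inl : G₀ →* Monoid.Coprod G₀ (FreeGroup V)))
      (fun v => QuotientGroup.mk' (Subgroup.normalClosure R)
        (Monoid.Coprod.inr (FreeGroup.of v))) := by
  set mk := QuotientGroup.mk' (Subgroup.normalClosure R) with hmk
  have hev : ∀ w, ev old (mk.comp (Monoid.Coprod.inl : G₀ →* Monoid.Coprod G₀ (FreeGroup V)))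
      (fun v => mk (Monoid.Coprod.inr (FreeGroup.of v))) w = mk (word old w) := by
    rintro (o | v)
    · rfl
    · rfl
  refine ⟨?_, ?_, ?_⟩
  · intro e
    rw [hev, hev, hev]
    have h1 : mk (relator old i t l e) = 1 := by
      rw [← MonoidHom.mem_ker, hmk, QuotientGroup.ker_mk']
      exact Subgroup.subset_normalClosure (hR ▸ ⟨e, rfl⟩)
    rw [relator, map_mul, map_inv, mul_inv_eq_one, map_mul, map_mul] at h1
    exact h1
  · rw [Subgroup.eq_top_iff']
    intro y
    obtain ⟨z, rfl⟩ := QuotientGroup.mk'_surjective (Subgroup.normalClosure R) y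
    rw [← hmk]
    set C := Subgroup.closure (Set.range
      (mk.comp (Monoid.Coprod.inl : G₀ →* Monoid.Coprod G₀ (FreeGroup V))) ∪
      Set.range (fun v => mk (Monoid.Coprod.inr (FreeGroup.of v)))) with hC
    induction z using Monoid.Coprod.induction_on with
    | inl x => exact Subgroup.subset_closure (Or.inl ⟨x, rfl⟩)
    | inr x =>
      have h1 : (⊤ : Subgroup (FreeGroup V)) ≤
          C.comap (mk.comp (Monoid.Coprod.inr : FreeGroup V →* Monoid.Coprod G₀ _)) := by
        rw [← FreeGroup.closure_range_of V, Subgroup.closure_le]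
        rintro _ ⟨v, rfl⟩
        exact Subgroup.subset_closure (Or.inr ⟨v, rfl⟩)
      exact h1 (Subgroup.mem_top x)
    | mul x y hx hy =>
      rw [map_mul]
      exact C.mul_mem hx hy
  · intro Q _ f y hy
    let F₀ : Monoid.Coprod G₀ (FreeGroup V) →* Q := Monoid.Coprod.lift f (FreeGroup.lift y)
    have hF₀ : ∀ w, F₀ (word old w) = ev old f y w := by
      rintro (o | v)
      · simp [F₀, word, ev]
      · simp [F₀, word, ev]
    have hker : Subgroup.normalClosure R ≤ F₀.ker := by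
      apply Subgroup.normalClosure_le_normal
      rw [hR]
      rintro _ ⟨e, rfl⟩
      change F₀ _ = 1
      rw [relator, map_mul, map_inv, mul_inv_eq_one, map_mul, map_mul, hF₀, hF₀, hF₀]
      exact hy e
    refine ⟨QuotientGroup.lift _ F₀ hker, fun x => ?_, fun v => ?_⟩
    · change F₀ (Monoid.Coprod.inl x) = f x
      simp [F₀]
    · change F₀ (Monoid.Coprod.inr (FreeGroup.of v)) = y v
      simp [F₀]

theorem horn_prod {G H : Type*} [Group G] [Group H] (hG : Horn G) (hH : Horn H) :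
    Horn (G × H) := by
  intro r k hk w hw s hs j
  apply Prod.ext
  · refine hG r k hk w hw (fun j => MonoidHom.fst G H (s j)) (fun j => ?_) j
    rw [← map_lift, ← hs j, map_pow]
  · refine hH r k hk w hw (fun j => MonoidHom.snd G H (s j)) (fun j => ?_) j
    rw [← map_lift, ← hs j, map_pow]

end

end Pool.Agent.TH309.LF
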