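import Pool.Agent.TH309.LF.Asph

/-!
# Relative labelled oriented graphs over an arbitrary presentation: definitions
-/

set_option autoImplicit false

namespace Pool.Agent.TH309.LF

universe u

noncomputable section

section

variable {X₀ R₀ O V E : Type u} (rel₀ : R₀ → FreeGroup X₀) (w : O → FreeGroup X₀)
  (i t l : E → O ⊕ V)

/-- the word of a vertex: `w o` for the old vertex `o`, the generator `v` for the new vertex
`v` -/
def vword (w : O → FreeGroup X₀) : O ⊕ V → FreeGroup (X₀ ⊕ V) :=
  Sum.elim (fun o => oldW V (w o)) (fun v => FreeGroup.of (Sum.inr v))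

/-- The old relators and the relators `i(e) l(e) t(e)⁻¹ l(e)⁻¹` of the edges. -/
def logRel : R₀ ⊕ E → FreeGroup (X₀ ⊕ V) :=
  Sum.elim (fun r => oldW V (rel₀ r))
    (fun e => vword w (i e) * vword w (l e) * (vword w (t e))⁻¹ * (vword w (l e))⁻¹)

/-- The homomorphism from the old group to the new group. -/
def inclLog : PGrp rel₀ →* PGrp (logRel rel₀ w i t l) :=
  QuotientGroup.map _ _ (oldW V) (by
    apply Subgroup.normalClosure_le_normal
    rintro _ ⟨r, rfl⟩
    exact Subgroup.subset_normalClosure ⟨Sum.inl r, rfl⟩)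

end

end

end Pool.Agent.TH309.LF
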