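import Pool.Agent.TH309.LF.Inj
import Pool.Agent.TH309.LF.RelDefs

/-!
# Relative labelled oriented graphs over an arbitrary presentation
-/

set_option autoImplicit false

namespace Pool.Agent.TH309.LF

universe u v

noncomputable section

open MonoidAlgebra

section

variable {X₀ R₀ O V E : Type u} (rel₀ : R₀ → FreeGroup X₀) (w : O → FreeGroup X₀)
  (i t l : E → O ⊕ V)

theorem inclLog_mk (x : FreeGroup X₀) : inclLog rel₀ w i t l (PresentedGroup.mk _ x) =
    PresentedGroup.mk _ (oldW V x) := rfl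

theorem rel_edge (e : E) :
    PresentedGroup.mk (Set.range (logRel rel₀ w i t l)) (vword w (i e)) *
      PresentedGroup.mk (Set.range (logRel rel₀ w i t l)) (vword w (l e)) =
    PresentedGroup.mk (Set.range (logRel rel₀ w i t l)) (vword w (l e)) *
      PresentedGroup.mk (Set.range (logRel rel₀ w i t l)) (vword w (t e)) := by
  have h1 := mk_rel (logRel rel₀ w i t l) (Sum.inr e)
  have h2 : logRel rel₀ w i t l (Sum.inr e) =
      vword w (i e) * vword w (l e) * (vword w (t e))⁻¹ * (vword w (l e))⁻¹ := rfl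
  rw [h2, map_mul, map_mul, map_mul, map_inv, map_inv, mul_inv_eq_one, mul_inv_eq_iff_eq_mul]
    at h1
  exact h1

theorem isGrp_log : IsGrp (fun o => PresentedGroup.mk (Set.range rel₀) (w o)) i t l
    (inclLog rel₀ w i t l)
    (fun v => PresentedGroup.mk (Set.range (logRel rel₀ w i t l)) (FreeGroup.of (Sum.inr v))) := by
  have hev : ∀ y, ev (fun o => PresentedGroup.mk (Set.range rel₀) (w o)) (inclLog rel₀ w i t l)
      (fun v => PresentedGroup.mk (Set.range (logRel rel₀ w i t l)) (FreeGroup.of (Sum.inr v))) y =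
      PresentedGroup.mk (Set.range (logRel rel₀ w i t l)) (vword w y) := by
    rintro (o | v)
    · rfl
    · rfl
  refine ⟨?_, ?_, ?_⟩
  · intro e
    rw [hev, hev, hev]
    exact rel_edge rel₀ w i t l e
  · rw [eq_top_iff, ← PresentedGroup.closure_range_of, Subgroup.closure_le]
    rintro _ ⟨x | v, rfl⟩
    · exact Subgroup.subset_closure (Or.inl ⟨PresentedGroup.mk _ (FreeGroup.of x), rfl⟩)
    · exact Subgroup.subset_closure (Or.inr ⟨v, rfl⟩)
  · intro Q _ f y hy
    let F₀ : FreeGroup (X₀ ⊕ V) →* Q :=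
      FreeGroup.lift (Sum.elim (fun x => f (PresentedGroup.mk _ (FreeGroup.of x))) y)
    have hF₀old : ∀ x, F₀ (oldW V x) = f (PresentedGroup.mk _ x) := by
      have : F₀.comp (oldW V) = f.comp (PresentedGroup.mk _) := by
        ext x
        simp [F₀]
      exact fun x => DFunLike.congr_fun this x
    have hF₀ : ∀ z, F₀ (vword w z) =
        ev (fun o => PresentedGroup.mk (Set.range rel₀) (w o)) f y z := by
      rintro (o | v)
      · exact hF₀old (w o)
      · simp [F₀, vword, ev]
    refine ⟨QuotientGroup.lift _ F₀ ?_, fun x => ?_, fun v => ?_⟩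
    · apply Subgroup.normalClosure_le_normal
      rintro _ ⟨r | e, rfl⟩
      · change F₀ (oldW V (rel₀ r)) = 1
        rw [hF₀old, mk_rel, map_one]
      · change F₀ (vword w (i e) * vword w (l e) * (vword w (t e))⁻¹ * (vword w (l e))⁻¹) = 1
        rw [map_mul, map_mul, map_mul, map_inv, map_inv, hF₀, hF₀, hF₀, mul_inv_eq_one,
          mul_inv_eq_iff_eq_mul]
        exact hy e
    · obtain ⟨x, rfl⟩ := PresentedGroup.mk_surjective _ x
      exact hF₀old x
    · change F₀ (FreeGroup.of (Sum.inr v)) = y v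
      simp [F₀]

variable (π : FreeGroup X₀ →* Multiplicative ℤ)

theorem inclLog_injective {L : Type v} [LinearOrder L] (fwd : L → Bool)
    (hπ : ∀ r, π (rel₀ r) = 1) (hw : ∀ o, π (w o) = Multiplicative.ofAdd 1)
    (lev : V → L) (elev : E → L)
    (hi : ∀ e v, i e = Sum.inr v → lev v ≤ elev e) (ht : ∀ e v, t e = Sum.inr v → lev v ≤ elev e)
    (hl : ∀ e v, l e = Sum.inr v → lev v ≤ elev e) (leaf : LeafyLevels i t l lev elev fwd) :
    Function.Injective (inclLog rel₀ w i t l) :=
  layered_inj fwd _ i t l _ _ (isGrp_log rel₀ w i t l) (degP rel₀ π hπ) hw lev elev hi ht hl leaf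

/-- the degree on the free group -/
def degL (π : FreeGroup X₀ →* Multiplicative ℤ) (V : Type u) :
    FreeGroup (X₀ ⊕ V) →* Multiplicative ℤ :=
  FreeGroup.lift (Sum.elim (fun x => π (FreeGroup.of x)) (fun _ => Multiplicative.ofAdd 1))

theorem degL_old (x : FreeGroup X₀) : degL π V (oldW V x) = π x := by
  have : (degL π V).comp (oldW V) = π := by
    ext x
    simp [degL]
  exact DFunLike.congr_fun this x

theorem degL_vword (hw : ∀ o, π (w o) = Multiplicative.ofAdd 1) (y : O ⊕ V) :
    degL π V (vword w y) = Multiplicative.ofAdd 1 := by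
  rcases y with o | v
  · exact (degL_old π (w o)).trans (hw o)
  · simp [degL, vword]

/-- the degree on the new group -/
def degLog (hπ : ∀ r, π (rel₀ r) = 1) (hw : ∀ o, π (w o) = Multiplicative.ofAdd 1) :
    PGrp (logRel rel₀ w i t l) →* Multiplicative ℤ :=
  QuotientGroup.lift _ (degL π V) (by
    apply Subgroup.normalClosure_le_normal
    rintro _ ⟨r | e, rfl⟩
    · change degL π V (oldW V (rel₀ r)) = 1
      rw [degL_old, hπ]
    · change degL π V (vword w (i e) * vword w (l e) * (vword w (t e))⁻¹ *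
        (vword w (l e))⁻¹) = 1
      rw [map_mul, map_mul, map_mul, map_inv, map_inv, degL_vword w π hw, degL_vword w π hw,
        degL_vword w π hw]
      simp)

open Classical in
theorem fox_vword {G : Type*} [Group G] (ρ : FreeGroup (X₀ ⊕ V) →* G) (y : O ⊕ V) (v : V) :
    fox ρ (vword w y) (Sum.inr v) = if y = Sum.inr v then 1 else 0 := by
  rcases y with o | v'
  · rw [if_neg (by simp)]
    exact fox_map_of_notMem Sum.inl ρ (w o) (Sum.inr v) (by simp)
  · change fox ρ (FreeGroup.of (Sum.inr v')) (Sum.inr v) = _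
    rw [fox_of]
    by_cases h : v = v'
    · subst h; simp
    · rw [if_neg (fun h' => h (Sum.inr.inj h')), if_neg (fun h' => h (Sum.inr.inj h').symm)]

open Classical in
/-- The Fox derivative of an edge relator. -/
theorem fox_edge (e : E) (v : V) :
    fox (PresentedGroup.mk (Set.range (logRel rel₀ w i t l)))
      (logRel rel₀ w i t l (Sum.inr e)) (Sum.inr v) =
    (if i e = Sum.inr v then 1 else 0) +
    (if l e = Sum.inr v then
      single (PresentedGroup.mk (Set.range (logRel rel₀ w i t l)) (vword w (i e))) 1 - 1 else 0) -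
    (if t e = Sum.inr v then
      single (PresentedGroup.mk (Set.range (logRel rel₀ w i t l)) (vword w (l e))) 1 else 0) := by
  set ρ := PresentedGroup.mk (Set.range (logRel rel₀ w i t l)) with hρ
  have h0 := rel_edge rel₀ w i t l e
  rw [← hρ] at h0
  change fox ρ (vword w (i e) * vword w (l e) * (vword w (t e))⁻¹ * (vword w (l e))⁻¹)
    (Sum.inr v) = _
  rw [fox_mul, fox_mul, fox_mul, fox_inv, fox_inv, fox_vword, fox_vword, fox_vword]
  have h1 : ρ (vword w (i e) * vword w (l e)) = ρ (vword w (l e)) * ρ (vword w (t e)) := by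
    rw [map_mul, h0]
  have h2 : ρ (vword w (i e) * vword w (l e) * (vword w (t e))⁻¹) = ρ (vword w (l e)) := by
    rw [map_mul, h1, map_inv, mul_inv_cancel_right]
  rw [h1, h2]
  simp only [mul_neg, ← mul_assoc, single_mul_single, mul_one, mul_inv_cancel_right,
    mul_inv_cancel, ← one_def]
  by_cases hi' : i e = Sum.inr v <;> by_cases hl' : l e = Sum.inr v <;>
    by_cases ht' : t e = Sum.inr v <;> simp [hi', hl', ht'] <;> abel

theorem pick {G : Type*} [Group G] (χ : G →* Multiplicative ℤ) {ε : Type*} (s : Finset ε)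
    (hs : s.Nonempty) (c : ε → MonoidAlgebra ℤ G) (hc : ∀ e ∈ s, c e ≠ 0) :
    ∃ m : ℤ, (∀ e ∈ s, DegGE χ (c e) m) ∧
      ∃ e ∈ s, ∃ g, (c e).coeff g ≠ 0 ∧ (χ g).toAdd = m := by
  classical
  let S : Finset (Σ _ : ε, G) := s.sigma fun e => (c e).coeff.support
  have hS : S.Nonempty := by
    obtain ⟨e, he⟩ := hs
    have h1 : (c e).coeff ≠ 0 := fun h2 => hc e he (coeff_injective h2)
    obtain ⟨g, hg⟩ := Finsupp.support_nonempty_iff.2 h1
    exact ⟨⟨e, g⟩, Finset.mem_sigma.2 ⟨he, hg⟩⟩
  obtain ⟨⟨e₀, g₀⟩, hmem, hmin⟩ := Finset.exists_min_image S (fun p => (χ p.2).toAdd) hS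
  refine ⟨(χ g₀).toAdd, ?_, e₀, (Finset.mem_sigma.1 hmem).1, g₀,
    Finsupp.mem_support_iff.1 (Finset.mem_sigma.1 hmem).2, rfl⟩
  intro e he g hg
  exact hmin ⟨e, g⟩ (Finset.mem_sigma.2 ⟨he, Finsupp.mem_support_iff.2 hg⟩)

theorem no_cancel {G : Type*} [Group G] (χ : G →* Multiplicative ℤ) {ε : Type*} [DecidableEq ε]
    (s : Finset ε) (c A B : ε → MonoidAlgebra ℤ G) (m d : ℤ) (e₀ : ε) (he₀ : e₀ ∈ s) (g₀ : G)
    (hg₀ : (c e₀).coeff g₀ ≠ 0) (hdeg : (χ g₀).toAdd = m)
    (h1 : ∀ e ∈ s, DegGE χ (c e) m) (h2 : ∀ e ∈ s, DegGE χ (B e) (d + 1))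
    (h : G) (z : ℤ) (hz : z ≠ 0) (h3 : A e₀ = single h z) (hh : (χ h).toAdd = d)
    (h4 : ∀ e ∈ s, e ≠ e₀ → A e = 0 ∨ (DegGE χ (A e) d ∧ DegGE χ (c e) (m + 1)))
    (hsum : ∑ e ∈ s, c e * (A e + B e) = 0) : False := by
  have hd : (χ (g₀ * h)).toAdd = m + d := by rw [map_mul, toAdd_mul, hdeg, hh]
  have hzero : ∀ x : MonoidAlgebra ℤ G, DegGE χ x (m + d + 1) → x.coeff (g₀ * h) = 0 := by
    intro x hx
    by_contra hne
    have := hx _ hne
    omega
  have hB : ∀ e ∈ s, (c e * B e).coeff (g₀ * h) = 0 := by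
    intro e he
    apply hzero
    exact ((h1 e he).mul χ (h2 e he)).mono χ (by omega)
  have hA : ∀ e ∈ s, e ≠ e₀ → (c e * A e).coeff (g₀ * h) = 0 := by
    intro e he hne
    rcases h4 e he hne with h5 | ⟨h5, h6⟩
    · rw [h5, mul_zero]
      rfl
    · apply hzero
      exact (h6.mul χ h5).mono χ (by omega)
  have hcoef : (∑ e ∈ s, c e * (A e + B e)).coeff (g₀ * h) = (c e₀).coeff g₀ * z := by
    rw [coeff_sum, Finsupp.finsetSum_apply, Finset.sum_eq_single e₀]
    · rw [mul_add, coeff_add, Finsupp.add_apply, hB e₀ he₀, add_zero, h3, coeff_mul_single_apply,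
        mul_inv_cancel_right]
    · intro e he hne
      rw [mul_add, coeff_add, Finsupp.add_apply, hB e he, hA e he hne, add_zero]
    · intro h5
      exact absurd he₀ h5
  rw [hsum] at hcoef
  exact mul_ne_zero hg₀ hz hcoef.symm

open Classical in
theorem new_zero {L : Type v} [LinearOrder L] (fwd : L → Bool)
    (hπ : ∀ r, π (rel₀ r) = 1) (hw : ∀ o, π (w o) = Multiplicative.ofAdd 1)
    (lev : V → L) (elev : E → L)
    (hi : ∀ e v, i e = Sum.inr v → lev v ≤ elev e) (ht : ∀ e v, t e = Sum.inr v → lev v ≤ elev e)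
    (hl : ∀ e v, l e = Sum.inr v → lev v ≤ elev e) (leaf : LeafyLevels i t l lev elev fwd)
    (c : R₀ ⊕ E →₀ MonoidAlgebra ℤ (PGrp (logRel rel₀ w i t l)))
    (hc : bdry (logRel rel₀ w i t l) c = 0) : ∀ e, c (Sum.inr e) = 0 := by
  by_contra hne
  push Not at hne
  obtain ⟨e₁, he₁⟩ := hne
  let G := PGrp (logRel rel₀ w i t l)
  let ρ : FreeGroup (X₀ ⊕ V) →* G := PresentedGroup.mk _
  let χ : G →* Multiplicative ℤ := degLog rel₀ w i t l π hπ hw
  have hχ : ∀ y, (χ (ρ (vword w y))).toAdd = 1 := fun y => by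
    have : χ (ρ (vword w y)) = degL π V (vword w y) := rfl
    rw [this, degL_vword w π hw]
    rfl
  -- the top level
  set T := c.support.toRight with hT
  have hTmem : ∀ e, e ∈ T ↔ c (Sum.inr e) ≠ 0 := fun e => by
    rw [hT, Finset.mem_toRight, Finsupp.mem_support_iff]
  obtain ⟨e₂, he₂, hmax⟩ := Finset.exists_max_image T elev ⟨e₁, (hTmem e₁).2 he₁⟩
  set a := elev e₂ with ha
  set s := T.filter fun e => elev e = a with hs
  have hsne : s.Nonempty := ⟨e₂, Finset.mem_filter.2 ⟨he₂, rfl⟩⟩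
  have hsT : ∀ e ∈ s, c (Sum.inr e) ≠ 0 ∧ elev e = a := fun e he =>
    ⟨(hTmem e).1 (Finset.mem_filter.1 he).1, (Finset.mem_filter.1 he).2⟩
  -- columns of level `a`
  have hcol : ∀ v, lev v = a → ∑ e ∈ s, c (Sum.inr e) *
      fox ρ (logRel rel₀ w i t l (Sum.inr e)) (Sum.inr v) = 0 := by
    intro v hv
    have h1 : (∑ r ∈ c.support, c r * fox ρ (logRel rel₀ w i t l r) (Sum.inr v)) = 0 :=
      congrFun hc (Sum.inr v)
    rw [Finset.sum_sum_eq_sum_toLeft_add_sum_toRight, Finset.sum_eq_zero (s := c.support.toLeft),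
      zero_add] at h1
    swap
    · intro r _
      change _ * fox ρ (oldW V (rel₀ r)) (Sum.inr v) = 0
      rw [fox_map_of_notMem Sum.inl ρ (rel₀ r) (Sum.inr v) (by simp), mul_zero]
    rw [← h1]
    refine Finset.sum_subset (Finset.filter_subset _ _) fun e he hes => ?_
    have h2 : elev e ≠ a := fun h => hes (Finset.mem_filter.2 ⟨he, h⟩)
    have h3 : elev e < a := lt_of_le_of_ne (hmax e he) h2
    have h4 : i e ≠ Sum.inr v := fun h => absurd (hi e v h) (by rw [hv]; exact not_le.2 h3)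
    have h5 : t e ≠ Sum.inr v := fun h => absurd (ht e v h) (by rw [hv]; exact not_le.2 h3)
    have h6 : l e ≠ Sum.inr v := fun h => absurd (hl e v h) (by rw [hv]; exact not_le.2 h3)
    have h7 := fox_edge rel₀ w i t l e v
    rw [if_neg h4, if_neg h5, if_neg h6] at h7
    have h8 : fox ρ (logRel rel₀ w i t l (Sum.inr e)) (Sum.inr v) = 0 := by
      rw [h7]; simp
    rw [h8, mul_zero]
  by_cases hf : fwd a = true
  · -- lowest degree
    obtain ⟨m, hm, e₃, he₃, g₃, hg₃, hd₃⟩ := pick χ s hsne (fun e => c (Sum.inr e))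
      (fun e he => (hsT e he).1)
    obtain ⟨e₀, he₀, v, hv, hv1, hv2⟩ := leaf a
      (s.filter fun e => ∃ g, (c (Sum.inr e)).coeff g ≠ 0 ∧ (χ g).toAdd = m)
      ⟨e₃, Finset.mem_filter.2 ⟨he₃, g₃, hg₃, hd₃⟩⟩
      (fun e he => (hsT e (Finset.mem_filter.1 he).1).2)
    obtain ⟨he₀s, g₀, hg₀, hd₀⟩ := Finset.mem_filter.1 he₀
    have hfoot : ∀ e ∈ s, foot i t elev fwd e = i e := fun e he => by
      unfold foot
      rw [(hsT e he).2, if_pos hf]
    let A : E → MonoidAlgebra ℤ G := fun e =>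
      (if i e = Sum.inr v then 1 else 0) - (if l e = Sum.inr v then 1 else 0)
    let B : E → MonoidAlgebra ℤ G := fun e =>
      (if l e = Sum.inr v then single (ρ (vword w (i e))) 1 else 0) -
      (if t e = Sum.inr v then single (ρ (vword w (l e))) 1 else 0)
    have hAB : ∀ e, fox ρ (logRel rel₀ w i t l (Sum.inr e)) (Sum.inr v) = A e + B e := by
      intro e
      have h7 := fox_edge rel₀ w i t l e v
      refine h7.trans ?_
      simp only [A, B]
      split_ifs <;> abel
    have hdA : ∀ e, DegGE χ (A e) 0 := by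
      intro e
      simp only [A, sub_eq_add_neg]
      have h1 : DegGE χ (1 : MonoidAlgebra ℤ G) 0 := by
        have := degGE_single χ (1 : G) 1
        rw [map_one] at this
        exact this
      refine DegGE.add χ ?_ (DegGE.neg χ ?_)
      · split_ifs
        · exact h1
        · exact degGE_zero χ 0
      · split_ifs
        · exact h1
        · exact degGE_zero χ 0
    have hdB : ∀ e, DegGE χ (B e) (0 + 1) := by
      intro e
      simp only [B, sub_eq_add_neg]
      refine DegGE.add χ ?_ (DegGE.neg χ ?_)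
      · split_ifs
        · exact (degGE_single χ _ _).mono χ (by rw [hχ]; norm_num)
        · exact degGE_zero χ _
      · split_ifs
        · exact (degGE_single χ _ _).mono χ (by rw [hχ]; norm_num)
        · exact degGE_zero χ _
    rw [hfoot e₀ he₀s] at hv1
    obtain ⟨z, hz, hA₀⟩ : ∃ z : ℤ, z ≠ 0 ∧ A e₀ = single 1 z := by
      rcases hv1 with ⟨h1, h2⟩ | ⟨h1, h2⟩
      · exact ⟨1, one_ne_zero, by simp [A, h1, h2, one_def]⟩
      · exact ⟨-1, by norm_num, by simp [A, h1, h2, one_def, single_neg]⟩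
    refine no_cancel χ s (fun e => c (Sum.inr e)) A B m 0 e₀ he₀s g₀ hg₀ hd₀ hm
      (fun e _ => hdB e) 1 z hz hA₀ (by rw [map_one]; rfl) ?_ ?_
    · intro e he hne'
      by_cases h1 : ∃ g, (c (Sum.inr e)).coeff g ≠ 0 ∧ (χ g).toAdd = m
      · left
        have h2 := hv2 e (Finset.mem_filter.2 ⟨he, h1⟩) hne'
        rw [hfoot e he] at h2
        simp [A, h2.1, h2.2]
      · right
        refine ⟨hdA e, fun g hg => ?_⟩
        have h2 := hm e he g hg
        have h3 : (χ g).toAdd ≠ m := fun h => h1 ⟨g, hg, h⟩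
        omega
    · rw [← hcol v hv]
      exact Finset.sum_congr rfl fun e _ => by rw [hAB]
  · -- highest degree
    let χ' : G →* Multiplicative ℤ := χ⁻¹
    have hχ' : ∀ y, (χ' (ρ (vword w y))).toAdd = -1 := fun y => by
      change -(χ (ρ (vword w y))).toAdd = -1
      rw [hχ]
    obtain ⟨m, hm, e₃, he₃, g₃, hg₃, hd₃⟩ := pick χ' s hsne (fun e => c (Sum.inr e))
      (fun e he => (hsT e he).1)
    obtain ⟨e₀, he₀, v, hv, hv1, hv2⟩ := leaf a
      (s.filter fun e => ∃ g, (c (Sum.inr e)).coeff g ≠ 0 ∧ (χ' g).toAdd = m)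
      ⟨e₃, Finset.mem_filter.2 ⟨he₃, g₃, hg₃, hd₃⟩⟩
      (fun e he => (hsT e (Finset.mem_filter.1 he).1).2)
    obtain ⟨he₀s, g₀, hg₀, hd₀⟩ := Finset.mem_filter.1 he₀
    have hfoot : ∀ e ∈ s, foot i t elev fwd e = t e := fun e he => by
      unfold foot
      rw [(hsT e he).2, if_neg hf]
    let A : E → MonoidAlgebra ℤ G := fun e =>
      (if l e = Sum.inr v then single (ρ (vword w (i e))) 1 else 0) -
      (if t e = Sum.inr v then single (ρ (vword w (l e))) 1 else 0)
    let B : E → MonoidAlgebra ℤ G := fun e =>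
      (if i e = Sum.inr v then 1 else 0) - (if l e = Sum.inr v then 1 else 0)
    have hAB : ∀ e, fox ρ (logRel rel₀ w i t l (Sum.inr e)) (Sum.inr v) = A e + B e := by
      intro e
      have h7 := fox_edge rel₀ w i t l e v
      refine h7.trans ?_
      simp only [A, B]
      split_ifs <;> abel
    have hdB : ∀ e, DegGE χ' (B e) (-1 + 1) := by
      intro e
      simp only [B, sub_eq_add_neg]
      have h1 : DegGE χ' (1 : MonoidAlgebra ℤ G) (-1 + 1) := by
        have := degGE_single χ' (1 : G) 1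
        rw [map_one] at this
        exact this
      refine DegGE.add χ' ?_ (DegGE.neg χ' ?_)
      · split_ifs
        · exact h1
        · exact degGE_zero χ' _
      · split_ifs
        · exact h1
        · exact degGE_zero χ' _
    have hdA : ∀ e, DegGE χ' (A e) (-1) := by
      intro e
      simp only [A, sub_eq_add_neg]
      refine DegGE.add χ' ?_ (DegGE.neg χ' ?_)
      · split_ifs
        · exact (degGE_single χ' _ _).mono χ' (by rw [hχ'])
        · exact degGE_zero χ' _
      · split_ifs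
        · exact (degGE_single χ' _ _).mono χ' (by rw [hχ'])
        · exact degGE_zero χ' _
    rw [hfoot e₀ he₀s] at hv1
    obtain ⟨h, z, hz, hA₀, hh⟩ : ∃ (h : G) (z : ℤ), z ≠ 0 ∧ A e₀ = single h z ∧
        (χ' h).toAdd = -1 := by
      rcases hv1 with ⟨h1, h2⟩ | ⟨h1, h2⟩
      · exact ⟨ρ (vword w (l e₀)), -1, by norm_num, by simp [A, h1, h2, single_neg], hχ' _⟩
      · exact ⟨ρ (vword w (i e₀)), 1, one_ne_zero, by simp [A, h1, h2], hχ' _⟩
    refine no_cancel χ' s (fun e => c (Sum.inr e)) A B m (-1) e₀ he₀s g₀ hg₀ hd₀ hm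
      (fun e _ => hdB e) h z hz hA₀ hh ?_ ?_
    · intro e he hne'
      by_cases h1 : ∃ g, (c (Sum.inr e)).coeff g ≠ 0 ∧ (χ' g).toAdd = m
      · left
        have h2 := hv2 e (Finset.mem_filter.2 ⟨he, h1⟩) hne'
        rw [hfoot e he] at h2
        simp [A, h2.1, h2.2]
      · right
        refine ⟨hdA e, fun g hg => ?_⟩
        have h2 := hm e he g hg
        have h3 : (χ' g).toAdd ≠ m := fun h => h1 ⟨g, hg, h⟩
        omega
    · rw [← hcol v hv]
      exact Finset.sum_congr rfl fun e _ => by rw [hAB]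

theorem log_aspherical_new {L : Type v} [LinearOrder L] (fwd : L → Bool)
    (hπ : ∀ r, π (rel₀ r) = 1) (hw : ∀ o, π (w o) = Multiplicative.ofAdd 1)
    (lev : V → L) (elev : E → L)
    (hi : ∀ e v, i e = Sum.inr v → lev v ≤ elev e) (ht : ∀ e v, t e = Sum.inr v → lev v ≤ elev e)
    (hl : ∀ e v, l e = Sum.inr v → lev v ≤ elev e) (leaf : LeafyLevels i t l lev elev fwd)
    (hasph : Aspherical rel₀) : Aspherical (logRel rel₀ w i t l) := by
  classical
  intro c hc
  let G := PGrp (logRel rel₀ w i t l)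
  let ρ : FreeGroup (X₀ ⊕ V) →* G := PresentedGroup.mk _
  have hc2 := new_zero rel₀ w i t l π fwd hπ hw lev elev hi ht hl leaf c hc
  have hsplit : ∀ y : X₀ ⊕ V,
      (∑ r ∈ c.support.toLeft, c (Sum.inl r) * fox ρ (oldW V (rel₀ r)) y) = 0 := by
    intro y
    have h1 : (∑ r ∈ c.support, c r * fox ρ (logRel rel₀ w i t l r) y) = 0 := congrFun hc y
    rw [Finset.sum_sum_eq_sum_toLeft_add_sum_toRight,
      Finset.sum_eq_zero (s := c.support.toRight), add_zero] at h1
    · exact h1
    · intro e _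
      rw [hc2, zero_mul]
  have hinj := inclLog_injective rel₀ w i t l π fwd hπ hw lev elev hi ht hl leaf
  have hc1 : ∀ r, c (Sum.inl r) = 0 := by
    intro r
    apply cos_eq_zero (inclLog rel₀ w i t l) hinj
    intro h
    let c₀ : R₀ →₀ MonoidAlgebra ℤ (PGrp rel₀) := Finsupp.onFinset c.support.toLeft
      (fun r => cos (inclLog rel₀ w i t l) hinj h (c (Sum.inl r))) (by
        intro r hr
        rw [Finset.mem_toLeft, Finsupp.mem_support_iff]
        intro h'
        apply hr
        rw [h', cos_zero])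
    have h1 : c₀ = 0 := by
      apply hasph
      funext x
      have h2 := hsplit (Sum.inl x)
      have h3 : bdry rel₀ c₀ x = ∑ r ∈ c.support.toLeft,
          cos (inclLog rel₀ w i t l) hinj h (c (Sum.inl r)) *
            fox (PresentedGroup.mk _) (rel₀ r) x :=
        Finsupp.onFinset_sum _ fun _ => zero_mul _
      rw [h3]
      have h4 := congrArg (cos (inclLog rel₀ w i t l) hinj h) h2
      rw [cos_zero, cos_sum] at h4
      rw [Pi.zero_apply, ← h4]
      refine Finset.sum_congr rfl fun r _ => ?_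
      rw [fox_map Sum.inl Sum.inl_injective (PresentedGroup.mk (Set.range rel₀)) ρ
        (inclLog rel₀ w i t l) (inclLog_mk rel₀ w i t l) (rel₀ r) x, cos_mul]
    have h5 : c₀ r = 0 := by rw [h1]; rfl
    exact h5
  ext r : 1
  rcases r with r | e
  · exact hc1 r
  · exact hc2 e

theorem log_aspherical_old {L : Type v} [LinearOrder L] (fwd : L → Bool)
    (hπ : ∀ r, π (rel₀ r) = 1) (hw : ∀ o, π (w o) = Multiplicative.ofAdd 1)
    (lev : V → L) (elev : E → L)
    (hi : ∀ e v, i e = Sum.inr v → lev v ≤ elev e) (ht : ∀ e v, t e = Sum.inr v → lev v ≤ elev e)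
    (hl : ∀ e v, l e = Sum.inr v → lev v ≤ elev e) (leaf : LeafyLevels i t l lev elev fwd)
    (hasph : Aspherical (logRel rel₀ w i t l)) : Aspherical rel₀ := by
  classical
  intro c₀ hc
  have hinj := inclLog_injective rel₀ w i t l π fwd hπ hw lev elev hi ht hl leaf
  let G := PGrp (logRel rel₀ w i t l)
  let ρ : FreeGroup (X₀ ⊕ V) →* G := PresentedGroup.mk _
  let f : R₀ ⊕ E → MonoidAlgebra ℤ G :=
    Sum.elim (fun r => mapDomain (inclLog rel₀ w i t l) (c₀ r)) (fun _ => 0)
  have hf : ∀ r, f r ≠ 0 → r ∈ c₀.support.disjSum (∅ : Finset E) := by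
    rintro (r | e) hr
    · rw [Finset.inl_mem_disjSum, Finsupp.mem_support_iff]
      intro h
      apply hr
      change mapDomain (inclLog rel₀ w i t l) (c₀ r) = 0
      rw [h, mapDomain_zero]
    · exact absurd rfl hr
  let c : R₀ ⊕ E →₀ MonoidAlgebra ℤ G := Finsupp.onFinset (c₀.support.disjSum ∅) f hf
  have h1 : c = 0 := by
    apply hasph
    funext y
    have h2 : bdry (logRel rel₀ w i t l) c y =
        ∑ r ∈ c₀.support.disjSum (∅ : Finset E), f r * fox ρ (logRel rel₀ w i t l r) y :=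
      Finsupp.onFinset_sum _ fun _ => zero_mul _
    rw [h2, Finset.sum_disjSum, Finset.sum_empty, add_zero]
    rcases y with x | v
    · have h3 : ∀ r ∈ c₀.support,
          f (Sum.inl r) * fox ρ (logRel rel₀ w i t l (Sum.inl r)) (Sum.inl x) =
          mapDomainRingHom ℤ (inclLog rel₀ w i t l)
            (c₀ r * fox (PresentedGroup.mk _) (rel₀ r) x) := by
        intro r _
        rw [map_mul, mapDomainRingHom_apply, mapDomainRingHom_apply]
        change mapDomain (inclLog rel₀ w i t l) (c₀ r) *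
          fox ρ (oldW V (rel₀ r)) (Sum.inl x) = _
        rw [fox_map Sum.inl Sum.inl_injective (PresentedGroup.mk (Set.range rel₀)) ρ
          (inclLog rel₀ w i t l) (inclLog_mk rel₀ w i t l) (rel₀ r) x]
      rw [Finset.sum_congr rfl h3, ← map_sum]
      have h4 : (∑ r ∈ c₀.support, c₀ r * fox (PresentedGroup.mk _) (rel₀ r) x) = 0 :=
        congrFun hc x
      rw [h4, map_zero]
      rfl
    · refine Finset.sum_eq_zero fun r _ => ?_
      change _ * fox ρ (oldW V (rel₀ r)) (Sum.inr v) = 0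
      rw [fox_map_of_notMem Sum.inl ρ (rel₀ r) (Sum.inr v) (by simp), mul_zero]
  ext r : 1
  apply mapDomain_injective hinj
  have h2 : c (Sum.inl r) = 0 := by rw [h1]; rfl
  rw [Finsupp.zero_apply, mapDomain_zero]
  exact h2

end

end

end Pool.Agent.TH309.LF
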