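import Pool.Agent.TH309.LF.Base

/-!
# Adding one layer of a labelled oriented graph
-/

set_option autoImplicit false

namespace Pool.Agent.TH309.LF

universe u

open Filter

noncomputable section

/-- evaluation of old and new vertices -/
def ev {G₀ G : Type*} [Group G₀] [Group G] {O N : Type*} (old : O → G₀) (ι : G₀ →* G)
    (g : N → G) : O ⊕ N → G := Sum.elim (fun o => ι (old o)) g

/-- `(G, ι, g)` is the group obtained from `G₀` by adding generators `g v`, one for each `v : N`,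
and relations `i(e) l(e) = l(e) t(e)`, one for each `e : E`. -/
structure IsGrp {G₀ G O N E : Type u} [Group G₀] [Group G] (old : O → G₀) (i t l : E → O ⊕ N)
    (ι : G₀ →* G) (g : N → G) : Prop where
  rel : ∀ e, ev old ι g (i e) * ev old ι g (l e) = ev old ι g (l e) * ev old ι g (t e)
  gen : Subgroup.closure (Set.range ι ∪ Set.range g) = ⊤
  univ : ∀ (Q : Type u) [Group Q] (f : G₀ →* Q) (y : N → Q),
    (∀ e, ev old f y (i e) * ev old f y (l e) = ev old f y (l e) * ev old f y (t e)) →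
    ∃ F : G →* Q, (∀ x, F (ι x) = f x) ∧ ∀ v, F (g v) = y v

theorem core {G₀ G A O N E : Type u} [Group G₀] [Group G] [Group A]
    {old : O → G₀} {i t l : E → O ⊕ N} {ι : G₀ →* G} {g : N → G} (h : IsGrp old i t l ι g)
    (π : G₀ →* Multiplicative ℤ) (hold : ∀ o, π (old o) = Multiplicative.ofAdd 1)
    (t₀ : G₀) (ht₀ : π t₀ = Multiplicative.ofAdd 1) (hmem : ∀ o, t₀⁻¹ * old o ∈ π.ker)
    (φ : A →* A) (κ : π.ker →* A) (hκ : Function.Injective κ)
    (hφ : ∀ k : π.ker, φ (κ k) = κ (MulAut.conjNormal t₀⁻¹ k))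
    (x : O ⊕ N → A) (hxo : ∀ o, x (Sum.inl o) = κ ⟨t₀⁻¹ * old o, hmem o⟩)
    (hxe : ∀ e, φ ((x (l e))⁻¹ * x (i e)) = x (t e) * (x (l e))⁻¹)
    (q : A →* G) (hqκ : ∀ k : π.ker, q (κ k) = ι k)
    (hqφ : ∀ a, q (φ a) = (ι t₀)⁻¹ * q a * ι t₀)
    (hqx : ∀ w, q (x w) = (ι t₀)⁻¹ * ev old ι g w)
    (hΦ : ∀ Φ : G →* Tor A, (∀ k : π.ker, Φ (ι k) = Gam φ (κ k)) → Φ (ι t₀) = TT A →
      (∀ w, Φ (ev old ι g w) = TT A * Gam φ (x w)) → ∀ a, Φ (q a) = Gam φ a)
    (hA : Horn A) : Horn G ∧ Function.Injective ι := by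
  -- the homomorphism to the ambient group
  set f := baseHom π t₀ ht₀ φ κ hφ with hf
  have hold' : ∀ o, f (old o) = TT A * Gam φ (x (Sum.inl o)) := by
    intro o
    rw [hxo, hf, baseHom_one π t₀ ht₀ φ κ hφ (old o) (by simp [zee, hold]) (hmem o)]
  have hev : ∀ w, ev old f (fun v => TT A * Gam φ (x (Sum.inr v))) w = TT A * Gam φ (x w) := by
    rintro (o | v)
    · exact hold' o
    · rfl
  obtain ⟨Φ, hΦ1, hΦ2⟩ := h.univ (Tor A) f (fun v => TT A * Gam φ (x (Sum.inr v))) (by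
    intro e
    rw [hev, hev, hev]
    have h1 := TT_conj φ ((x (l e))⁻¹ * x (i e))
    rw [hxe, map_mul, map_mul, map_inv] at h1
    -- `Γx_i T Γx_l = Γx_l T Γx_t`
    have h2 : Gam φ (x (i e)) * TT A = Gam φ (x (l e)) * TT A *
        (Gam φ (x (t e)) * (Gam φ (x (l e)))⁻¹) := by
      rw [← h1]; group
    calc TT A * Gam φ (x (i e)) * (TT A * Gam φ (x (l e)))
        = TT A * (Gam φ (x (i e)) * TT A) * Gam φ (x (l e)) := by group
      _ = TT A * Gam φ (x (l e)) * (TT A * Gam φ (x (t e))) := by rw [h2]; group)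
  have hΦt : Φ (ι t₀) = TT A := by
    rw [hΦ1, hf, baseHom_t]
  have hΦw : ∀ w, Φ (ev old ι g w) = TT A * Gam φ (x w) := by
    rintro (o | v)
    · change Φ (ι (old o)) = _
      rw [hΦ1, hold']
    · exact hΦ2 v
  have hΦq : ∀ a, Φ (q a) = Gam φ a := hΦ Φ (fun k => by rw [hΦ1, hf, baseHom_ker]) hΦt hΦw
  -- normal forms
  set T := ι t₀ with hT
  have hqn : ∀ (n : ℕ) (a : A), q (φ^[n] a) = (T ^ (n : ℤ))⁻¹ * q a * T ^ (n : ℤ) := by
    intro n
    induction n with
    | zero => intro a; simp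
    | succ n ih =>
      intro a
      rw [Function.iterate_succ_apply, ih, hqφ]
      push_cast
      rw [zpow_add, zpow_one]
      group
  have hP : ∀ (m : ℤ) (n : ℕ) (a : A),
      T ^ m * q a * (T ^ m)⁻¹ = T ^ (m + n) * q (φ^[n] a) * (T ^ (m + n))⁻¹ := by
    intro m n a
    rw [hqn, zpow_add]
    group
  let X : Subgroup G :=
    { carrier := {y | ∃ (m k : ℤ) (a : A), y = T ^ m * q a * (T ^ m)⁻¹ * T ^ k}
      one_mem' := ⟨0, 0, 1, by simp⟩
      mul_mem' := by
        rintro _ _ ⟨m, k, a, rfl⟩ ⟨m', k', a', rfl⟩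
        -- common exponent `M = max m (m' + k)`
        obtain ⟨n, n', hn⟩ : ∃ n n' : ℕ, m + n = m' + k + n' := by
          refine ⟨(m' + k - m).toNat, (m - (m' + k)).toNat, ?_⟩
          omega
        refine ⟨m + n, k + k', φ^[n] a * φ^[n'] a', ?_⟩
        have h1 : T ^ m * q a * (T ^ m)⁻¹ * T ^ k * (T ^ m' * q a' * (T ^ m')⁻¹ * T ^ k') =
            (T ^ m * q a * (T ^ m)⁻¹) * (T ^ (m' + k) * q a' * (T ^ (m' + k))⁻¹) *
              T ^ (k + k') := by
          rw [add_comm m' k, zpow_add, zpow_add]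
          group
        rw [h1, hP m n a, hP (m' + k) n' a', hn, map_mul]
        group
      inv_mem' := by
        rintro _ ⟨m, k, a, rfl⟩
        refine ⟨m - k, -k, a⁻¹, ?_⟩
        rw [sub_eq_add_neg, add_comm m, zpow_add, map_inv]
        group }
  have hXT : T ∈ X := ⟨0, 1, 1, by simp⟩
  have hXq : ∀ a, q a ∈ X := fun a => ⟨0, 0, a, by simp⟩
  have hXev : ∀ w, ev old ι g w ∈ X := by
    intro w
    have h1 : ev old ι g w = T * q (x w) := by rw [hqx]; group
    rw [h1]
    exact X.mul_mem hXT (hXq _)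
  have hXι : ∀ y, ι y ∈ X := by
    intro y
    have h1 : y = t₀ ^ (zee π y) * (kk π t₀ ht₀ y : G₀) := by
      simp [kk]
    rw [h1, map_mul, map_zpow, ← hqκ]
    exact X.mul_mem (X.zpow_mem hXT _) (hXq _)
  have hXtop : ∀ y, y ∈ X := by
    intro y
    have h1 : (⊤ : Subgroup G) ≤ X := by
      rw [← h.gen, Subgroup.closure_le]
      rintro _ (⟨y, rfl⟩ | ⟨v, rfl⟩)
      · exact hXι y
      · exact hXev (Sum.inr v)
    exact h1 trivial
  have hinj : Function.Injective Φ := by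
    rw [injective_iff_map_eq_one]
    intro y hy
    obtain ⟨m, k, a, rfl⟩ := hXtop y
    have h1 : Φ (T ^ m * q a * (T ^ m)⁻¹ * T ^ k) =
        TT A ^ m * Gam φ a * (TT A ^ m)⁻¹ * TT A ^ k := by
      simp only [map_mul, map_inv, map_zpow, hΦt, hΦq]
    rw [h1] at hy
    have h2 : k = 0 := by
      have h3 := congrArg (SemidirectProduct.rightHom (φ := shA A)) hy
      simp only [map_mul, map_inv, map_zpow, Gam, MonoidHom.comp_apply,
        SemidirectProduct.rightHom_inl, TT, SemidirectProduct.rightHom_inr, map_one, mul_one,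
        mul_inv_cancel, one_mul] at h3
      have h4 := congrArg Multiplicative.toAdd h3
      simpa using h4
    subst h2
    have h3 : Gam φ a = 1 := by
      rw [zpow_zero, mul_one] at hy
      have : Gam φ a = (TT A ^ m)⁻¹ * (TT A ^ m * Gam φ a * (TT A ^ m)⁻¹) * TT A ^ m := by group
      rw [this, hy]
      group
    obtain ⟨n, hn⟩ := Gam_eq_one φ a h3
    rw [hP m n a, hn, map_one]
    group
  refine ⟨Horn.of_injective Φ hinj (horn_Tor A hA), ?_⟩
  -- the old group embeds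
  have hφn : ∀ (n : ℕ) (k : π.ker), φ^[n] (κ k) = 1 → k = 1 := by
    intro n
    induction n with
    | zero => intro k hk; exact hκ (by rw [map_one]; exact hk)
    | succ n ih =>
      intro k hk
      rw [Function.iterate_succ_apply, hφ] at hk
      have h1 := ih _ hk
      exact (MulAut.conjNormal t₀⁻¹).injective (by rw [h1, map_one])
  rw [injective_iff_map_eq_one]
  intro y hy
  have h1 : Φ (ι y) = 1 := by rw [hy, map_one]
  have h2 : f y = TT A ^ (zee π y) * Gam φ (κ (kk π t₀ ht₀ y)) := rfl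
  rw [hΦ1, h2] at h1
  have h3 : zee π y = 0 := by
    have h4 := congrArg (SemidirectProduct.rightHom (φ := shA A)) h1
    simp only [map_mul, map_zpow, Gam, MonoidHom.comp_apply,
      SemidirectProduct.rightHom_inl, TT, SemidirectProduct.rightHom_inr, map_one, mul_one] at h4
    have h5 := congrArg Multiplicative.toAdd h4
    simpa using h5
  rw [h3, zpow_zero, one_mul] at h1
  obtain ⟨n, hn⟩ := Gam_eq_one φ _ h1
  have h4 := hφn n _ hn
  have h5 := congrArg Subtype.val h4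
  simpa [kk, h3] using h5

/-- One layer. -/
theorem step {G₀ G O N E : Type u} [Group G₀] [Group G] [Fintype E]
    {old : O → G₀} {i t l : E → O ⊕ N} {ι : G₀ →* G} {g : N → G} (h : IsGrp old i t l ι g)
    (π : G₀ →* Multiplicative ℤ) (hold : ∀ o, π (old o) = Multiplicative.ofAdd 1)
    (t₀ : G₀) (ht₀ : π t₀ = Multiplicative.ofAdd 1) (hG₀ : Horn G₀)
    (leaf : Leafy i l (Finset.univ : Finset E)) : Horn G ∧ Function.Injective ι := by
  classical
  obtain ⟨W, hex, huniq⟩ := solve i l _ Finset.univ rfl leaf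
  have hmem : ∀ o, t₀⁻¹ * old o ∈ π.ker := by
    intro o
    rw [MonoidHom.mem_ker, map_mul, map_inv, hold, ht₀]
    simp
  let J : Type u := E ⊕ ({v : N // v ∉ W} × ULift.{u} ℕ)
  let A : Type u := FP π.ker J
  let x₀ : O ⊕ N → A := Sum.elim (fun o => kap ⟨t₀⁻¹ * old o, hmem o⟩)
    (fun v => if hv : v ∉ W then bet (Sum.inr (⟨v, hv⟩, ⟨0⟩)) else 1)
  obtain ⟨x, hx1, hx2⟩ := hex A x₀ (fun e => bet (Sum.inl e))
  let cj : π.ker →* π.ker := (MulAut.conjNormal t₀⁻¹ : MulAut π.ker).toMonoidHom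
  let φ : A →* A := FP.lift (kap.comp cj)
    (Sum.elim (fun e => x (t e) * (x (l e))⁻¹) (fun p => bet (Sum.inr (p.1, ⟨p.2.down + 1⟩))))
  let T := ι t₀
  let q : A →* G := FP.lift (ι.comp π.ker.subtype)
    (Sum.elim (fun e => (ev old ι g (l e))⁻¹ * ev old ι g (i e))
      (fun p => (T ^ p.2.down)⁻¹ * (T⁻¹ * g p.1) * T ^ p.2.down))
  have hφκ : ∀ k : π.ker, φ (kap k) = kap (MulAut.conjNormal t₀⁻¹ k) := fun k =>
    FP.lift_kap _ _ k
  have hφe : ∀ e, φ (bet (Sum.inl e)) = x (t e) * (x (l e))⁻¹ := fun e => FP.lift_bet _ _ _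
  have hφr : ∀ p, φ (bet (Sum.inr p)) = bet (Sum.inr (p.1, ⟨p.2.down + 1⟩)) := fun p =>
    FP.lift_bet _ _ _
  have hqκ : ∀ k : π.ker, q (kap k) = ι k := fun k => FP.lift_kap _ _ k
  have hqe : ∀ e, q (bet (Sum.inl e)) = (ev old ι g (l e))⁻¹ * ev old ι g (i e) := fun e =>
    FP.lift_bet _ _ _
  have hqr : ∀ p, q (bet (Sum.inr p)) = (T ^ p.2.down)⁻¹ * (T⁻¹ * g p.1) * T ^ p.2.down :=
    fun p => FP.lift_bet _ _ _
  have hxo : ∀ o, x (Sum.inl o) = kap ⟨t₀⁻¹ * old o, hmem o⟩ := fun o =>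
    hx1 (Sum.inl o) (fun v _ => by simp)
  have hxr : ∀ v (hv : v ∉ W), x (Sum.inr v) = bet (Sum.inr (⟨v, hv⟩, ⟨0⟩)) := by
    intro v hv
    rw [hx1 (Sum.inr v) (fun v' hv' hvv => hv (by rw [Sum.inr.inj hvv]; exact hv'))]
    exact dif_pos hv
  have hxe : ∀ e, (x (l e))⁻¹ * x (i e) = bet (Sum.inl e) := fun e => hx2 e (Finset.mem_univ e)
  -- `q (x w) = T⁻¹ [w]`
  have hqx : ∀ w, q (x w) = T⁻¹ * ev old ι g w := by
    have := huniq G (fun w => q (x w)) (fun w => T⁻¹ * ev old ι g w) (by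
      rintro (o | v) hw
      · change q (x (Sum.inl o)) = T⁻¹ * ι (old o)
        rw [hxo, hqκ]
        simp [T]
      · have hv : v ∉ W := fun hv => hw v hv rfl
        change q (x (Sum.inr v)) = T⁻¹ * g v
        rw [hxr v hv, hqr]
        simp) (by
      intro e _
      change (q (x (l e)))⁻¹ * q (x (i e)) = (T⁻¹ * ev old ι g (l e))⁻¹ * (T⁻¹ * ev old ι g (i e))
      rw [← map_inv, ← map_mul, hxe, hqe]
      group)
    exact fun w => congrFun this w
  have hqφ : ∀ a, q (φ a) = T⁻¹ * q a * T := by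
    have h1 : q.comp φ = ((MulAut.conj T⁻¹).toMonoidHom : G →* G).comp q := by
      apply FP.hom_ext
      · intro k
        simp only [MonoidHom.comp_apply, MulEquiv.toMonoidHom_eq_coe, MonoidHom.coe_coe,
          MulAut.conj_apply, inv_inv]
        rw [hφκ, hqκ, hqκ, MulAut.conjNormal_apply]
        simp [T]
      · intro j
        simp only [MonoidHom.comp_apply, MulEquiv.toMonoidHom_eq_coe, MonoidHom.coe_coe,
          MulAut.conj_apply, inv_inv]
        rcases j with e | p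
        · rw [hφe, hqe, map_mul, map_inv, hqx, hqx]
          have h2 := h.rel e
          have h3 : ev old ι g (t e) * (ev old ι g (l e))⁻¹ =
              (ev old ι g (l e))⁻¹ * ev old ι g (i e) := by
            rw [eq_inv_mul_iff_mul_eq, ← mul_assoc, ← h2]
            group
          calc T⁻¹ * ev old ι g (t e) * (T⁻¹ * ev old ι g (l e))⁻¹
              = T⁻¹ * (ev old ι g (t e) * (ev old ι g (l e))⁻¹) * T := by group
            _ = _ := by rw [h3]
        · rw [hφr, hqr, hqr]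
          simp only [pow_succ]
          group
    intro a
    have := DFunLike.congr_fun h1 a
    simpa [MulAut.conj_apply] using this
  refine core h π hold t₀ ht₀ hmem φ kap SemidirectProduct.inr_injective hφκ x hxo (fun e => by rw [hxe, hφe]) q hqκ hqφ hqx ?_
    (horn_FP (hG₀.subgroup _))
  intro Φ hΦ1 hΦ2 hΦ3
  have hTn : ∀ (n : ℕ) (a : A), (TT A ^ n)⁻¹ * Gam φ a * TT A ^ n = Gam φ (φ^[n] a) := by
    intro n
    induction n with
    | zero => intro a; simp
    | succ n ih =>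
      intro a
      rw [Function.iterate_succ_apply, ← ih (φ a), ← TT_conj, pow_succ']
      group
  have hφn : ∀ (n : ℕ) (r : {v : N // v ∉ W}),
      φ^[n] (bet (Sum.inr (r, ⟨0⟩))) = bet (Sum.inr (r, ⟨n⟩)) := by
    intro n r
    induction n with
    | zero => rfl
    | succ n ih => rw [Function.iterate_succ_apply', ih, hφr]
  have h1 : Φ.comp q = Gam φ := by
    apply FP.hom_ext
    · intro k
      simp only [MonoidHom.comp_apply]
      rw [hqκ, hΦ1]
    · intro j
      simp only [MonoidHom.comp_apply]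
      rcases j with e | ⟨r, ⟨n⟩⟩
      · rw [hqe, map_mul, map_inv, hΦ3, hΦ3, ← hxe, map_mul, map_inv]
        group
      · rw [hqr]
        have h2 : Φ (g r) = TT A * Gam φ (x (Sum.inr r)) := hΦ3 (Sum.inr r)
        simp only [map_mul, map_inv, map_pow]
        have h3 : Φ T = TT A := hΦ2
        rw [h2, h3, hxr r.1 r.2, inv_mul_cancel_left, hTn, hφn]
  exact fun a => DFunLike.congr_fun h1 a

end

end Pool.Agent.TH309.LF
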