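import Pool.Agent.TH309.LF.Horn

/-!
# Free products with free groups, and mapping tori of endomorphisms inside reduced powers
-/

set_option autoImplicit false

namespace Pool.Agent.TH309.LF

universe u

open Filter

noncomputable section

/-! ### `K * F(J)` as a semidirect product `F(K × J) ⋊ K` -/

section FP

variable (K J : Type u) [Group K]

/-- `K` acts on the free group with basis `K × J` by left multiplication. -/
def actJ : K →* MulAut (FreeGroup (K × J)) where
  toFun k := FreeGroup.freeGroupCongr ((Equiv.mulLeft k).prodCongr (Equiv.refl J))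
  map_one' := by
    ext w
    have : (FreeGroup.freeGroupCongr ((Equiv.mulLeft (1 : K)).prodCongr (Equiv.refl J))).toMonoidHom
        = MonoidHom.id _ := by
      ext ⟨a, b⟩; simp
    exact DFunLike.congr_fun this w
  map_mul' k k' := by
    ext w
    have : (FreeGroup.freeGroupCongr ((Equiv.mulLeft (k * k')).prodCongr (Equiv.refl J))).toMonoidHom
        = (FreeGroup.freeGroupCongr ((Equiv.mulLeft k).prodCongr (Equiv.refl J))).toMonoidHom.comp
          (FreeGroup.freeGroupCongr ((Equiv.mulLeft k').prodCongr (Equiv.refl J))).toMonoidHom := by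
      ext ⟨a, b⟩; simp [mul_assoc]
    exact DFunLike.congr_fun this w

@[simp] theorem actJ_of (k k' : K) (j : J) :
    actJ K J k (FreeGroup.of (k', j)) = FreeGroup.of (k * k', j) := by
  simp [actJ]

/-- the free product of `K` and the free group with basis `J` -/
abbrev FP : Type u := FreeGroup (K × J) ⋊[actJ K J] K

variable {K J}

/-- the embedding of `K` -/
def kap : K →* FP K J := SemidirectProduct.inr

/-- the free generators -/
def bet (j : J) : FP K J := SemidirectProduct.inl (FreeGroup.of (1, j))

theorem inl_of (k : K) (j : J) :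
    (SemidirectProduct.inl (FreeGroup.of (k, j)) : FP K J) = kap k * bet j * (kap k)⁻¹ := by
  have := SemidirectProduct.inl_aut (φ := actJ K J) k (FreeGroup.of (1, j))
  simp only [actJ_of, mul_one] at this
  rw [this]
  simp [kap, bet]

/-- universal property of the free product -/
def FP.lift {Q : Type*} [Group Q] (f : K →* Q) (y : J → Q) : FP K J →* Q :=
  SemidirectProduct.lift (FreeGroup.lift fun p => f p.1 * y p.2 * (f p.1)⁻¹) f (by
    intro k
    ext ⟨a, b⟩
    simp [mul_assoc])

@[simp] theorem FP.lift_kap {Q : Type*} [Group Q] (f : K →* Q) (y : J → Q) (k : K) :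
    FP.lift f y (kap k) = f k := by
  simp [FP.lift, kap]

@[simp] theorem FP.lift_bet {Q : Type*} [Group Q] (f : K →* Q) (y : J → Q) (j : J) :
    FP.lift f y (bet j) = y j := by
  simp [FP.lift, bet]

theorem FP.hom_ext {Q : Type*} [Group Q] {f f' : FP K J →* Q} (h1 : ∀ k, f (kap k) = f' (kap k))
    (h2 : ∀ j, f (bet j) = f' (bet j)) : f = f' := by
  apply SemidirectProduct.hom_ext
  · ext ⟨k, j⟩
    simp only [MonoidHom.comp_apply, inl_of, map_mul, map_inv, h1, h2]
  · ext k
    exact h1 k

theorem horn_FP (hK : Horn K) : Horn (FP K J) :=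
  horn_semidirect _ (horn_free _) hK

end FP

/-! ### Mapping tori -/

section Torus

variable (A : Type u) [Group A]

theorem tendsto_sub (m : ℤ) : Tendsto (fun n : ℤ => n - m) atTop atTop :=
  tendsto_atTop_add_const_right atTop (-m) tendsto_id

/-- the shift by `m` on germs at infinity -/
def shf (m : ℤ) : Germ (atTop : Filter ℤ) A →* Germ (atTop : Filter ℤ) A where
  toFun f := f.compTendsto (fun n => n - m) (tendsto_sub m)
  map_one' := rfl
  map_mul' f g := by
    induction f using Germ.inductionOn with
    | _ f =>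
      induction g using Germ.inductionOn with
      | _ g => rfl

theorem shf_coe (m : ℤ) (f : ℤ → A) :
    shf A m (f : Germ atTop A) = ((fun n => f (n - m) : ℤ → A) : Germ atTop A) := rfl

theorem shf_shf (m m' : ℤ) (f : Germ (atTop : Filter ℤ) A) :
    shf A m (shf A m' f) = shf A (m + m') f := by
  induction f using Germ.inductionOn with
  | _ f =>
    simp only [shf_coe]
    congr 1
    funext n
    congr 1
    ring

theorem shf_zero (f : Germ (atTop : Filter ℤ) A) : shf A 0 f = f := by
  induction f using Germ.inductionOn with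
  | _ f =>
    simp only [shf_coe, sub_zero]

/-- the action of `ℤ` by shifts -/
def shA : Multiplicative ℤ →* MulAut (Germ (atTop : Filter ℤ) A) where
  toFun m :=
    { toFun := shf A m.toAdd
      invFun := shf A (-m.toAdd)
      left_inv := fun f => by rw [shf_shf]; simp [shf_zero]
      right_inv := fun f => by rw [shf_shf]; simp [shf_zero]
      map_mul' := map_mul _ }
  map_one' := by
    ext f
    exact shf_zero A f
  map_mul' m m' := by
    ext f
    exact (shf_shf A _ _ f).symm

/-- the ambient group -/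
abbrev Tor : Type u := Germ (atTop : Filter ℤ) A ⋊[shA A] Multiplicative ℤ

theorem horn_Tor (hA : Horn A) : Horn (Tor A) :=
  horn_semidirect _ (horn_germ _ hA) horn_int

/-- the stable letter -/
def TT : Tor A := SemidirectProduct.inr (Multiplicative.ofAdd 1)

variable {A}

/-- `a ↦ (n ↦ φⁿ(a))` -/
def gam (φ : A →* A) : A →* Germ (atTop : Filter ℤ) A where
  toFun a := ((fun n : ℤ => φ^[n.toNat] a : ℤ → A) : Germ atTop A)
  map_one' := by
    simp only [iterate_map_one]
    rfl
  map_mul' a b := by
    simp only [iterate_map_mul]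
    rfl

theorem gam_eq_one (φ : A →* A) (a : A) (h : gam φ a = 1) : ∃ n : ℕ, φ^[n] a = 1 := by
  have h1 : ∀ᶠ n : ℤ in atTop, φ^[n.toNat] a = 1 := Germ.coe_eq.1 h
  obtain ⟨n, hn⟩ := h1.exists
  exact ⟨n.toNat, hn⟩

/-- the copy of `A` -/
def Gam (φ : A →* A) : A →* Tor A := SemidirectProduct.inl.comp (gam φ)

theorem Gam_eq_one (φ : A →* A) (a : A) (h : Gam φ a = 1) : ∃ n : ℕ, φ^[n] a = 1 := by
  apply gam_eq_one
  apply SemidirectProduct.inl_injective (φ := shA A)
  simpa [Gam] using h

theorem TT_conj (φ : A →* A) (a : A) : (TT A)⁻¹ * Gam φ a * TT A = Gam φ (φ a) := by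
  have h1 := SemidirectProduct.inl_aut_inv (φ := shA A) (Multiplicative.ofAdd (1 : ℤ)) (gam φ a)
  have h2 : (shA A (Multiplicative.ofAdd (1 : ℤ)))⁻¹ (gam φ a) = gam φ (φ a) := by
    rw [← map_inv]
    have h4 : (shA A ((Multiplicative.ofAdd (1 : ℤ))⁻¹)) (gam φ a) =
        shf A ((Multiplicative.ofAdd (1 : ℤ))⁻¹).toAdd (gam φ a) := rfl
    have h5 : ((Multiplicative.ofAdd (1 : ℤ))⁻¹).toAdd = -1 := rfl
    rw [h4, h5]
    have h6 : shf A (-1) (gam φ a) =
        ((fun n : ℤ => φ^[(n - (-1)).toNat] a : ℤ → A) : Germ (atTop : Filter ℤ) A) := rfl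
    have h7 : gam φ (φ a) =
        ((fun n : ℤ => φ^[n.toNat] (φ a) : ℤ → A) : Germ (atTop : Filter ℤ) A) := rfl
    rw [h6, h7]
    refine Germ.coe_eq.2 ?_
    filter_upwards [eventually_ge_atTop (0 : ℤ)] with n hn
    have h3 : (n - (-1)).toNat = n.toNat + 1 := by omega
    rw [h3, Function.iterate_succ_apply]
  rw [h2] at h1
  simp only [Gam, MonoidHom.comp_apply]
  rw [h1]
  simp [TT]

end Torus

end

end Pool.Agent.TH309.LF
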